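import Pool.Agent.Helper4.SQE.Defs

/-!
# the Frobenius product of two PSD matrices is nonnegative
-/

set_option autoImplicit false
set_option linter.unusedSectionVars false

open Finset

open scoped MatrixOrder in
private theorem exists_sq {V : Type*} [Fintype V] [DecidableEq V] {Q : Matrix V V ℝ}
    (hQ : Q.PosSemidef) : ∃ B : Matrix V V ℝ, Q = B.conjTranspose * B := by
  obtain ⟨B, hB⟩ := CStarAlgebra.nonneg_iff_eq_star_mul_self.mp hQ.nonneg
  exact ⟨B, hB⟩

namespace SQE

variable {V : Type*} [Fintype V] [DecidableEq V]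

theorem fr_nonneg {P Q : Matrix V V ℝ} (hP : P.PosSemidef) (hQ : Q.PosSemidef) : 0 ≤ Fr P Q := by
  obtain ⟨B, hB⟩ := exists_sq hQ
  have h1 : ∀ i j, Q i j = ∑ k, B k i * B k j := by
    intro i j
    rw [hB, Matrix.mul_apply]
    exact Finset.sum_congr rfl fun k _ => by simp [Matrix.conjTranspose_apply]
  have h2 : Fr P Q = ∑ k, ∑ i, ∑ j, B k i * (P i j * B k j) := by
    unfold Fr
    have h3 : ∀ i j, P i j * Q i j = ∑ k, B k i * (P i j * B k j) := by
      intro i j
      rw [h1, Finset.mul_sum]
      exact Finset.sum_congr rfl fun k _ => by ring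
    rw [Finset.sum_congr rfl fun i _ => Finset.sum_congr rfl fun j _ => h3 i j]
    rw [Finset.sum_congr rfl fun i _ => Finset.sum_comm]
    exact Finset.sum_comm
  rw [h2]
  refine Finset.sum_nonneg fun k _ => ?_
  have h4 := hP.dotProduct_mulVec_nonneg (B k)
  have h5 : ∑ i, ∑ j, B k i * (P i j * B k j) = star (B k) ⬝ᵥ (P.mulVec (B k)) := by
    unfold dotProduct Matrix.mulVec dotProduct
    refine Finset.sum_congr rfl fun i _ => ?_
    rw [Finset.mul_sum]
    exact Finset.sum_congr rfl fun j _ => by simp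
  rw [h5]
  exact h4

end SQE
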