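import Pool.Agent.Helper4.SQE.Defs

/-!
# Positive square energy, module A02: spectral decomposition
-/

set_option autoImplicit false

namespace SQE

open Finset

variable {V : Type*} [Fintype V] [DecidableEq V]

/-- entries of the orthogonal matrix of eigenvectors -/
noncomputable def ev {A : Matrix V V ℝ} (hA : A.IsHermitian) (x i : V) : ℝ :=
  (hA.eigenvectorUnitary : Matrix V V ℝ) x i

/-- functions of a symmetric matrix -/
noncomputable def fc {A : Matrix V V ℝ} (hA : A.IsHermitian) (f : ℝ → ℝ) : Matrix V V ℝ :=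
  fun x y => ∑ i, f (hA.eigenvalues i) * (ev hA x i * ev hA y i)

section

variable {A : Matrix V V ℝ} (hA : A.IsHermitian)

theorem ev_row (x y : V) : ∑ i, ev hA x i * ev hA y i = if x = y then 1 else 0 := by
  have h : (hA.eigenvectorUnitary : Matrix V V ℝ) * star (hA.eigenvectorUnitary : Matrix V V ℝ) = 1 :=
    Unitary.coe_mul_star_self hA.eigenvectorUnitary
  have h2 := congrFun (congrFun h x) y
  rw [Matrix.mul_apply, Matrix.one_apply] at h2
  rw [← h2]
  rfl

theorem ev_col (i j : V) : ∑ x, ev hA x i * ev hA x j = if i = j then 1 else 0 := by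
  have h : star (hA.eigenvectorUnitary : Matrix V V ℝ) * (hA.eigenvectorUnitary : Matrix V V ℝ) = 1 :=
    Unitary.coe_star_mul_self hA.eigenvectorUnitary
  have h2 := congrFun (congrFun h i) j
  rw [Matrix.mul_apply, Matrix.one_apply] at h2
  rw [← h2]
  rfl

theorem fc_id : fc hA id = A := by
  funext x y
  have h := hA.spectral_theorem
  rw [Unitary.conjStarAlgAut_apply] at h
  have h2 := congrFun (congrFun h x) y
  rw [h2, Matrix.mul_apply]
  refine Finset.sum_congr rfl fun i _ => ?_
  rw [Matrix.mul_diagonal]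
  show hA.eigenvalues i * (ev hA x i * ev hA y i) = ev hA x i * hA.eigenvalues i * ev hA y i
  ring

theorem fc_mul (f g : ℝ → ℝ) : fc hA f * fc hA g = fc hA fun t => f t * g t := by
  funext x y
  rw [Matrix.mul_apply]
  show ∑ z, (∑ i, f (hA.eigenvalues i) * (ev hA x i * ev hA z i)) *
    (∑ j, g (hA.eigenvalues j) * (ev hA z j * ev hA y j)) =
    ∑ i, f (hA.eigenvalues i) * g (hA.eigenvalues i) * (ev hA x i * ev hA y i)
  have h1 : ∀ z, (∑ i, f (hA.eigenvalues i) * (ev hA x i * ev hA z i)) *
      (∑ j, g (hA.eigenvalues j) * (ev hA z j * ev hA y j)) =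
      ∑ i, ∑ j, (f (hA.eigenvalues i) * ev hA x i * (g (hA.eigenvalues j) * ev hA y j)) *
        (ev hA z i * ev hA z j) := by
    intro z
    rw [Finset.sum_mul_sum]
    refine Finset.sum_congr rfl fun i _ => Finset.sum_congr rfl fun j _ => ?_
    ring
  rw [Finset.sum_congr rfl fun z _ => h1 z, Finset.sum_comm]
  refine Finset.sum_congr rfl fun i _ => ?_
  rw [Finset.sum_comm]
  rw [Finset.sum_eq_single i]
  · rw [← Finset.mul_sum, ev_col, if_pos rfl]
    ring
  · intro j _ hj
    rw [← Finset.mul_sum, ev_col, if_neg hj.symm, mul_zero]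
  · intro h; exact absurd (Finset.mem_univ _) h

theorem fc_sub (f g : ℝ → ℝ) : fc hA f - fc hA g = fc hA fun t => f t - g t := by
  funext x y
  show (∑ i, f (hA.eigenvalues i) * (ev hA x i * ev hA y i)) -
    (∑ i, g (hA.eigenvalues i) * (ev hA x i * ev hA y i)) = _
  rw [← Finset.sum_sub_distrib]
  refine Finset.sum_congr rfl fun i _ => ?_
  ring

theorem fc_add (f g : ℝ → ℝ) : fc hA f + fc hA g = fc hA fun t => f t + g t := by
  funext x y
  show (∑ i, f (hA.eigenvalues i) * (ev hA x i * ev hA y i)) +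
    (∑ i, g (hA.eigenvalues i) * (ev hA x i * ev hA y i)) = _
  rw [← Finset.sum_add_distrib]
  refine Finset.sum_congr rfl fun i _ => ?_
  ring

theorem fc_symm (f : ℝ → ℝ) (x y : V) : fc hA f x y = fc hA f y x := by
  refine Finset.sum_congr rfl fun i _ => ?_
  ring

theorem fc_psd {f : ℝ → ℝ} (hf : ∀ t, 0 ≤ f t) : (fc hA f).PosSemidef := by
  refine Matrix.PosSemidef.of_dotProduct_mulVec_nonneg ?_ fun v => ?_
  · ext x y
    exact fc_symm hA f y x
  · have h : star v ⬝ᵥ (fc hA f).mulVec v = ∑ i, f (hA.eigenvalues i) * (∑ x, v x * ev hA x i) ^ 2 := by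
      show ∑ x, v x * ∑ y, (∑ i, f (hA.eigenvalues i) * (ev hA x i * ev hA y i)) * v y = _
      simp only [Finset.mul_sum, Finset.sum_mul]
      have h1 : ∀ x, ∑ y, ∑ i, v x * (f (hA.eigenvalues i) * (ev hA x i * ev hA y i) * v y) =
          ∑ i, ∑ y, v x * (f (hA.eigenvalues i) * (ev hA x i * ev hA y i) * v y) :=
        fun x => Finset.sum_comm
      rw [Finset.sum_congr rfl fun x _ => h1 x, Finset.sum_comm]
      refine Finset.sum_congr rfl fun i _ => ?_
      rw [sq, Finset.sum_mul_sum, Finset.mul_sum]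
      refine Finset.sum_congr rfl fun x _ => ?_
      rw [Finset.mul_sum]
      refine Finset.sum_congr rfl fun y _ => ?_
      ring
    rw [h]
    exact Finset.sum_nonneg fun i _ => mul_nonneg (hf _) (sq_nonneg _)

theorem Fr_fc (f g : ℝ → ℝ) : Fr (fc hA f) (fc hA g) =
    ∑ i, f (hA.eigenvalues i) * g (hA.eigenvalues i) := by
  have h := fc_mul hA f g
  have h2 : Fr (fc hA f) (fc hA g) = ∑ x, (fc hA f * fc hA g) x x := by
    unfold Fr
    refine Finset.sum_congr rfl fun x _ => ?_
    rw [Matrix.mul_apply]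
    refine Finset.sum_congr rfl fun y _ => ?_
    rw [fc_symm hA g x y]
  rw [h2, h]
  show ∑ x, ∑ i, f (hA.eigenvalues i) * g (hA.eigenvalues i) * (ev hA x i * ev hA x i) = _
  rw [Finset.sum_comm]
  refine Finset.sum_congr rfl fun i _ => ?_
  rw [← Finset.mul_sum, ev_col, if_pos rfl, mul_one]

theorem fc_split : Split A (fc hA fun t => max t 0) (fc hA fun t => max (-t) 0) := by
  refine ⟨?_, fc_psd hA fun t => le_max_right _ _, fc_psd hA fun t => le_max_right _ _, ?_⟩
  · rw [fc_sub]
    conv_lhs => rw [← fc_id hA]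
    congr 1
    funext t
    show t = max t 0 - max (-t) 0
    rcases le_total t 0 with h | h
    · rw [max_eq_right h, max_eq_left (by linarith)]; ring
    · rw [max_eq_left h, max_eq_right (by linarith)]; ring
  · rw [fc_mul]
    funext x y
    refine Finset.sum_eq_zero fun i _ => ?_
    have : max (hA.eigenvalues i) 0 * max (-hA.eigenvalues i) 0 = 0 := by
      rcases le_total (hA.eigenvalues i) 0 with h | h
      · rw [max_eq_right h, zero_mul]
      · rw [max_eq_right (a := -hA.eigenvalues i) (b := (0 : ℝ)) (by linarith), mul_zero]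
    show max (hA.eigenvalues i) 0 * max (-hA.eigenvalues i) 0 * (ev hA x i * ev hA y i) = 0
    rw [this, zero_mul]

end

/-- the inner product of two positive semidefinite matrices is nonnegative -/
theorem Fr_nonneg {X Y : Matrix V V ℝ} (hX : X.PosSemidef) (hY : Y.PosSemidef) : 0 ≤ Fr X Y := by
  have hXf := fc_id hX.isHermitian
  have h : Fr X Y = ∑ i, hX.isHermitian.eigenvalues i *
      ((fun x => ev hX.isHermitian x i) ⬝ᵥ Y.mulVec (fun x => ev hX.isHermitian x i)) := by
    unfold Fr
    conv_lhs =>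
      enter [2, x, 2, y, 1]
      rw [← hXf]
    show ∑ x, ∑ y, (∑ i, hX.isHermitian.eigenvalues i *
      (ev hX.isHermitian x i * ev hX.isHermitian y i)) * Y x y = ∑ i,
      hX.isHermitian.eigenvalues i * ∑ x, ev hX.isHermitian x i * ∑ y, Y x y * ev hX.isHermitian y i
    simp only [Finset.mul_sum, Finset.sum_mul]
    have h1 : ∀ x, ∑ y, ∑ i, hX.isHermitian.eigenvalues i *
        (ev hX.isHermitian x i * ev hX.isHermitian y i) * Y x y =
        ∑ i, ∑ y, hX.isHermitian.eigenvalues i *
        (ev hX.isHermitian x i * ev hX.isHermitian y i) * Y x y := fun x => Finset.sum_comm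
    rw [Finset.sum_congr rfl fun x _ => h1 x, Finset.sum_comm]
    refine Finset.sum_congr rfl fun i _ => Finset.sum_congr rfl fun x _ =>
      Finset.sum_congr rfl fun y _ => ?_
    ring
  rw [h]
  refine Finset.sum_nonneg fun i _ => mul_nonneg (hX.eigenvalues_nonneg i) ?_
  have := hY.dotProduct_mulVec_nonneg (fun x => ev hX.isHermitian x i)
  simpa using this

theorem Fr_comm (X Y : Matrix V V ℝ) : Fr X Y = Fr Y X := by
  unfold Fr
  exact Finset.sum_congr rfl fun x _ => Finset.sum_congr rfl fun y _ => mul_comm _ _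

theorem Fr_sub_left (X Y Z : Matrix V V ℝ) : Fr (X - Y) Z = Fr X Z - Fr Y Z := by
  unfold Fr
  rw [← Finset.sum_sub_distrib]
  refine Finset.sum_congr rfl fun x _ => ?_
  rw [← Finset.sum_sub_distrib]
  refine Finset.sum_congr rfl fun y _ => ?_
  rw [Matrix.sub_apply]
  ring

theorem Fr_sub_right (X Y Z : Matrix V V ℝ) : Fr Z (X - Y) = Fr Z X - Fr Z Y := by
  rw [Fr_comm, Fr_sub_left, Fr_comm X, Fr_comm Y]

theorem Fr_self_nonneg (X : Matrix V V ℝ) : 0 ≤ Fr X X :=
  Finset.sum_nonneg fun _ _ => Finset.sum_nonneg fun _ _ => mul_self_nonneg _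

theorem eq_zero_of_Fr_self {X : Matrix V V ℝ} (h : Fr X X ≤ 0) : X = 0 := by
  have h0 : ∑ x, ∑ y, X x y * X x y = 0 := le_antisymm h (Fr_self_nonneg X)
  have h1 := (Finset.sum_eq_zero_iff_of_nonneg
    (fun x _ => Finset.sum_nonneg fun y _ => mul_self_nonneg (X x y))).1 h0
  ext x y
  have h2 := (Finset.sum_eq_zero_iff_of_nonneg (fun y _ => mul_self_nonneg (X x y))).1
    (h1 x (Finset.mem_univ x))
  exact mul_self_eq_zero.1 (h2 y (Finset.mem_univ y))

theorem Fr_eq_trace {X Y : Matrix V V ℝ} (hY : Y.IsHermitian) : Fr X Y = (X * Y).trace := by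
  unfold Fr Matrix.trace
  refine Finset.sum_congr rfl fun x _ => ?_
  rw [Matrix.diag_apply, Matrix.mul_apply]
  refine Finset.sum_congr rfl fun y _ => ?_
  have := hY.apply x y
  rw [← this]
  simp

theorem Split.Fr_zero {A P N : Matrix V V ℝ} (h : Split A P N) : Fr P N = 0 := by
  rw [Fr_eq_trace h.neg.isHermitian, h.mul, Matrix.trace_zero]

theorem Split.unique {A P N P' N' : Matrix V V ℝ} (h : Split A P N) (h' : Split A P' N') : P = P' := by
  have h1 : P - P' = N - N' := by
    have h2 := h.eq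
    rw [h'.eq] at h2
    have : P - P' - (N - N') = (P - N) - (P' - N') := by abel
    rw [← sub_eq_zero, this, ← h2, sub_self]
  have h3 : Fr (P - P') (P - P') ≤ 0 := by
    conv_lhs => rw [Fr_sub_left, h1]
    rw [Fr_sub_right, Fr_sub_right, h.Fr_zero, h'.Fr_zero]
    have h4 := Fr_nonneg h.pos h'.neg
    have h5 := Fr_nonneg h'.pos h.neg
    linarith
  exact sub_eq_zero.1 (eq_zero_of_Fr_self h3)

/-- A02: existence of the decomposition and the value of the square energy -/
theorem exists_split (A : Matrix V V ℝ) (hA : A.IsHermitian) :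
    ∃ P N, Split A P N ∧ Fr P P = posSq A hA := by
  refine ⟨_, _, fc_split hA, ?_⟩
  rw [Fr_fc]
  unfold posSq
  refine Finset.sum_congr rfl fun i _ => ?_
  split_ifs with h
  · rw [max_eq_left h.le, sq]
  · rw [max_eq_right (not_lt.1 h), mul_zero]

theorem Split.herm {A P N : Matrix V V ℝ} (h : Split A P N) : A.IsHermitian := by
  rw [h.eq]
  exact h.pos.isHermitian.sub h.neg.isHermitian

theorem Split.eq_fc {A P N : Matrix V V ℝ} (h : Split A P N) :
    P = fc h.herm fun t => max t 0 :=
  h.unique (fc_split h.herm)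

end SQE
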