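import Pool.Agent.Helper4.SQE.Defs
import Pool.Agent.Helper4.SQE.A01

/-!
# basic identities and the variational inequality
-/

set_option autoImplicit false
set_option linter.unusedSectionVars false

open Finset

namespace SQE

variable {V : Type*} [Fintype V] [DecidableEq V]

theorem fr_add_left (A B C : Matrix V V ℝ) : Fr (A + B) C = Fr A C + Fr B C := by
  simp [Fr, add_mul, Finset.sum_add_distrib]

theorem fr_sub_left (A B C : Matrix V V ℝ) : Fr (A - B) C = Fr A C - Fr B C := by
  simp [Fr, sub_mul, Finset.sum_sub_distrib]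

theorem fr_comm (A B : Matrix V V ℝ) : Fr A B = Fr B A := by
  simp [Fr, mul_comm]

theorem fr_sub_right (A B C : Matrix V V ℝ) : Fr A (B - C) = Fr A B - Fr A C := by
  rw [fr_comm, fr_sub_left, fr_comm B, fr_comm C]

theorem Split.fr_PN {A P N : Matrix V V ℝ} (h : Split A P N) : Fr P N = 0 := by
  unfold Fr
  refine Finset.sum_eq_zero (fun i _ => ?_)
  have h1 : (P * N) i i = 0 := by rw [h.mul]; rfl
  rw [Matrix.mul_apply] at h1
  rw [← h1]
  refine Finset.sum_congr rfl (fun j _ => ?_)
  have h2 : N i j = N j i := by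
    have h3 := h.neg.isHermitian.apply j i
    simpa using h3
  rw [h2]

theorem Split.fr_PA {A P N : Matrix V V ℝ} (h : Split A P N) : Fr P A = Fr P P := by
  rw [h.eq, fr_sub_right, h.fr_PN, sub_zero]

/-- for positive semidefinite `U`: `2 <U,A> - |U|^2 + |U - P|^2 <= |P|^2` -/
theorem Split.var {A P N : Matrix V V ℝ} (h : Split A P N) {U : Matrix V V ℝ}
    (hU : U.PosSemidef) : 2 * Fr U A - Fr U U + Fr (U - P) (U - P) ≤ Fr P P := by
  have h1 : 0 ≤ Fr U N := fr_nonneg hU h.neg
  have h2 : Fr U A = Fr U P - Fr U N := by rw [h.eq, fr_sub_right]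
  have h3 : Fr (U - P) (U - P) = Fr U U - 2 * Fr U P + Fr P P := by
    rw [fr_sub_left, fr_sub_right, fr_sub_right, fr_comm P U]
    ring
  rw [h2, h3]
  linarith

end SQE
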