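import Pool.Agent.Helper4.SQE.Defs
import Pool.Agent.Helper4.SQE.A03

/-!
# uniqueness of the splitting
-/

set_option autoImplicit false
set_option linter.unusedSectionVars false

open Finset

namespace SQE

variable {V : Type*} [Fintype V] [DecidableEq V]

theorem Split.uniq {A P N P' N' : Matrix V V ℝ} (h : Split A P N) (h' : Split A P' N') :
    P = P' ∧ N = N' := by
  have h0 : ∀ X : Matrix V V ℝ, 0 ≤ Fr X X := fun X =>
    Finset.sum_nonneg fun _ _ => Finset.sum_nonneg fun _ _ => mul_self_nonneg _
  have h1 := h.var h'.pos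
  have h2 := h'.var h.pos
  rw [h'.fr_PA] at h1
  rw [h.fr_PA] at h2
  have h3 : Fr (P' - P) (P' - P) = 0 := by
    have h4 := h0 (P' - P)
    have h5 := h0 (P - P')
    linarith
  have h4 := (Finset.sum_eq_zero_iff_of_nonneg
    (fun x _ => Finset.sum_nonneg fun y _ => mul_self_nonneg ((P' - P) x y))).1 h3
  have hP : P = P' := by
    ext x y
    have h5 := (Finset.sum_eq_zero_iff_of_nonneg
      (fun y _ => mul_self_nonneg ((P' - P) x y))).1 (h4 x (Finset.mem_univ x))
    have h6 := mul_self_eq_zero.1 (h5 y (Finset.mem_univ y))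
    rw [Matrix.sub_apply] at h6
    linarith
  refine ⟨hP, ?_⟩
  have h5 : P - N = P' - N' := h.eq.symm.trans h'.eq
  rw [hP] at h5
  exact sub_right_injective h5

end SQE
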