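import Pool.Agent.Helper4.SQE.Defs
import Pool.Agent.Helper4.SQE.A03

/-!
# zero rows of A are zero rows of P and N
-/

set_option autoImplicit false
set_option linter.unusedSectionVars false

open Finset

namespace SQE

variable {V : Type*} [Fintype V] [DecidableEq V]

theorem Split.zero_row {A P N : Matrix V V ℝ} (h : Split A P N) {i : V} (hi : ∀ j, A i j = 0) :
    ∀ j, P i j = 0 ∧ P j i = 0 ∧ N i j = 0 ∧ N j i = 0 := by
  have hPs : ∀ x y, P x y = P y x := fun x y => by
    have := h.pos.isHermitian.apply x y
    rw [star_trivial] at this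
    exact this.symm
  have hNs : ∀ x y, N x y = N y x := fun x y => by
    have := h.neg.isHermitian.apply x y
    rw [star_trivial] at this
    exact this.symm
  have hrow : ∀ j, P i j = N i j := fun j => by
    have h1 := hi j
    rw [h.eq, Matrix.sub_apply] at h1
    linarith
  have h1 : ∑ k, P i k * P i k = 0 := by
    have h2 : (P * N) i i = 0 := by
      rw [h.mul]
      rfl
    rw [Matrix.mul_apply] at h2
    rw [← h2]
    refine Finset.sum_congr rfl fun k _ => ?_
    rw [hNs k i, ← hrow k]
  have h2 : ∀ j, P i j = 0 := fun j =>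
    mul_self_eq_zero.1 ((Finset.sum_eq_zero_iff_of_nonneg
      (fun k _ => mul_self_nonneg (P i k))).1 h1 j (Finset.mem_univ j))
  intro j
  refine ⟨h2 j, ?_, ?_, ?_⟩
  · rw [hPs j i, h2 j]
  · rw [← hrow j, h2 j]
  · rw [hNs j i, ← hrow j, h2 j]

end SQE
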