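import Pool.Agent.Helper4.SQE.Defs
import Pool.Agent.Helper4.SQE.A03
import Pool.Agent.Helper4.SQE.A05

/-!
# the row inequality (*)
-/

set_option autoImplicit false
set_option linter.unusedSectionVars false

open Finset

namespace SQE

variable {V : Type*} [Fintype V] [DecidableEq V]

theorem star_ineq {A B P N PB NB : Matrix V V ℝ} (hA : Split A P N) (hB : Split B PB NB)
    (T : Finset V) (hAB : ∀ i j, B i j = if i ∈ T ∧ j ∈ T then A i j else 0) :
    Fr PB PB + ∑ i, ∑ j, (if i ∈ T ∧ j ∈ T then 0 else (P i j) ^ 2) ≤ Fr P P := by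
  have hz : ∀ i j, ¬ (i ∈ T ∧ j ∈ T) → PB i j = 0 := by
    intro i j hij
    by_cases hi : i ∈ T
    · have hj : j ∉ T := fun hj => hij ⟨hi, hj⟩
      have h1 : ∀ k, B j k = 0 := fun k => by
        rw [hAB, if_neg]
        exact fun h => hj h.1
      exact (hB.zero_row h1 i).2.1
    · have h1 : ∀ k, B i k = 0 := fun k => by
        rw [hAB, if_neg]
        exact fun h => hi h.1
      exact (hB.zero_row h1 j).1
  have h1 := hA.var hB.pos
  have h2 : Fr PB A = Fr PB B := by
    unfold Fr
    refine Finset.sum_congr rfl fun i _ => Finset.sum_congr rfl fun j _ => ?_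
    by_cases hij : i ∈ T ∧ j ∈ T
    · rw [hAB, if_pos hij]
    · rw [hz i j hij, zero_mul, zero_mul]
  have h3 := hB.fr_PA
  have h4 : ∑ i, ∑ j, (if i ∈ T ∧ j ∈ T then 0 else (P i j) ^ 2) ≤ Fr (PB - P) (PB - P) := by
    unfold Fr
    refine Finset.sum_le_sum fun i _ => Finset.sum_le_sum fun j _ => ?_
    by_cases hij : i ∈ T ∧ j ∈ T
    · rw [if_pos hij]
      exact mul_self_nonneg _
    · rw [if_neg hij, Matrix.sub_apply, hz i j hij]
      apply le_of_eq
      ring
  linarith

end SQE
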