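import Pool.Agent.Helper4.SQE.Defs
import Pool.Agent.Helper4.SQE.A03
import Pool.Agent.Helper4.SQE.A04

/-!
# bipartite matrices
-/

set_option autoImplicit false
set_option linter.unusedSectionVars false

open Finset

namespace SQE

variable {V : Type*} [Fintype V] [DecidableEq V]

/-- the sign of a colour -/
noncomputable def csg (b : Bool) : ℝ := if b then 1 else -1

theorem csg_mul_self (b : Bool) : csg b * csg b = 1 := by
  cases b <;> simp [csg]

theorem csg_ne {b c : Bool} (h : b ≠ c) : csg b * csg c = -1 := by
  cases b <;> cases c <;> simp_all [csg]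

/-- conjugation by the signs -/
theorem conj_entry (σ : V → Bool) (M : Matrix V V ℝ) (i j : V) :
    (Matrix.diagonal (fun k => csg (σ k)) * M * Matrix.diagonal (fun k => csg (σ k))) i j =
      csg (σ i) * M i j * csg (σ j) := by
  rw [Matrix.mul_diagonal, Matrix.diagonal_mul]

theorem Split.conj {A P N : Matrix V V ℝ} (h : Split A P N) {σ : V → Bool}
    (hσ : ∀ i j, A i j ≠ 0 → σ i ≠ σ j) :
    Split A (Matrix.diagonal (fun k => csg (σ k)) * N * Matrix.diagonal (fun k => csg (σ k)))
      (Matrix.diagonal (fun k => csg (σ k)) * P * Matrix.diagonal (fun k => csg (σ k))) := by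
  have hD : (Matrix.diagonal (fun k => csg (σ k)) : Matrix V V ℝ).conjTranspose =
      Matrix.diagonal (fun k => csg (σ k)) := by
    rw [Matrix.diagonal_conjTranspose]
    rfl
  have hDD : (Matrix.diagonal (fun k => csg (σ k)) : Matrix V V ℝ) *
      Matrix.diagonal (fun k => csg (σ k)) = 1 := by
    rw [Matrix.diagonal_mul_diagonal]
    rw [← Matrix.diagonal_one]
    congr 1
    funext k
    exact csg_mul_self _
  refine ⟨?_, ?_, ?_, ?_⟩
  · ext i j
    rw [Matrix.sub_apply, conj_entry, conj_entry]
    by_cases h0 : A i j = 0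
    · have h1 : P i j = N i j := by
        have := h.eq
        rw [this, Matrix.sub_apply] at h0
        linarith
      rw [h0, h1]
      ring
    · have h1 := csg_ne (hσ i j h0)
      have h2 : A i j = P i j - N i j := by
        have := congrFun (congrFun h.eq i) j
        rwa [Matrix.sub_apply] at this
      have h3 : csg (σ i) * N i j * csg (σ j) - csg (σ i) * P i j * csg (σ j) =
          (csg (σ i) * csg (σ j)) * (N i j - P i j) := by ring
      rw [h3, h1, h2]
      ring
  · have := h.neg.conjTranspose_mul_mul_same (Matrix.diagonal (fun k => csg (σ k)))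
    rwa [hD] at this
  · have := h.pos.conjTranspose_mul_mul_same (Matrix.diagonal (fun k => csg (σ k)))
    rwa [hD] at this
  · have hNP : N * P = 0 := by
      have h1 := congrArg Matrix.conjTranspose h.mul
      rw [Matrix.conjTranspose_mul, Matrix.conjTranspose_zero, h.pos.1.eq, h.neg.1.eq] at h1
      exact h1
    set D : Matrix V V ℝ := Matrix.diagonal (fun k => csg (σ k)) with hDdef
    calc D * N * D * (D * P * D) = D * N * (D * D) * P * D := by simp only [Matrix.mul_assoc]
      _ = D * (N * P) * D := by rw [hDD]; simp only [Matrix.mul_assoc, Matrix.one_mul]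
      _ = 0 := by rw [hNP]; simp

/-- if `A` is bipartite (colouring `σ`) then `N = D P D` with `D = diag (± 1)` -/
theorem Split.odd_neg {A P N : Matrix V V ℝ} (h : Split A P N) {σ : V → Bool}
    (hσ : ∀ i j, A i j ≠ 0 → σ i ≠ σ j) (i j : V) :
    N i j = if σ i = σ j then P i j else -P i j := by
  have h1 := (h.uniq (h.conj hσ)).2
  have h2 := congrFun (congrFun h1 i) j
  rw [conj_entry] at h2
  rw [h2]
  split_ifs with h3
  · rw [h3]
    have := csg_mul_self (σ j)
    calc csg (σ j) * P i j * csg (σ j) = (csg (σ j) * csg (σ j)) * P i j := by ring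
      _ = P i j := by rw [this, one_mul]
  · have := csg_ne h3
    calc csg (σ i) * P i j * csg (σ j) = (csg (σ i) * csg (σ j)) * P i j := by ring
      _ = -P i j := by rw [this]; ring

theorem Split.odd_entry {A P N : Matrix V V ℝ} (h : Split A P N) {σ : V → Bool}
    (hσ : ∀ i j, A i j ≠ 0 → σ i ≠ σ j) {i j : V} (hij : σ i ≠ σ j) : P i j = A i j / 2 := by
  have h1 := h.odd_neg hσ i j
  rw [if_neg hij] at h1
  have h2 : A i j = P i j - N i j := by
    have := congrFun (congrFun h.eq i) j
    rwa [Matrix.sub_apply] at this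
  rw [h2, h1]
  ring

theorem Split.odd_norm {A P N : Matrix V V ℝ} (h : Split A P N) {σ : V → Bool}
    (hσ : ∀ i j, A i j ≠ 0 → σ i ≠ σ j) : Fr P P = Fr A A / 2 := by
  have hN : Fr N N = Fr P P := by
    unfold Fr
    refine Finset.sum_congr rfl fun i _ => Finset.sum_congr rfl fun j _ => ?_
    rw [h.odd_neg hσ i j]
    split_ifs <;> ring
  have h2 : Fr A A = Fr P P + Fr N N - 2 * Fr P N := by
    unfold Fr
    rw [Finset.mul_sum, ← Finset.sum_add_distrib, ← Finset.sum_sub_distrib]
    refine Finset.sum_congr rfl fun i _ => ?_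
    rw [Finset.mul_sum, ← Finset.sum_add_distrib, ← Finset.sum_sub_distrib]
    refine Finset.sum_congr rfl fun j _ => ?_
    have : A i j = P i j - N i j := by
      have := congrFun (congrFun h.eq i) j
      rwa [Matrix.sub_apply] at this
    rw [this]
    ring
  rw [h2, h.fr_PN, hN]
  ring

end SQE
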