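import Pool.Agent.Helper4.SQE.A02

/-!
# Positive square energy, module A10: the twin lemma
-/

set_option autoImplicit false

namespace SQE

open Finset

variable {V : Type*} [Fintype V] [DecidableEq V]

section resolvent

variable {A : Matrix V V ℝ}

theorem dot_symm (hA : A.IsHermitian) (x z : V → ℝ) :
    x ⬝ᵥ (A.mulVec z) = (A.mulVec x) ⬝ᵥ z := by
  have hT : A.transpose = A := by
    have := hA.eq
    rwa [Matrix.conjTranspose_eq_transpose_of_trivial] at this
  rw [Matrix.dotProduct_mulVec, ← Matrix.mulVec_transpose, hT]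

/-- the resolvent `(A ^ 2 + y ^ 2)⁻¹` -/
noncomputable def res (hA : A.IsHermitian) (y : ℝ) : Matrix V V ℝ :=
  fc hA fun t => 1 / (t ^ 2 + y ^ 2)

theorem fc_one (hA : A.IsHermitian) : fc hA (fun _ => (1 : ℝ)) = 1 := by
  funext x y
  show ∑ i, (1 : ℝ) * (ev hA x i * ev hA y i) = _
  rw [← Finset.mul_sum, ev_row, one_mul, Matrix.one_apply]

theorem res_mul (hA : A.IsHermitian) {y : ℝ} (hy : 0 < y) :
    A * (A * res hA y) + (y ^ 2) • res hA y = 1 := by
  have h1 : A * (A * res hA y) = fc hA fun t => t * (t * (1 / (t ^ 2 + y ^ 2))) := by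
    have h2 : A * res hA y = fc hA fun t => t * (1 / (t ^ 2 + y ^ 2)) := by
      have h4 : A * res hA y = fc hA id * res hA y := by rw [fc_id]
      rw [h4]
      unfold res
      rw [fc_mul]
      rfl
    have h5 : A * (A * res hA y) = fc hA id * fc hA fun t => t * (1 / (t ^ 2 + y ^ 2)) := by
      rw [h2, fc_id]
    rw [h5, fc_mul]
    rfl
  have h3 : (y ^ 2) • res hA y = fc hA fun t => y ^ 2 * (1 / (t ^ 2 + y ^ 2)) := by
    funext u v
    show y ^ 2 * ∑ i, (1 / ((hA.eigenvalues i) ^ 2 + y ^ 2)) * (ev hA u i * ev hA v i) =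
      ∑ i, y ^ 2 * (1 / ((hA.eigenvalues i) ^ 2 + y ^ 2)) * (ev hA u i * ev hA v i)
    rw [Finset.mul_sum]
    refine Finset.sum_congr rfl fun i _ => ?_
    ring
  rw [h1, h3, fc_add, ← fc_one hA]
  congr 1
  funext t
  have : t ^ 2 + y ^ 2 ≠ 0 := by positivity
  field_simp

/-- `B (B g) + y ^ 2 g` -/
def op (A : Matrix V V ℝ) (y : ℝ) (g : V → ℝ) : V → ℝ :=
  A.mulVec (A.mulVec g) + (y ^ 2) • g

theorem op_res (hA : A.IsHermitian) {y : ℝ} (hy : 0 < y) (m : V → ℝ) :
    op A y ((res hA y).mulVec m) = m := by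
  unfold op
  rw [Matrix.mulVec_mulVec, Matrix.mulVec_mulVec, ← Matrix.smul_mulVec, ← Matrix.add_mulVec,
    Matrix.mul_assoc, res_mul hA hy, Matrix.one_mulVec]

theorem dot_op (hA : A.IsHermitian) (y : ℝ) (x g : V → ℝ) :
    x ⬝ᵥ op A y g = (A.mulVec x) ⬝ᵥ (A.mulVec g) + y ^ 2 * (x ⬝ᵥ g) := by
  unfold op
  rw [dotProduct_add, dot_symm hA, dotProduct_smul, smul_eq_mul]

theorem op_pos (hA : A.IsHermitian) {y : ℝ} (hy : 0 < y) {x : V → ℝ} (hx : x ≠ 0) :
    0 < x ⬝ᵥ op A y x := by
  rw [dot_op hA]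
  have h1 : 0 ≤ (A.mulVec x) ⬝ᵥ (A.mulVec x) :=
    Finset.sum_nonneg fun i _ => mul_self_nonneg _
  have h2 : 0 < x ⬝ᵥ x := by
    have h3 : 0 ≤ x ⬝ᵥ x := Finset.sum_nonneg fun i _ => mul_self_nonneg _
    rcases h3.lt_or_eq with h | h
    · exact h
    · exact absurd (dotProduct_self_eq_zero.1 h.symm) hx
  have h3 : 0 < y ^ 2 := by positivity
  have := mul_pos h3 h2
  linarith

theorem op_inj (hA : A.IsHermitian) {y : ℝ} (hy : 0 < y) {x z : V → ℝ}
    (h : op A y x = op A y z) : x = z := by
  by_contra hne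
  have h1 : x - z ≠ 0 := fun h2 => hne (sub_eq_zero.1 h2)
  have h2 := op_pos hA hy h1
  have h3 : op A y (x - z) = 0 := by
    have : op A y (x - z) = op A y x - op A y z := by
      unfold op
      rw [Matrix.mulVec_sub, Matrix.mulVec_sub, smul_sub]
      abel
    rw [this, h, sub_self]
  rw [h3, dotProduct_zero] at h2
  exact lt_irrefl _ h2

end resolvent

/-- the block of `A` on `X` -/
def blk (A : Matrix V V ℝ) (X : Finset V) : Matrix V V ℝ :=
  fun i j => if i ∈ X ∧ j ∈ X then A i j else 0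

theorem blk_herm {A : Matrix V V ℝ} (hA : A.IsHermitian) (X : Finset V) :
    (blk A X).IsHermitian := by
  ext i j
  rw [Matrix.conjTranspose_apply, star_trivial]
  unfold blk
  have h := hA.apply i j
  rw [star_trivial] at h
  by_cases h1 : i ∈ X ∧ j ∈ X
  · rw [if_pos h1, if_pos ⟨h1.2, h1.1⟩, h]
  · rw [if_neg h1, if_neg fun h2 => h1 ⟨h2.2, h2.1⟩]

theorem blk_mulVec_out (A : Matrix V V ℝ) {X : Finset V} (z : V → ℝ) {i : V} (hi : i ∉ X) :
    (blk A X).mulVec z i = 0 := by
  show ∑ j, blk A X i j * z j = 0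
  refine Finset.sum_eq_zero fun j _ => ?_
  unfold blk
  rw [if_neg fun h => hi h.1, zero_mul]

open Classical in
theorem blk_mulVec_in (A : Matrix V V ℝ) {X : Finset V} (z : V → ℝ) {i : V} (hi : i ∈ X) :
    A.mulVec z i = (blk A X).mulVec z i + ∑ p, (if p ∈ X then 0 else A i p * z p) := by
  show ∑ j, A i j * z j = ∑ j, blk A X i j * z j + _
  rw [← Finset.sum_add_distrib]
  refine Finset.sum_congr rfl fun j _ => ?_
  unfold blk
  by_cases hj : j ∈ X
  · rw [if_pos ⟨hi, hj⟩, if_pos hj, add_zero]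
  · rw [if_neg fun h => hj h.2, if_neg hj, zero_mul, zero_add]

open Classical in
/-- bipartite decorations -/
theorem decoration {A : Matrix V V ℝ} (hA : A.IsHermitian) {X : Finset V} {a : V} (ha : a ∈ X)
    (hX : ∀ i ∈ X, ∀ j, j ∉ X → i ≠ a → A i j = 0) (oX : Odd A X) {y : ℝ} (hy : 0 < y) :
    ∃ q : ℝ, 0 < q ∧ ∀ g r : V → ℝ, op A y g = r → (∀ x ∈ X, r x = 0) →
      g a = -q * ∑ p, (if p ∈ X then 0 else A a p * A.mulVec g p) ∧
      A.mulVec g a = y ^ 2 * (q * ∑ p, (if p ∈ X then 0 else A a p * g p)) := by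
  have hB := blk_herm hA X
  set B := blk A X with hBdef
  set ea : V → ℝ := Pi.single a 1 with hea
  set h : V → ℝ := (res hB y).mulVec ea with hh
  have hop : op B y h = ea := op_res hB hy ea
  set w : V → ℝ := B.mulVec h with hw
  have hwout : ∀ u, u ∉ X → w u = 0 := fun u hu => blk_mulVec_out A h hu
  have heq : ∀ u, B.mulVec w u + y ^ 2 * h u = ea u := fun u => by
    have := congrFun hop u
    exact this
  have hy2 : 0 < y ^ 2 := by positivity
  have hhout : ∀ u, u ∉ X → h u = 0 := fun u hu => by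
    have h1 := heq u
    have h2 : u ≠ a := by
      rintro rfl
      exact hu ha
    rw [blk_mulVec_out A w hu, zero_add, hea, Pi.single_eq_of_ne h2] at h1
    rcases mul_eq_zero.1 h1 with h2 | h2
    · exact absurd h2 hy2.ne'
    · exact h2
  -- oddness
  obtain ⟨σ, hσ⟩ := oX
  have hodd : ∀ i j, σ i = σ j → B i j = 0 := by
    intro i j hij
    rw [hBdef]
    unfold blk
    by_cases h1 : i ∈ X ∧ j ∈ X
    · rw [if_pos h1]
      by_contra h2
      exact hσ i h1.1 j h1.2 h2 hij
    · rw [if_neg h1]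
  have hsame : ∀ u, σ u ≠ σ a → h u = 0 := by
    -- the restriction of `h` to the colour of `a` solves the same equation
    set h' : V → ℝ := fun u => if σ u = σ a then h u else 0 with hh'
    have h1 : ∀ u, B.mulVec h' u = if σ u = σ a then 0 else w u := by
      intro u
      by_cases hu : σ u = σ a
      · rw [if_pos hu]
        show ∑ v, B u v * h' v = 0
        refine Finset.sum_eq_zero fun v _ => ?_
        by_cases hv : σ v = σ a
        · rw [hodd u v (hu.trans hv.symm), zero_mul]
        · rw [hh']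
          simp only [if_neg hv, mul_zero]
      · rw [if_neg hu, hw]
        show ∑ v, B u v * h' v = ∑ v, B u v * h v
        refine Finset.sum_congr rfl fun v _ => ?_
        by_cases hv : σ v = σ a
        · rw [hh']
          simp only [if_pos hv]
        · have : σ u = σ v := by
            revert hu hv
            cases σ u <;> cases σ v <;> cases σ a <;> simp
          rw [hodd u v this, zero_mul, zero_mul]
    have h2 : op B y h' = ea := by
      funext u
      show B.mulVec (B.mulVec h') u + y ^ 2 * h' u = ea u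
      by_cases hu : σ u = σ a
      · rw [← heq u]
        have h3 : h' u = h u := by
          rw [hh']
          simp only [if_pos hu]
        rw [h3]
        congr 1
        show ∑ v, B u v * B.mulVec h' v = ∑ v, B u v * w v
        refine Finset.sum_congr rfl fun v _ => ?_
        rw [h1 v]
        by_cases hv : σ v = σ a
        · rw [hodd u v (hu.trans hv.symm), zero_mul, zero_mul]
        · rw [if_neg hv]
      · have h3 : h' u = 0 := by
          rw [hh']
          simp only [if_neg hu]
        have h4 : ea u = 0 := by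
          rw [hea]
          have h5 : u ≠ a := by
            rintro rfl
            exact hu rfl
          exact Pi.single_eq_of_ne h5 _
        rw [h3, h4, mul_zero, add_zero]
        show ∑ v, B u v * B.mulVec h' v = 0
        refine Finset.sum_eq_zero fun v _ => ?_
        rw [h1 v]
        by_cases hv : σ v = σ a
        · rw [if_pos hv, mul_zero]
        · have : σ u = σ v := by
            revert hu hv
            cases σ u <;> cases σ v <;> cases σ a <;> simp
          rw [hodd u v this, zero_mul]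
    have h3 : h' = h := op_inj hB hy (h2.trans hop.symm)
    intro u hu
    rw [← h3, hh']
    simp only [if_neg hu]
  have hwa : w a = 0 := by
    show ∑ v, B a v * h v = 0
    refine Finset.sum_eq_zero fun v _ => ?_
    by_cases hv : σ v = σ a
    · rw [hodd a v hv.symm, zero_mul]
    · rw [hsame v hv, mul_zero]
  have hne : h ≠ 0 := by
    intro h0
    have h1 := heq a
    have h2 : B.mulVec w a = 0 := by
      rw [hw, h0, Matrix.mulVec_zero, Matrix.mulVec_zero]
      rfl
    rw [h2, h0, hea, Pi.single_eq_same] at h1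
    simp at h1
  have hq : 0 < h a := by
    have h1 := op_pos hB hy hne
    rw [hop, hea, dotProduct_single, mul_one] at h1
    exact h1
  -- dot products
  have hwdot : ∀ z : V → ℝ, w ⬝ᵥ B.mulVec z = w ⬝ᵥ A.mulVec z := by
    intro z
    refine Finset.sum_congr rfl fun u _ => ?_
    by_cases hu : u ∈ X
    · by_cases hua : u = a
      · rw [hua, hwa, zero_mul, zero_mul]
      · congr 1
        rw [blk_mulVec_in A z hu]
        have : ∑ p, (if p ∈ X then 0 else A u p * z p) = 0 := by
          refine Finset.sum_eq_zero fun p _ => ?_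
          by_cases hp : p ∈ X
          · rw [if_pos hp]
          · rw [if_neg hp, hX u hu p hp hua, zero_mul]
        rw [this, add_zero]
    · rw [hwout u hu, zero_mul, zero_mul]
  have hhdot : ∀ z : V → ℝ, h ⬝ᵥ B.mulVec z =
      h ⬝ᵥ A.mulVec z - h a * ∑ p, (if p ∈ X then 0 else A a p * z p) := by
    intro z
    have h1 : ∀ u, h u * A.mulVec z u = h u * B.mulVec z u +
        (if u = a then h a * ∑ p, (if p ∈ X then 0 else A a p * z p) else 0) := by
      intro u
      by_cases hu : u ∈ X
      · rw [blk_mulVec_in A z hu]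
        by_cases hua : u = a
        · rw [if_pos hua, hua]
          ring
        · have : ∑ p, (if p ∈ X then 0 else A u p * z p) = 0 := by
            refine Finset.sum_eq_zero fun p _ => ?_
            by_cases hp : p ∈ X
            · rw [if_pos hp]
            · rw [if_neg hp, hX u hu p hp hua, zero_mul]
          rw [this, if_neg hua, add_zero, add_zero]
      · have h3 : u ≠ a := by
          rintro rfl
          exact hu ha
        rw [hhout u hu, zero_mul, zero_mul, if_neg h3, add_zero]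
    have h2 : h ⬝ᵥ A.mulVec z = ∑ u, h u * A.mulVec z u := rfl
    rw [h2, Finset.sum_congr rfl fun u _ => h1 u, Finset.sum_add_distrib,
      Finset.sum_ite_eq' Finset.univ a, if_pos (Finset.mem_univ a)]
    show ∑ u, h u * B.mulVec z u = _
    ring
  have hdot : ∀ z : V → ℝ, z a = w ⬝ᵥ B.mulVec z + y ^ 2 * (h ⬝ᵥ z) := by
    intro z
    have h1 : z a = ea ⬝ᵥ z := by
      rw [hea, single_dotProduct, one_mul]
    rw [h1, ← hop]
    show (B.mulVec w + (y ^ 2) • h) ⬝ᵥ z = _
    rw [add_dotProduct, smul_dotProduct, smul_eq_mul, dot_symm hB]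
  refine ⟨h a, hq, fun g r hg hr => ?_⟩
  have hAA : A.mulVec (A.mulVec g) = r - (y ^ 2) • g := by
    rw [← hg]
    unfold op
    abel
  have hhr : h ⬝ᵥ r = 0 := by
    refine Finset.sum_eq_zero fun u _ => ?_
    by_cases hu : u ∈ X
    · rw [hr u hu, mul_zero]
    · rw [hhout u hu, zero_mul]
  have hwr : w ⬝ᵥ r = 0 := by
    refine Finset.sum_eq_zero fun u _ => ?_
    by_cases hu : u ∈ X
    · rw [hr u hu, mul_zero]
    · rw [hwout u hu, zero_mul]
  constructor
  · rw [hdot g, hwdot g]
    have h1 : w ⬝ᵥ A.mulVec g = h ⬝ᵥ B.mulVec (A.mulVec g) := by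
      rw [dot_symm hB]
    rw [h1, hhdot, hAA, dotProduct_sub, dotProduct_smul, hhr, smul_eq_mul]
    ring
  · rw [hdot (A.mulVec g), hwdot, hAA, dotProduct_sub, hwr, dotProduct_smul, smul_eq_mul]
    have h1 : w ⬝ᵥ g = h ⬝ᵥ B.mulVec g := by
      rw [dot_symm hB]
    rw [h1, hhdot g]
    ring

/-- the sign criterion -/
theorem sign_criterion {A P N : Matrix V V ℝ} (h : Split A P N) {a b : V} (hne : a ≠ b)
    (hab : A a b = 0) (hK : ∀ y : ℝ, 0 < y → res h.herm y a b < 0) : 0 < P a b := by
  have hA := h.herm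
  set l : V → ℝ := hA.eigenvalues with hl
  set c : V → ℝ := fun i => ev hA a i * ev hA b i with hc
  have hP : P a b = ∑ i, max (l i) 0 * c i := by
    rw [h.eq_fc]
    rfl
  have hA0 : ∑ i, l i * c i = 0 := by
    rw [← hab]
    conv_rhs => rw [← fc_id hA]
    rfl
  have h2P : 2 * P a b = ∑ i, |l i| * c i := by
    rw [hP, Finset.mul_sum]
    have h1 : ∀ i, 2 * (max (l i) 0 * c i) = |l i| * c i + l i * c i := by
      intro i
      rcases le_total (l i) 0 with h2 | h2
      · rw [max_eq_right h2, abs_of_nonpos h2]; ring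
      · rw [max_eq_left h2, abs_of_nonneg h2]; ring
    rw [Finset.sum_congr rfl fun i _ => h1 i, Finset.sum_add_distrib, hA0, add_zero]
  have hc0 : ∑ i, c i = 0 := by
    have := ev_row hA a b
    rw [if_neg hne] at this
    exact this
  have hF : ∀ y : ℝ, 0 < y → 0 < ∑ i, l i ^ 2 / (l i ^ 2 + y ^ 2) * c i := by
    intro y hy
    have h1 : ∑ i, l i ^ 2 / (l i ^ 2 + y ^ 2) * c i = -(y ^ 2) * res hA y a b := by
      have h2 : res hA y a b = ∑ i, 1 / (l i ^ 2 + y ^ 2) * c i := rfl
      rw [h2, Finset.mul_sum]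
      have h3 : ∀ i, l i ^ 2 / (l i ^ 2 + y ^ 2) * c i =
          c i + -(y ^ 2) * (1 / (l i ^ 2 + y ^ 2) * c i) := by
        intro i
        have : l i ^ 2 + y ^ 2 ≠ 0 := by positivity
        field_simp
        ring
      rw [Finset.sum_congr rfl fun i _ => h3 i, Finset.sum_add_distrib, hc0, zero_add]
    rw [h1]
    have := hK y hy
    have hy2 : 0 < y ^ 2 := by positivity
    have h3 := mul_neg_of_pos_of_neg hy2 this
    linarith
  set H : ℝ → ℝ := fun T => ∑ i, l i * Real.arctan (T / l i) * c i with hH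
  have hder : ∀ T : ℝ, 0 < T → HasDerivAt H (∑ i, l i ^ 2 / (l i ^ 2 + T ^ 2) * c i) T := by
    intro T hT
    rw [hH]
    refine HasDerivAt.fun_sum fun i _ => ?_
    refine HasDerivAt.mul_const ?_ _
    by_cases hi : l i = 0
    · rw [hi]
      simp only [zero_mul]
      have : (0 : ℝ) ^ 2 / (0 ^ 2 + T ^ 2) = 0 := by simp
      rw [this]
      exact hasDerivAt_const _ _
    · have h1 : HasDerivAt (fun T : ℝ => T / l i) (1 / l i) T := (hasDerivAt_id T).div_const _
      have h2 := (h1.arctan).const_mul (l i)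
      have h3 : l i * (1 / (1 + (T / l i) ^ 2) * (1 / l i)) = l i ^ 2 / (l i ^ 2 + T ^ 2) := by
        have h4 : l i ^ 2 + T ^ 2 ≠ 0 := by positivity
        have h5 : 1 + (T / l i) ^ 2 ≠ 0 := by positivity
        field_simp
      rw [h3] at h2
      exact h2
  have hcont : ContinuousOn H (Set.Ici 0) := by
    refine Continuous.continuousOn ?_
    rw [hH]
    refine continuous_finsetSum _ fun i _ => ?_
    exact ((continuous_const.mul (Real.continuous_arctan.comp (continuous_id.div_const _))).mul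
      continuous_const)
  have hmono : StrictMonoOn H (Set.Ici 0) := by
    refine strictMonoOn_of_deriv_pos (convex_Ici 0) hcont fun T hT => ?_
    rw [interior_Ici] at hT
    rw [(hder T hT).deriv]
    exact hF T hT
  have h0 : H 0 = 0 := by
    rw [hH]
    refine Finset.sum_eq_zero fun i _ => ?_
    rw [zero_div, Real.arctan_zero, mul_zero, zero_mul]
  have h1 : 0 < H 1 := by
    rw [← h0]
    exact hmono (Set.mem_Ici.2 le_rfl) (Set.mem_Ici.2 zero_le_one) zero_lt_one
  have hge : ∀ T : ℝ, 1 ≤ T → H 1 ≤ H T := fun T hT =>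
    hmono.monotoneOn (Set.mem_Ici.2 zero_le_one) (Set.mem_Ici.2 (zero_le_one.trans hT)) hT
  have hlim : Filter.Tendsto H Filter.atTop (nhds (∑ i, |l i| * (Real.pi / 2) * c i)) := by
    rw [hH]
    refine tendsto_finsetSum _ fun i _ => ?_
    refine Filter.Tendsto.mul_const _ ?_
    rcases lt_trichotomy (l i) 0 with hi | hi | hi
    · have h2 : Filter.Tendsto (fun T : ℝ => T / l i) Filter.atTop Filter.atBot :=
        Filter.tendsto_id.atTop_div_const_of_neg hi
      have h3 : Filter.Tendsto (fun T : ℝ => Real.arctan (T / l i)) Filter.atTop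
          (nhds (-(Real.pi / 2))) :=
        (tendsto_nhds_of_tendsto_nhdsWithin Real.tendsto_arctan_atBot).comp h2
      have h4 := h3.const_mul (l i)
      have h5 : l i * -(Real.pi / 2) = |l i| * (Real.pi / 2) := by
        rw [abs_of_neg hi]; ring
      rw [h5] at h4
      exact h4
    · rw [hi]
      simp only [zero_mul, abs_zero]
      exact tendsto_const_nhds
    · have h2 : Filter.Tendsto (fun T : ℝ => T / l i) Filter.atTop Filter.atTop :=
        Filter.tendsto_id.atTop_div_const hi
      have h3 : Filter.Tendsto (fun T : ℝ => Real.arctan (T / l i)) Filter.atTop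
          (nhds (Real.pi / 2)) :=
        (tendsto_nhds_of_tendsto_nhdsWithin Real.tendsto_arctan_atTop).comp h2
      have h4 := h3.const_mul (l i)
      rw [abs_of_pos hi]
      exact h4
  have hfin : H 1 ≤ ∑ i, |l i| * (Real.pi / 2) * c i :=
    ge_of_tendsto hlim (Filter.eventually_atTop.2 ⟨1, hge⟩)
  have h3 : ∑ i, |l i| * (Real.pi / 2) * c i = Real.pi / 2 * (2 * P a b) := by
    rw [h2P, Finset.mul_sum]
    refine Finset.sum_congr rfl fun i _ => ?_
    ring
  rw [h3] at hfin
  have h4 : 0 < Real.pi / 2 * (2 * P a b) := lt_of_lt_of_le h1 hfin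
  have h5 : 0 < Real.pi / 2 := by positivity
  have h6 := (mul_pos_iff_of_pos_left h5).1 h4
  linarith

/-- A10: the twin lemma -/
theorem twin {A P N : Matrix V V ℝ} (h : Split A P N) {X Y : Finset V} {a b : V}
    (hd : Disjoint X Y) (ha : a ∈ X) (hb : b ∈ Y)
    (hX : ∀ i ∈ X, ∀ j, j ∉ X → i ≠ a → A i j = 0)
    (hY : ∀ i ∈ Y, ∀ j, j ∉ Y → i ≠ b → A i j = 0)
    (hab : A a b = 0) (hw : ∀ r, r ∉ X → r ∉ Y → A a r = A b r)
    (hne : ∃ r, r ∉ X ∧ r ∉ Y ∧ A a r ≠ 0) (oX : Odd A X) (oY : Odd A Y) : 0 < P a b := by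
  classical
  have hA := h.herm
  have hsym : ∀ i j, A i j = A j i := fun i j => by
    have := hA.apply i j
    rw [star_trivial] at this
    exact this.symm
  have haY : a ∉ Y := fun h1 => (Finset.disjoint_left.1 hd ha) h1
  have hbX : b ∉ X := fun h1 => (Finset.disjoint_left.1 hd h1) hb
  have hneab : a ≠ b := by
    rintro rfl
    exact haY hb
  refine sign_criterion h hneab hab fun y hy => ?_
  obtain ⟨qa, hqa, Ha⟩ := decoration hA ha hX oX hy
  obtain ⟨qb, hqb, Hb⟩ := decoration hA hb hY oY hy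
  set eb : V → ℝ := Pi.single b 1 with heb
  set g : V → ℝ := (res hA y).mulVec eb with hg
  have hgop : op A y g = eb := op_res hA hy eb
  set m : V → ℝ := fun p => if p ∈ X ∨ p ∈ Y then 0 else A a p with hm
  set k : V → ℝ := (res hA y).mulVec m with hk
  have hkop : op A y k = m := op_res hA hy m
  have hgab : res hA y a b = g a := by
    rw [hg, heb, Matrix.mulVec_single_one]
    rfl
  rw [hgab]
  -- first decoration
  have h1 := (Ha g eb hgop fun x hx => by
    rw [heb]
    have h2 : x ≠ b := by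
      rintro rfl
      exact hbX hx
    exact Pi.single_eq_of_ne h2 _).1
  have h2 : ∑ p, (if p ∈ X then 0 else A a p * A.mulVec g p) = m ⬝ᵥ A.mulVec g := by
    refine Finset.sum_congr rfl fun p _ => ?_
    rw [hm]
    by_cases hpX : p ∈ X
    · simp only [if_pos hpX, if_pos (Or.inl hpX : p ∈ X ∨ p ∈ Y), zero_mul]
    · by_cases hpY : p ∈ Y
      · simp only [if_neg hpX, if_pos (Or.inr hpY : p ∈ X ∨ p ∈ Y), zero_mul]
        by_cases hpb : p = b
        · rw [hpb, hab, zero_mul]
        · rw [hsym a p, hY p hpY a haY hpb, zero_mul]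
      · simp only [if_neg hpX, if_neg (fun h3 => h3.elim hpX hpY : ¬ (p ∈ X ∨ p ∈ Y))]
  -- second decoration
  have h3 := (Hb k m hkop fun x hx => by
    rw [hm]
    exact if_pos (Or.inr hx)).2
  have h4 : ∑ p, (if p ∈ Y then 0 else A b p * k p) = m ⬝ᵥ k := by
    refine Finset.sum_congr rfl fun p _ => ?_
    rw [hm]
    by_cases hpY : p ∈ Y
    · simp only [if_pos hpY, if_pos (Or.inr hpY : p ∈ X ∨ p ∈ Y), zero_mul]
    · by_cases hpX : p ∈ X
      · simp only [if_neg hpY, if_pos (Or.inl hpX : p ∈ X ∨ p ∈ Y), zero_mul]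
        by_cases hpa : p = a
        · rw [hpa, hsym b a, hab, zero_mul]
        · rw [hsym b p, hX p hpX b hbX hpa, zero_mul]
      · simp only [if_neg hpY, if_neg (fun h3 => h3.elim hpX hpY : ¬ (p ∈ X ∨ p ∈ Y))]
        rw [hw p hpX hpY]
  -- combination
  have h5 : m ⬝ᵥ A.mulVec g = A.mulVec k b := by
    have h6 : m ⬝ᵥ A.mulVec g = (A.mulVec k) ⬝ᵥ op A y g := by
      rw [← hkop, dotProduct_comm, dot_op hA, dot_op hA]
      rw [dotProduct_comm (A.mulVec (A.mulVec g)), dotProduct_comm (A.mulVec g) k,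
        dot_symm hA k g]
      congr 1
      rw [dot_symm hA]
    rw [h6, hgop, heb, dotProduct_single, mul_one]
  have hmne : m ≠ 0 := by
    obtain ⟨r, hrX, hrY, hr⟩ := hne
    intro h6
    have h7 := congrFun h6 r
    rw [hm] at h7
    simp only [if_neg (fun h3 => h3.elim hrX hrY : ¬ (r ∈ X ∨ r ∈ Y))] at h7
    exact hr h7
  have hkne : k ≠ 0 := by
    intro h6
    apply hmne
    rw [← hkop, h6]
    unfold op
    rw [Matrix.mulVec_zero, Matrix.mulVec_zero, smul_zero, add_zero]
  have h6 : 0 < m ⬝ᵥ k := by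
    have h7 := op_pos hA hy hkne
    rw [hkop, dotProduct_comm] at h7
    exact h7
  rw [h1, h2, h5, h3, h4]
  have h7 : 0 < y ^ 2 * (qb * (m ⬝ᵥ k)) := mul_pos (by positivity) (mul_pos hqb h6)
  have h8 := mul_pos hqa h7
  linarith

end SQE
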