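import Pool.Agent.Helper4.SQE.Defs

/-!
# basic facts on adjR
-/

set_option autoImplicit false
set_option linter.unusedSectionVars false

open Finset

namespace SQE

variable {V : Type*} [Fintype V] [DecidableEq V]

theorem adjR_herm (G : SimpleGraph V) (S : Finset V) : (adjR G S).IsHermitian := by
  ext i j
  show adjR G S j i = adjR G S i j
  unfold adjR
  by_cases h : i ∈ S ∧ j ∈ S ∧ G.Adj i j
  · rw [if_pos h, if_pos ⟨h.2.1, h.1, h.2.2.symm⟩]
  · rw [if_neg h, if_neg (fun h' => h ⟨h'.2.1, h'.1, h'.2.2.symm⟩)]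

theorem adjR_nonneg (G : SimpleGraph V) (S : Finset V) (i j : V) : 0 ≤ adjR G S i j := by
  unfold adjR; split_ifs <;> norm_num

theorem adjR_restrict (G : SimpleGraph V) {S T : Finset V} (hT : T ⊆ S) (i j : V) :
    adjR G T i j = if i ∈ T ∧ j ∈ T then adjR G S i j else 0 := by
  unfold adjR
  by_cases h : i ∈ T ∧ j ∈ T
  · rw [if_pos h]
    by_cases ha : G.Adj i j
    · rw [if_pos ⟨h.1, h.2, ha⟩, if_pos ⟨hT h.1, hT h.2, ha⟩]
    · rw [if_neg (fun h' => ha h'.2.2), if_neg (fun h' => ha h'.2.2)]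
  · rw [if_neg h, if_neg (fun h' => h ⟨h'.1, h'.2.1⟩)]

theorem adjR_fr (G : SimpleGraph V) (S : Finset V) : Fr (adjR G S) (adjR G S) = (dE G S : ℝ) := by
  classical
  unfold Fr dE adjR
  rw [← Fintype.sum_prod_type'
    (f := fun i j => (if i ∈ S ∧ j ∈ S ∧ G.Adj i j then (1 : ℝ) else 0) *
      (if i ∈ S ∧ j ∈ S ∧ G.Adj i j then (1 : ℝ) else 0))]
  rw [Finset.card_eq_sum_ones, Nat.cast_sum, Finset.sum_filter, Finset.sum_product]
  rw [Fintype.sum_prod_type]
  have h1 : ∀ i : V, ∑ j : V, ((if i ∈ S ∧ j ∈ S ∧ G.Adj i j then (1 : ℝ) else 0) *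
      (if i ∈ S ∧ j ∈ S ∧ G.Adj i j then (1 : ℝ) else 0)) =
      if i ∈ S then ∑ j ∈ S, (if G.Adj i j then ((1 : ℕ) : ℝ) else 0) else 0 := by
    intro i
    by_cases hi : i ∈ S
    · rw [if_pos hi, ← Finset.sum_filter_add_sum_filter_not Finset.univ (fun j => j ∈ S)]
      have e1 : Finset.univ.filter (fun j => j ∈ S) = S := by
        ext j; simp
      rw [e1]
      have e2 : ∑ j ∈ Finset.univ.filter (fun j => ¬ j ∈ S),
          ((if i ∈ S ∧ j ∈ S ∧ G.Adj i j then (1 : ℝ) else 0) *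
          (if i ∈ S ∧ j ∈ S ∧ G.Adj i j then (1 : ℝ) else 0)) = 0 := by
        refine Finset.sum_eq_zero (fun j hj => ?_)
        have hj' : j ∉ S := (Finset.mem_filter.1 hj).2
        rw [if_neg (fun h => hj' h.2.1), zero_mul]
      rw [e2, add_zero]
      refine Finset.sum_congr rfl (fun j hj => ?_)
      by_cases ha : G.Adj i j
      · rw [if_pos ⟨hi, hj, ha⟩, if_pos ha]; norm_num
      · rw [if_neg (fun h => ha h.2.2), if_neg ha, zero_mul]
    · rw [if_neg hi]
      refine Finset.sum_eq_zero (fun j _ => ?_)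
      rw [if_neg (fun h => hi h.1), zero_mul]
  simp only [h1]
  rw [← Finset.sum_filter]
  have e1 : Finset.univ.filter (fun j => j ∈ S) = S := by
    ext j; simp
  rw [e1]

theorem adjR_univ (G : SimpleGraph V) [DecidableRel G.Adj] : adjR G univ = G.adjMatrix ℝ := by
  ext i j
  rw [SimpleGraph.adjMatrix_apply]
  unfold adjR
  by_cases ha : G.Adj i j
  · rw [if_pos ⟨Finset.mem_univ _, Finset.mem_univ _, ha⟩, if_pos ha]
  · rw [if_neg (fun h => ha h.2.2), if_neg ha]

end SQE
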