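import Pool.Agent.Helper4.SQE.Defs
import Pool.Agent.Helper4.SQE.A07
import Pool.Agent.Helper4.SQE.B01

/-!
# positive square energy of a bipartite graph
-/

set_option autoImplicit false
set_option linter.unusedSectionVars false

open Finset

namespace SQE

variable {V : Type*} [Fintype V] [DecidableEq V]

theorem bip_energy {G : SimpleGraph V} {S : Finset V} (hb : BipOn G S) {P N : Matrix V V ℝ}
    (h : Split (adjR G S) P N) : Fr P P = (dE G S : ℝ) / 2 := by
  obtain ⟨σ, hσ⟩ := hb
  rw [← adjR_fr G S]
  refine h.odd_norm (σ := σ) ?_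
  intro i j hij
  unfold adjR at hij
  by_cases hc : i ∈ S ∧ j ∈ S ∧ G.Adj i j
  · exact hσ i hc.1 j hc.2.1 hc.2.2
  · exact absurd (if_neg hc) hij

end SQE
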