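import Pool.Agent.Helper4.SQE.Defs
import Pool.Agent.Helper4.SQE.A02
import Pool.Agent.Helper4.SQE.A05
import Pool.Agent.Helper4.SQE.A06
import Pool.Agent.Helper4.SQE.B01

/-!
# the row inequality for a removable decoration in a minimal counterexample
-/

set_option autoImplicit false
set_option linter.unusedSectionVars false

open Finset

namespace SQE

variable {V : Type*} [Fintype V] [DecidableEq V]

theorem row_ineq {G : SimpleGraph V} {S : Finset V} (h : MinCex G S) {v : V} {T : Finset V}
    (hL : Leafy G S v T) {P N : Matrix V V ℝ} (hP : Split (adjR G S) P N) :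
    ∑ i, ∑ j, (if i ∈ T ∨ j ∈ T then (P i j) ^ 2 else 0) ≤ (T.card : ℝ) := by
  have hne : S \ T ≠ S := by
    intro h0
    have h1 : v ∈ S \ T := by rw [h0]; exact hL.sub hL.root
    exact (Finset.mem_sdiff.1 h1).2 hL.root
  obtain ⟨PB, NB, hB, _⟩ := exists_split (adjR G (S \ T)) (adjR_herm G (S \ T))
  have h1 := h.vert (S \ T) Finset.sdiff_subset hne hL.rest PB NB hB
  have h2 := h.small P N hP
  have h3 := star_ineq hP hB (S \ T) (fun i j => adjR_restrict G Finset.sdiff_subset i j)
  have hcard : ((S \ T).card : ℝ) + (T.card : ℝ) = (S.card : ℝ) := by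
    exact_mod_cast Finset.card_sdiff_add_card_eq_card hL.sub
  have h4 : ∑ i, ∑ j, (if i ∈ T ∨ j ∈ T then (P i j) ^ 2 else 0) ≤
      ∑ i, ∑ j, (if i ∈ S \ T ∧ j ∈ S \ T then 0 else (P i j) ^ 2) := by
    refine Finset.sum_le_sum (fun i _ => Finset.sum_le_sum (fun j _ => ?_))
    by_cases hij : i ∈ T ∨ j ∈ T
    · rw [if_pos hij, if_neg]
      rintro ⟨g1, g2⟩
      rcases hij with hi | hj
      · exact (Finset.mem_sdiff.1 g1).2 hi
      · exact (Finset.mem_sdiff.1 g2).2 hj
    · rw [if_neg hij]
      split_ifs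
      · exact le_refl _
      · exact sq_nonneg _
  linarith

end SQE
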