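import Pool.Agent.Helper4.SQE.Defs
import Pool.Agent.Helper4.SQE.A03
import Pool.Agent.Helper4.SQE.B01

/-!
# gain from adding edges with nonnegative test entries
-/

set_option autoImplicit false
set_option linter.unusedSectionVars false

open Finset

namespace SQE

variable {V : Type*} [Fintype V] [DecidableEq V]

theorem gain {G H : SimpleGraph V} {S : Finset V} (hHG : H ≤ G) {P N PH NH : Matrix V V ℝ}
    (hG : Split (adjR G S) P N) (hH : Split (adjR H S) PH NH)
    (hnn : ∀ i ∈ S, ∀ j ∈ S, G.Adj i j → ¬ H.Adj i j → 0 < PH i j)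
    (hex : ∃ i ∈ S, ∃ j ∈ S, G.Adj i j ∧ ¬ H.Adj i j) : Fr PH PH < Fr P P := by
  classical
  have h0 : ∀ X : Matrix V V ℝ, 0 ≤ Fr X X := fun X =>
    Finset.sum_nonneg fun _ _ => Finset.sum_nonneg fun _ _ => mul_self_nonneg _
  have h1 := hG.var hH.pos
  have h2 := h0 (PH - P)
  have h3 : Fr PH PH < Fr PH (adjR G S) := by
    rw [← hH.fr_PA]
    have hle : ∀ i j, PH i j * adjR H S i j ≤ PH i j * adjR G S i j := by
      intro i j
      unfold adjR
      by_cases hi : i ∈ S ∧ j ∈ S
      · by_cases hg : G.Adj i j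
        · by_cases hh : H.Adj i j
          · rw [if_pos ⟨hi.1, hi.2, hh⟩, if_pos ⟨hi.1, hi.2, hg⟩]
          · rw [if_neg (fun h => hh h.2.2), if_pos ⟨hi.1, hi.2, hg⟩]
            have := hnn i hi.1 j hi.2 hg hh
            linarith
        · rw [if_neg (fun h => hg (hHG h.2.2)), if_neg (fun h => hg h.2.2)]
      · rw [if_neg (fun h => hi ⟨h.1, h.2.1⟩), if_neg (fun h => hi ⟨h.1, h.2.1⟩)]
    obtain ⟨a, ha, b, hb, hab, hab'⟩ := hex
    refine Finset.sum_lt_sum (fun i _ => Finset.sum_le_sum fun j _ => hle i j)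
      ⟨a, Finset.mem_univ a, ?_⟩
    refine Finset.sum_lt_sum (fun j _ => hle a j) ⟨b, Finset.mem_univ b, ?_⟩
    have h4 := hnn a ha b hb hab hab'
    have h5 : adjR H S a b = 0 := by
      unfold adjR
      exact if_neg fun h => hab' h.2.2
    have h6 : adjR G S a b = 1 := by
      unfold adjR
      exact if_pos ⟨ha, hb, hab⟩
    rw [h5, h6]
    linarith
  linarith

end SQE
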