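import Pool.Agent.Helper4.SQE.Defs
import Pool.Agent.Helper4.SQE.A10
import Pool.Agent.Helper4.SQE.B01

/-!
# the twin lemma for graphs
-/

set_option autoImplicit false
set_option linter.unusedSectionVars false

open Finset

namespace SQE

variable {V : Type*} [Fintype V] [DecidableEq V]

theorem twin_graph {H : SimpleGraph V} {S : Finset V} {a b : V} {X Y : Finset V}
    (hd : Disjoint X Y) (ha : a ∈ X) (hb : b ∈ Y) (hXS : X ⊆ S) (hYS : Y ⊆ S)
    (bX : BipOn H X) (bY : BipOn H Y)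
    (oX : ∀ i ∈ X, ∀ j ∈ S, j ∉ X → H.Adj i j → i = a)
    (oY : ∀ i ∈ Y, ∀ j ∈ S, j ∉ Y → H.Adj i j → i = b)
    (hab : ¬ H.Adj a b)
    (htw : ∀ j ∈ S, j ∉ X → j ∉ Y → (H.Adj a j ↔ H.Adj b j))
    (hne : ∃ j ∈ S, j ∉ X ∧ j ∉ Y ∧ H.Adj a j)
    {P N : Matrix V V ℝ} (h : Split (adjR H S) P N) : 0 < P a b := by
  classical
  have haS : a ∈ S := hXS ha
  have hbS : b ∈ S := hYS hb
  have hpos : ∀ i j, adjR H S i j ≠ 0 → i ∈ S ∧ j ∈ S ∧ H.Adj i j := by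
    intro i j hij
    unfold adjR at hij
    by_contra hc
    exact hij (if_neg hc)
  refine twin h hd ha hb ?_ ?_ ?_ ?_ ?_ ?_ ?_
  · intro i hi j hj hia
    by_contra hc
    obtain ⟨_, h2, h3⟩ := hpos i j hc
    exact hia (oX i hi j h2 hj h3)
  · intro i hi j hj hib
    by_contra hc
    obtain ⟨_, h2, h3⟩ := hpos i j hc
    exact hib (oY i hi j h2 hj h3)
  · by_contra hc
    exact hab (hpos a b hc).2.2
  · intro r hrX hrY
    unfold adjR
    by_cases hr : r ∈ S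
    · by_cases har : H.Adj a r
      · rw [if_pos ⟨haS, hr, har⟩, if_pos ⟨hbS, hr, (htw r hr hrX hrY).1 har⟩]
      · rw [if_neg (fun h => har h.2.2), if_neg (fun h => har ((htw r hr hrX hrY).2 h.2.2))]
    · rw [if_neg (fun h => hr h.2.1), if_neg (fun h => hr h.2.1)]
  · obtain ⟨j, hj, hjX, hjY, haj⟩ := hne
    refine ⟨j, hjX, hjY, ?_⟩
    unfold adjR
    rw [if_pos ⟨haS, hj, haj⟩]
    exact one_ne_zero
  · obtain ⟨σ, hσ⟩ := bX
    exact ⟨σ, fun i hi j hj hij => hσ i hi j hj (hpos i j hij).2.2⟩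
  · obtain ⟨σ, hσ⟩ := bY
    exact ⟨σ, fun i hi j hj hij => hσ i hi j hj (hpos i j hij).2.2⟩

end SQE
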