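import Mathlib

/-!
# Positive square energy: definitions (MP_ceef50_co)

Everything happens on one finite vertex type `V`. Matrices are `V x V`, graphs are graphs on `V`
together with a finite set `S` of vertices; connectivity is used in its cut form.
-/

set_option autoImplicit false
set_option linter.unusedSectionVars false

open Finset

namespace SQE

variable {V : Type*} [Fintype V] [DecidableEq V]

/-- Frobenius inner product -/
def Fr (A B : Matrix V V ℝ) : ℝ := ∑ i, ∑ j, A i j * B i j

/-- `A = P - N` is the decomposition of `A` into its positive and negative parts -/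
structure Split (A P N : Matrix V V ℝ) : Prop where
  eq : A = P - N
  pos : P.PosSemidef
  neg : N.PosSemidef
  mul : P * N = 0

/-- the block `S` of `A` is bipartite -/
def Odd (A : Matrix V V ℝ) (S : Finset V) : Prop :=
  ∃ σ : V → Bool, ∀ i ∈ S, ∀ j ∈ S, A i j ≠ 0 → σ i ≠ σ j

/-- the sum of the squares of the positive eigenvalues, with multiplicity -/
noncomputable def posSq (A : Matrix V V ℝ) (hA : A.IsHermitian) : ℝ :=
  ∑ k, if 0 < hA.eigenvalues k then (hA.eigenvalues k) ^ 2 else 0

/-- cut form of: the subgraph of `G` induced on `S` is connected -/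
def CConn (G : SimpleGraph V) (S : Finset V) : Prop :=
  S.Nonempty ∧ ∀ X ⊆ S, X.Nonempty → X ≠ S → ∃ u ∈ X, ∃ w ∈ S \ X, G.Adj u w

open Classical in
/-- number of ordered pairs of adjacent vertices inside `S` (twice the number of edges) -/
noncomputable def dE (G : SimpleGraph V) (S : Finset V) : ℕ :=
  ((S ×ˢ S).filter (fun p => G.Adj p.1 p.2)).card

/-- the subgraph of `G` induced on `S` is bipartite -/
def BipOn (G : SimpleGraph V) (S : Finset V) : Prop :=
  ∃ σ : V → Bool, ∀ i ∈ S, ∀ j ∈ S, G.Adj i j → σ i ≠ σ j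

open Classical in
/-- adjacency matrix of the subgraph induced on `S`, as a `V x V` matrix -/
noncomputable def adjR (G : SimpleGraph V) (S : Finset V) : Matrix V V ℝ :=
  fun i j => if i ∈ S ∧ j ∈ S ∧ G.Adj i j then 1 else 0

/-- inside `S` every edge leaving `C` ends in `c` -/
def Sep (G : SimpleGraph V) (S : Finset V) (c : V) (C : Finset V) : Prop :=
  C ⊆ S ∧ c ∉ C ∧ ∀ x ∈ C, ∀ y ∈ S, y ∉ C → y ≠ c → ¬ G.Adj x y

/-- a vertex `v` with a removable bipartite decoration `T`: `v ∈ T ⊆ S`, `G[T]` connected and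
bipartite, `G[S \ T]` connected, every edge leaving `T` starts in `v` -/
structure Leafy (G : SimpleGraph V) (S : Finset V) (v : V) (T : Finset V) : Prop where
  root : v ∈ T
  sub : T ⊆ S
  conn : CConn G T
  bip : BipOn G T
  rest : CConn G (S \ T)
  out : ∀ i ∈ T, ∀ j ∈ S, j ∉ T → G.Adj i j → i = v

/-- `(c, C)` is a pair with `G[C + c]` not bipartite and `C` of minimal size -/
structure MinPair (G : SimpleGraph V) (S : Finset V) (c : V) (C : Finset V) : Prop where
  cS : c ∈ S
  sep : Sep G S c C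
  nbip : ¬ BipOn G (insert c C)
  min : ∀ v ∈ S, ∀ D, Sep G S v D → D.card < C.card → BipOn G (insert v D)

open Classical in
/-- the largest set separated from `c` by `v` -/
noncomputable def Dmax (G : SimpleGraph V) (S : Finset V) (c v : V) : Finset V :=
  (S.powerset.filter (fun D => Sep G S v D ∧ c ∉ D)).biUnion id

open Classical in
/-- the vertices of `C` which are not separated from `c` by another vertex of `C` -/
noncomputable def core (G : SimpleGraph V) (S : Finset V) (c : V) (C : Finset V) : Finset V :=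
  C.filter (fun v => ∀ w ∈ C, w ≠ v → v ∉ Dmax G S c w)

/-- the outcome of the structure theorem -/
structure Dec (G : SimpleGraph V) (S : Finset V) (c : V) (M : Finset V) (D : V → Finset V) :
    Prop where
  c_mem : c ∈ S
  leafy : ∀ v ∈ M, Leafy G S v (D v)
  c_not : ∀ v ∈ M, c ∉ D v
  disj : ∀ v ∈ M, ∀ w ∈ M, v ≠ w → Disjoint (D v) (D w)
  out : ∀ v ∈ M, ∀ i ∈ D v, ∀ j ∈ S, j ∉ D v → G.Adj i j → i = v ∧ (j ∈ M ∨ j = c)
  Mne : M.Nonempty
  Mconn : ∀ X ⊆ M, X.Nonempty → X ≠ M → ∃ u ∈ X, ∃ w ∈ M \ X, G.Adj u w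
  deg : ∀ v ∈ M, ∃ p q, p ≠ q ∧ G.Adj v p ∧ G.Adj v q ∧ (p ∈ M ∨ p = c) ∧ (q ∈ M ∨ q = c)
  cadj : ∀ v ∈ M, (∃ w ∈ M, w ≠ v) → ∃ w ∈ M, w ≠ v ∧ G.Adj w c
  nbip : ¬ BipOn G (insert c M)

/-- a minimal counterexample -/
structure MinCex (G : SimpleGraph V) (S : Finset V) : Prop where
  conn : CConn G S
  nbip : ¬ BipOn G S
  small : ∀ P N, Split (adjR G S) P N → Fr P P ≤ (S.card : ℝ) - 1
  vert : ∀ T ⊆ S, T ≠ S → CConn G T → ∀ P N, Split (adjR G T) P N → (T.card : ℝ) - 1 ≤ Fr P P
  edge : ∀ H : SimpleGraph V, H ≤ G → dE H S < dE G S → CConn H S →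
    ∀ P N, Split (adjR H S) P N → (S.card : ℝ) - 1 ≤ Fr P P

/-- the star with centre `0` on `Fin 4` -/
def starE (k l : Fin 4) : Prop := (k = 0 ∧ l ≠ 0) ∨ (l = 0 ∧ k ≠ 0)

/-- the path `0 - 1 - 2 - 3` on `Fin 4` -/
def pathE (k l : Fin 4) : Prop := k.val + 1 = l.val ∨ l.val + 1 = k.val

instance : DecidableRel starE := fun k l => by unfold starE; infer_instance

instance : DecidableRel pathE := fun k l => by unfold pathE; infer_instance

open Classical in
/-- the blocks `T k` of `G`, joined by edges of weight `4/3` between the roots `v k` along `E` -/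
noncomputable def wmat (G : SimpleGraph V) (T : Fin 4 → Finset V) (v : Fin 4 → V)
    (E : Fin 4 → Fin 4 → Prop) : Matrix V V ℝ :=
  fun x y => (if (∃ k, x ∈ T k ∧ y ∈ T k) ∧ G.Adj x y then 1 else 0) +
    (if ∃ k l, E k l ∧ x = v k ∧ y = v l then 4 / 3 else 0)

/-- four disjoint removable bipartite decorations whose roots contain the spanning tree `E`
(star or path) -/
structure Four (G : SimpleGraph V) (S : Finset V) (T : Fin 4 → Finset V) (v : Fin 4 → V)
    (E : Fin 4 → Fin 4 → Prop) : Prop where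
  leafy : ∀ k, Leafy G S (v k) (T k)
  disj : ∀ k l, k ≠ l → Disjoint (T k) (T l)
  adj : ∀ k l, E k l → G.Adj (v k) (v l)
  shape : (∀ k l, E k l ↔ starE k l) ∨ (∀ k l, E k l ↔ pathE k l)

end SQE
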