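import Pool.Agent.Helper4.SQE.Defs

/-!
# G[C + c] is connected
-/

set_option autoImplicit false
set_option linter.unusedSectionVars false

open Finset

namespace SQE

variable {V : Type*} [Fintype V] [DecidableEq V]

theorem conn_insert {G : SimpleGraph V} {S C : Finset V} {c : V} (h : CConn G S) (hc : c ∈ S)
    (hs : Sep G S c C) : CConn G (insert c C) := by
  obtain ⟨hCS, hcC, hsep⟩ := hs
  have key : ∀ X ⊆ insert c C, X.Nonempty → c ∉ X → ∃ u ∈ X, ∃ w ∈ insert c C \ X, G.Adj u w := by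
    intro X hX hne hcX
    have hXC : X ⊆ C := by
      intro x hx
      rcases Finset.mem_insert.1 (hX hx) with h1 | h1
      · exact absurd (h1 ▸ hx) hcX
      · exact h1
    have hXS : X ≠ S := fun h1 => hcX (h1 ▸ hc)
    obtain ⟨u, hu, w, hw, huw⟩ := h.2 X (hXC.trans hCS) hne hXS
    refine ⟨u, hu, w, ?_, huw⟩
    rw [Finset.mem_sdiff] at hw ⊢
    refine ⟨?_, hw.2⟩
    rw [Finset.mem_insert]
    by_contra hno
    push Not at hno
    exact hsep u (hXC hu) w hw.1 hno.2 hno.1 huw
  refine ⟨⟨c, Finset.mem_insert_self c C⟩, ?_⟩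
  intro X hX hne hXne
  by_cases hcX : c ∈ X
  · have hY : (insert c C \ X).Nonempty := by
      rw [Finset.nonempty_iff_ne_empty]
      intro h0
      exact hXne (Finset.Subset.antisymm hX (Finset.sdiff_eq_empty_iff_subset.1 h0))
    obtain ⟨u, hu, w, hw, huw⟩ := key (insert c C \ X) Finset.sdiff_subset hY
      (fun h1 => (Finset.mem_sdiff.1 h1).2 hcX)
    refine ⟨w, ?_, u, hu, huw.symm⟩
    rw [Finset.mem_sdiff] at hw
    by_contra hwX
    exact hw.2 (Finset.mem_sdiff.2 ⟨hw.1, hwX⟩)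
  · exact key X hX hne hcX

end SQE
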