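import Pool.Agent.Helper4.SQE.Defs

/-!
# monotonicity and gluing of bipartite pieces
-/

set_option autoImplicit false
set_option linter.unusedSectionVars false

open Finset

namespace SQE

variable {V : Type*} [Fintype V] [DecidableEq V]

theorem BipOn.mono {G : SimpleGraph V} {S T : Finset V} (h : BipOn G S) (hT : T ⊆ S) :
    BipOn G T := by
  obtain ⟨σ, hσ⟩ := h
  exact ⟨σ, fun i hi j hj => hσ i (hT hi) j (hT hj)⟩

/-- two bipartite pieces sharing only `c`, no edges between them otherwise -/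
theorem bip_glue {G : SimpleGraph V} {X Y : Finset V} {c : V} (hX : BipOn G (insert c X))
    (hY : BipOn G (insert c Y)) (hXY : Disjoint X Y)
    (hno : ∀ x ∈ X, ∀ y ∈ Y, ¬ G.Adj x y) : BipOn G (insert c (X ∪ Y)) := by
  obtain ⟨σ₁, h₁⟩ := hX
  obtain ⟨σ₂, h₂⟩ := hY
  let σ : V → Bool := fun i => if i ∈ Y then xor (σ₂ i) (xor (σ₂ c) (σ₁ c)) else σ₁ i
  have hc : σ c = σ₁ c := by
    by_cases hcY : c ∈ Y
    · simp only [σ, if_pos hcY]
      cases σ₂ c <;> cases σ₁ c <;> rfl
    · simp only [σ, if_neg hcY]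
  have e₁ : ∀ i ∈ insert c X, σ i = σ₁ i := by
    intro i hi
    rcases Finset.mem_insert.mp hi with rfl | hi
    · exact hc
    · have : i ∉ Y := fun hiY => (Finset.disjoint_left.mp hXY) hi hiY
      simp only [σ, if_neg this]
  have e₂ : ∀ i ∈ insert c Y, σ i = xor (σ₂ i) (xor (σ₂ c) (σ₁ c)) := by
    intro i hi
    rcases Finset.mem_insert.mp hi with rfl | hi
    · rw [hc]
      cases σ₂ i <;> cases σ₁ i <;> rfl
    · simp only [σ, if_pos hi]
  refine ⟨σ, ?_⟩
  have key : ∀ i, i ∈ insert c X ∨ i ∈ insert c Y → ∀ j, j ∈ insert c X ∨ j ∈ insert c Y →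
      G.Adj i j → σ i ≠ σ j := by
    intro i hi j hj hij
    have c1 : i ∈ insert c X → j ∈ insert c X → σ i ≠ σ j := by
      intro hi hj
      rw [e₁ i hi, e₁ j hj]
      exact h₁ i hi j hj hij
    have c2 : i ∈ insert c Y → j ∈ insert c Y → σ i ≠ σ j := by
      intro hi hj
      rw [e₂ i hi, e₂ j hj]
      have := h₂ i hi j hj hij
      revert this
      cases σ₂ i <;> cases σ₂ j <;> cases σ₂ c <;> cases σ₁ c <;> simp
    rcases hi with hi | hi <;> rcases hj with hj | hj
    · exact c1 hi hj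
    · rcases Finset.mem_insert.mp hi with rfl | hi'
      · exact c2 (Finset.mem_insert_self _ _) hj
      · rcases Finset.mem_insert.mp hj with rfl | hj'
        · exact c1 hi (Finset.mem_insert_self _ _)
        · exact absurd hij (hno i hi' j hj')
    · rcases Finset.mem_insert.mp hi with rfl | hi'
      · exact c1 (Finset.mem_insert_self _ _) hj
      · rcases Finset.mem_insert.mp hj with rfl | hj'
        · exact c2 hi (Finset.mem_insert_self _ _)
        · exact absurd hij.symm (hno j hj' i hi')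
    · exact c2 hi hj
  have cv : ∀ i ∈ insert c (X ∪ Y), i ∈ insert c X ∨ i ∈ insert c Y := by
    intro i hi
    rcases Finset.mem_insert.mp hi with rfl | hi
    · exact Or.inl (Finset.mem_insert_self _ _)
    · rcases Finset.mem_union.mp hi with hi | hi
      · exact Or.inl (Finset.mem_insert_of_mem hi)
      · exact Or.inr (Finset.mem_insert_of_mem hi)
  intro i hi j hj hij
  exact key i (cv i hi) j (cv j hj) hij

/-- `R` bipartite, `D v` bipartite for each `v` in `M`, `D v` meets the outside only in `v`: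
the union is bipartite -/
theorem bip_decorate {G : SimpleGraph V} {M : Finset V} {D : V → Finset V} {c : V}
    (hM : BipOn G (insert c M)) (hroot : ∀ v ∈ M, v ∈ D v) (hc : ∀ v ∈ M, c ∉ D v)
    (hD : ∀ v ∈ M, BipOn G (D v)) (hdisj : ∀ v ∈ M, ∀ w ∈ M, v ≠ w → Disjoint (D v) (D w))
    (hout : ∀ v ∈ M, ∀ i ∈ D v, ∀ j ∈ insert c (M.biUnion D), j ∉ D v → G.Adj i j →
      i = v ∧ (j ∈ M ∨ j = c)) : BipOn G (insert c (M.biUnion D)) := by
  classical
  obtain ⟨ρ, hρ⟩ := hM
  have hD' : ∀ v ∈ M, ∃ σ : V → Bool, ∀ i ∈ D v, ∀ j ∈ D v, G.Adj i j → σ i ≠ σ j := hD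
  choose! τ hτ using hD'
  let r : V → V := fun i => if h : ∃ v ∈ M, i ∈ D v then h.choose else i
  have hr : ∀ v ∈ M, ∀ i ∈ D v, r i = v := by
    intro v hv i hi
    have h : ∃ v ∈ M, i ∈ D v := ⟨v, hv, hi⟩
    have h1 : r i = h.choose := by simp only [r, dif_pos h]
    rw [h1]
    by_contra hne
    exact (Finset.disjoint_left.mp (hdisj _ h.choose_spec.1 v hv hne)) h.choose_spec.2 hi
  let σ : V → Bool := fun i =>
    if i = c then ρ c else xor (xor (τ (r i) i) (τ (r i) (r i))) (ρ (r i))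
  have hσc : σ c = ρ c := by simp only [σ, if_true]
  have hσ : ∀ v ∈ M, ∀ i ∈ D v, σ i = xor (xor (τ v i) (τ v v)) (ρ v) := by
    intro v hv i hi
    have hne : i ≠ c := by
      rintro rfl
      exact hc v hv hi
    simp only [σ, if_neg hne, hr v hv i hi]
  have hσv : ∀ v ∈ M, σ v = ρ v := by
    intro v hv
    rw [hσ v hv v (hroot v hv)]
    cases τ v v <;> cases ρ v <;> rfl
  have hcD : ∀ w ∈ M, ∀ j ∈ D w, G.Adj j c → σ j ≠ σ c := by
    intro w hw j hj hjc
    obtain ⟨rfl, -⟩ := hout w hw j hj c (Finset.mem_insert_self _ _) (hc w hw) hjc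
    rw [hσv j hw, hσc]
    exact hρ j (Finset.mem_insert_of_mem hw) c (Finset.mem_insert_self _ _) hjc
  refine ⟨σ, ?_⟩
  intro i hi j hj hij
  rcases Finset.mem_insert.mp hi with rfl | hi'
  · rcases Finset.mem_insert.mp hj with rfl | hj'
    · exact absurd hij (G.loopless.irrefl _)
    · obtain ⟨w, hw, hjw⟩ := Finset.mem_biUnion.mp hj'
      exact (hcD w hw j hjw hij.symm).symm
  · obtain ⟨v, hv, hiv⟩ := Finset.mem_biUnion.mp hi'
    rcases Finset.mem_insert.mp hj with rfl | hj'
    · exact hcD v hv i hiv hij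
    · obtain ⟨w, hw, hjw⟩ := Finset.mem_biUnion.mp hj'
      by_cases hvw : v = w
      · subst hvw
        rw [hσ v hv i hiv, hσ v hv j hjw]
        have := hτ v hv i hiv j hjw hij
        revert this
        cases τ v i <;> cases τ v j <;> cases τ v v <;> cases ρ v <;> simp
      · have hjv : j ∉ D v := fun h =>
          (Finset.disjoint_left.mp (hdisj v hv w hw hvw)) h hjw
        have hiw : i ∉ D w := fun h =>
          (Finset.disjoint_left.mp (hdisj v hv w hw hvw)) hiv h
        obtain ⟨rfl, -⟩ := hout v hv i hiv j hj hjv hij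
        obtain ⟨rfl, -⟩ := hout w hw j hjw i hi hiw hij.symm
        rw [hσv i hv, hσv j hw]
        exact hρ i (Finset.mem_insert_of_mem hv) j (Finset.mem_insert_of_mem hw) hij

end SQE
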