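import Pool.Agent.Helper4.SQE.Defs

/-!
# existence of a minimal pair
-/

set_option autoImplicit false
set_option linter.unusedSectionVars false

open Finset

namespace SQE

variable {V : Type*} [Fintype V] [DecidableEq V]

theorem exists_minpair {G : SimpleGraph V} {S : Finset V} (hc : CConn G S)
    (hnb : ¬ BipOn G S) : ∃ c C, MinPair G S c C := by
  classical
  obtain ⟨c0, hc0⟩ := hc.1
  have hex : ∃ n : ℕ, ∃ c C, c ∈ S ∧ Sep G S c C ∧ ¬ BipOn G (insert c C) ∧ C.card = n := by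
    refine ⟨_, c0, S.erase c0, hc0, ⟨erase_subset _ _, fun h => (mem_erase.1 h).1 rfl, ?_⟩, ?_, rfl⟩
    · intro x hx y hy hyC hyc
      exact absurd (mem_erase.2 ⟨hyc, hy⟩) hyC
    · rw [insert_erase hc0]
      exact hnb
  obtain ⟨c, C, h1, h2, h3, h4⟩ := Nat.find_spec hex
  refine ⟨c, C, h1, h2, h3, ?_⟩
  intro v hv D hD hlt
  by_contra hnot
  exact Nat.find_min hex (h4 ▸ hlt) ⟨v, D, hv, hD, hnot, rfl⟩

end SQE
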