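import Pool.Agent.Helper4.SQE.Defs

/-!
# the largest separated set
-/

set_option autoImplicit false
set_option linter.unusedSectionVars false

open Finset

namespace SQE

variable {V : Type*} [Fintype V] [DecidableEq V]

theorem mem_dmax {G : SimpleGraph V} {S : Finset V} {c v x : V} :
    x ∈ Dmax G S c v ↔ ∃ D, Sep G S v D ∧ c ∉ D ∧ x ∈ D := by
  classical
  simp only [Dmax, mem_biUnion, mem_filter, mem_powerset, id]
  constructor
  · rintro ⟨D, ⟨_, h1, h2⟩, h3⟩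
    exact ⟨D, h1, h2, h3⟩
  · rintro ⟨D, h1, h2, h3⟩
    exact ⟨D, ⟨h1.1, h1, h2⟩, h3⟩

theorem dmax_sep (G : SimpleGraph V) (S : Finset V) (c v : V) : Sep G S v (Dmax G S c v) := by
  refine ⟨?_, ?_, ?_⟩
  · intro x hx
    obtain ⟨D, h1, _, h3⟩ := mem_dmax.1 hx
    exact h1.1 h3
  · intro hv
    obtain ⟨D, h1, _, h3⟩ := mem_dmax.1 hv
    exact h1.2.1 h3
  · intro x hx y hy hyD hyv
    obtain ⟨D, h1, h2, h3⟩ := mem_dmax.1 hx
    exact h1.2.2 x h3 y hy (fun h => hyD (mem_dmax.2 ⟨D, h1, h2, h⟩)) hyv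

theorem dmax_not (G : SimpleGraph V) (S : Finset V) (c v : V) : c ∉ Dmax G S c v := by
  intro hc
  obtain ⟨D, _, h2, h3⟩ := mem_dmax.1 hc
  exact h2 h3

theorem dmax_max {G : SimpleGraph V} {S : Finset V} {c v : V} {D : Finset V}
    (hD : Sep G S v D) (hcD : c ∉ D) : D ⊆ Dmax G S c v :=
  fun _ hx => mem_dmax.2 ⟨D, hD, hcD, hx⟩

end SQE
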