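import Pool.Agent.Helper4.SQE.Defs
import Pool.Agent.Helper4.SQE.G11

/-!
# removing v and everything behind it keeps the graph connected
-/

set_option autoImplicit false
set_option linter.unusedSectionVars false

open Finset

namespace SQE

variable {V : Type*} [Fintype V] [DecidableEq V]

private theorem g12_aux {G : SimpleGraph V} {S : Finset V} {c v : V} (hv : v ∈ S)
    {Y : Finset V} (hYS : Y ⊆ S \ insert v (Dmax G S c v)) (hY : Y.Nonempty) (hcY : c ∉ Y)
    (hno : ∀ x ∈ Y, ∀ y ∈ (S \ insert v (Dmax G S c v)) \ Y, ¬ G.Adj x y) : False := by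
  have hsep := dmax_sep G S c v
  have hnot := dmax_not G S c v
  have hsep' : Sep G S v (Y ∪ Dmax G S c v) := by
    refine ⟨?_, ?_, ?_⟩
    · intro x hx
      rcases Finset.mem_union.mp hx with hx | hx
      · exact (Finset.mem_sdiff.mp (hYS hx)).1
      · exact hsep.1 hx
    · intro hx
      rcases Finset.mem_union.mp hx with hx | hx
      · exact (Finset.mem_sdiff.mp (hYS hx)).2 (Finset.mem_insert_self _ _)
      · exact hsep.2.1 hx
    · intro x hx y hy hyn hyv
      have hyY : y ∉ Y := fun h => hyn (Finset.mem_union_left _ h)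
      have hyD : y ∉ Dmax G S c v := fun h => hyn (Finset.mem_union_right _ h)
      rcases Finset.mem_union.mp hx with hx | hx
      · refine hno x hx y ?_
        refine Finset.mem_sdiff.mpr ⟨Finset.mem_sdiff.mpr ⟨hy, ?_⟩, hyY⟩
        intro h
        rcases Finset.mem_insert.mp h with h | h
        · exact hyv h
        · exact hyD h
      · exact hsep.2.2 x hx y hy hyD hyv
  have hc' : c ∉ Y ∪ Dmax G S c v := by
    intro h
    rcases Finset.mem_union.mp h with h | h
    · exact hcY h
    · exact hnot h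
  have hsub := dmax_max hsep' hc'
  obtain ⟨y, hy⟩ := hY
  have h1 : y ∈ Dmax G S c v := hsub (Finset.mem_union_left _ hy)
  exact (Finset.mem_sdiff.mp (hYS hy)).2 (Finset.mem_insert_of_mem h1)

theorem dmax_rest {G : SimpleGraph V} {S : Finset V} {c v : V} (h : CConn G S) (hc : c ∈ S)
    (hv : v ∈ S) (hcv : c ≠ v) : CConn G (S \ insert v (Dmax G S c v)) := by
  have hnot := dmax_not G S c v
  have hcmem : c ∈ S \ insert v (Dmax G S c v) := by
    refine Finset.mem_sdiff.mpr ⟨hc, ?_⟩
    intro h
    rcases Finset.mem_insert.mp h with h | h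
    · exact hcv h
    · exact hnot h
  refine ⟨⟨c, hcmem⟩, ?_⟩
  intro X hX hXne hXS
  by_contra hcon
  have hno : ∀ x ∈ X, ∀ y ∈ (S \ insert v (Dmax G S c v)) \ X, ¬ G.Adj x y := by
    intro x hx y hy hadj
    exact hcon ⟨x, hx, y, hy, hadj⟩
  by_cases hcX : c ∈ X
  · refine g12_aux (G := G) (S := S) (c := c) (v := v) hv
      (Y := (S \ insert v (Dmax G S c v)) \ X) Finset.sdiff_subset ?_ ?_ ?_
    · rw [Finset.sdiff_nonempty]
      intro hsub
      exact hXS (Finset.Subset.antisymm hX hsub)
    · intro h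
      exact (Finset.mem_sdiff.mp h).2 hcX
    · intro x hx y hy hadj
      have hyX : y ∈ X := by
        rcases Finset.mem_sdiff.mp hy with ⟨hy1, hy2⟩
        by_contra hyX
        exact hy2 (Finset.mem_sdiff.mpr ⟨hy1, hyX⟩)
      exact hno y hyX x hx hadj.symm
  · exact g12_aux hv hX hXne hcX hno

end SQE
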