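import Pool.Agent.Helper4.SQE.Defs
import Pool.Agent.Helper4.SQE.G11

/-!
# decorations inside C
-/

set_option autoImplicit false
set_option linter.unusedSectionVars false

open Finset

namespace SQE

variable {V : Type*} [Fintype V] [DecidableEq V]

theorem dmax_sub {G : SimpleGraph V} {S C : Finset V} {c v : V} (h : CConn G S)
    (hp : MinPair G S c C) (hv : v ∈ C) : Dmax G S c v ⊆ C := by
  classical
  have hv1 := dmax_sep G S c v
  have hv2 := dmax_not G S c v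
  by_contra hne
  obtain ⟨z, hz, hzC⟩ := not_subset.1 hne
  obtain ⟨x, hx, y, hy, hxy⟩ := h.2 (Dmax G S c v \ C)
    (fun x hx => hv1.1 (mem_sdiff.1 hx).1) ⟨z, mem_sdiff.2 ⟨hz, hzC⟩⟩
    (fun h => hv2 (mem_sdiff.1 (h ▸ hp.cS)).1)
  obtain ⟨hyS, hyX⟩ := mem_sdiff.1 hy
  obtain ⟨hx1, hx2⟩ := mem_sdiff.1 hx
  by_cases hyC : y ∈ C
  · exact hp.sep.2.2 y hyC x (hv1.1 hx1) hx2 (fun h => hv2 (h ▸ hx1)) hxy.symm
  · exact hv1.2.2 x hx1 y hyS (fun h => hyX (mem_sdiff.2 ⟨h, hyC⟩)) (fun h => hyC (h ▸ hv)) hxy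

theorem dmax_bip {G : SimpleGraph V} {S C : Finset V} {c v : V} (h : CConn G S)
    (hp : MinPair G S c C) (hv : v ∈ C) : BipOn G (insert v (Dmax G S c v)) := by
  classical
  have hv1 := dmax_sep G S c v
  refine hp.min v (hp.sep.1 hv) _ hv1 ?_
  refine card_lt_card ⟨dmax_sub h hp hv, fun h' => hv1.2.1 (h' hv)⟩

end SQE
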