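import Pool.Agent.Helper4.SQE.Defs
import Pool.Agent.Helper4.SQE.G11
import Pool.Agent.Helper4.SQE.G13

/-!
# nesting (L1)
-/

set_option autoImplicit false
set_option linter.unusedSectionVars false

open Finset

namespace SQE

variable {V : Type*} [Fintype V] [DecidableEq V]

/-- a set without edges to the rest of a connected set is empty or everything -/
theorem CConn.closed_set {G : SimpleGraph V} {S X : Finset V} (h : CConn G S) (hX : X ⊆ S)
    (hcl : ∀ x ∈ X, ∀ y ∈ S, y ∉ X → ¬ G.Adj x y) : X = ∅ ∨ X = S := by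
  by_contra hne
  push Not at hne
  obtain ⟨u, hu, w, hw, huw⟩ := h.2 X hX hne.1 hne.2
  exact hcl u hu w (mem_sdiff.1 hw).1 (mem_sdiff.1 hw).2 huw

theorem dmax_nest {G : SimpleGraph V} {S C : Finset V} {c v w : V} (h : CConn G S)
    (hp : MinPair G S c C) (hv : v ∈ C) (hw : w ∈ C) (hwv : w ∈ Dmax G S c v) :
    insert w (Dmax G S c w) ⊆ Dmax G S c v := by
  have hv1 := dmax_sep G S c v
  have hv2 := dmax_not G S c v
  have hw1 := dmax_sep G S c w
  have hw2 := dmax_not G S c w
  have hvw : v ∉ Dmax G S c w := by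
    intro hv'
    have := h.closed_set (X := Dmax G S c v ∪ Dmax G S c w) (union_subset hv1.1 hw1.1) (by
      intro x hx y hy hyX hxy
      rw [mem_union, not_or] at hyX
      rcases mem_union.1 hx with hx | hx
      · exact hv1.2.2 x hx y hy hyX.1 (fun h => hyX.2 (h ▸ hv')) hxy
      · exact hw1.2.2 x hx y hy hyX.2 (fun h => hyX.1 (h ▸ hwv)) hxy)
    rcases this with h | h
    · have : w ∈ Dmax G S c v ∪ Dmax G S c w := mem_union_left _ hwv
      rw [h] at this
      exact absurd this (by simp)
    · have : c ∈ Dmax G S c v ∪ Dmax G S c w := by rw [h]; exact hp.cS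
      rcases mem_union.1 this with h | h
      · exact hv2 h
      · exact hw2 h
  have key : Dmax G S c v ∪ Dmax G S c w ⊆ Dmax G S c v := by
    apply dmax_max
    · refine ⟨union_subset hv1.1 hw1.1, ?_, ?_⟩
      · rw [mem_union, not_or]
        exact ⟨hv1.2.1, hvw⟩
      · intro x hx y hy hyX hyv hxy
        rw [mem_union, not_or] at hyX
        rcases mem_union.1 hx with hx | hx
        · exact hv1.2.2 x hx y hy hyX.1 hyv hxy
        · exact hw1.2.2 x hx y hy hyX.2 (fun h => hyX.1 (h ▸ hwv)) hxy
    · rw [mem_union, not_or]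
      exact ⟨hv2, hw2⟩
  intro x hx
  rcases mem_insert.1 hx with h | h
  · exact h ▸ hwv
  · exact key (mem_union_right _ h)

end SQE
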