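import Pool.Agent.Helper4.SQE.Defs
import Pool.Agent.Helper4.SQE.G11
import Pool.Agent.Helper4.SQE.G13

/-!
# disjointness in the core (L2)
-/

set_option autoImplicit false
set_option linter.unusedSectionVars false

open Finset

namespace SQE

variable {V : Type*} [Fintype V] [DecidableEq V]

theorem core_disj {G : SimpleGraph V} {S C : Finset V} {c v w : V} (h : CConn G S)
    (hp : MinPair G S c C) (hv : v ∈ core G S c C) (hw : w ∈ core G S c C) (hvw : v ≠ w) :
    Disjoint (insert v (Dmax G S c v)) (insert w (Dmax G S c w)) := by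
  classical
  have hv1 := dmax_sep G S c v
  have hv2 := dmax_not G S c v
  have hw1 := dmax_sep G S c w
  have hvC := mem_filter.1 hv
  have hwC := mem_filter.1 hw
  have h1 : v ∉ Dmax G S c w := hvC.2 w hwC.1 hvw.symm
  have h2 : w ∉ Dmax G S c v := hwC.2 v hvC.1 hvw
  have h3 : Dmax G S c v ∩ Dmax G S c w = ∅ := by
    by_contra hne
    have hne' : (Dmax G S c v ∩ Dmax G S c w).Nonempty := nonempty_iff_ne_empty.2 hne
    obtain ⟨x, hx, y, hy, hxy⟩ := h.2 (Dmax G S c v ∩ Dmax G S c w)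
      (fun x hx => hv1.1 (mem_inter.1 hx).1) hne'
      (fun h => hv2 (mem_inter.1 (h ▸ hp.cS)).1)
    obtain ⟨hyS, hyX⟩ := mem_sdiff.1 hy
    obtain ⟨hx1, hx2⟩ := mem_inter.1 hx
    by_cases hy1 : y ∈ Dmax G S c v
    · have hy2 : y ∉ Dmax G S c w := fun h => hyX (mem_inter.2 ⟨hy1, h⟩)
      exact hw1.2.2 x hx2 y hyS hy2 (fun h => h2 (h ▸ hy1)) hxy
    · by_cases hyv : y = v
      · subst hyv
        exact hw1.2.2 x hx2 y hyS h1 hvw hxy
      · exact hv1.2.2 x hx1 y hyS hy1 hyv hxy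
  rw [disjoint_left]
  intro x hx hy
  rcases mem_insert.1 hx with hx | hx
  · rcases mem_insert.1 hy with hy | hy
    · exact hvw (hx ▸ hy)
    · exact h1 (hx ▸ hy)
  · rcases mem_insert.1 hy with hy | hy
    · exact h2 (hy ▸ hx)
    · have : x ∈ Dmax G S c v ∩ Dmax G S c w := mem_inter.2 ⟨hx, hy⟩
      rw [h3] at this
      exact absurd this (by simp)

end SQE
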