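import Pool.Agent.Helper4.SQE.Defs
import Pool.Agent.Helper4.SQE.G11
import Pool.Agent.Helper4.SQE.G13
import Pool.Agent.Helper4.SQE.G21

/-!
# the decorations of the core cover C (L3)
-/

set_option autoImplicit false
set_option linter.unusedSectionVars false

open Finset

namespace SQE

variable {V : Type*} [Fintype V] [DecidableEq V]

theorem core_cover {G : SimpleGraph V} {S C : Finset V} {c x : V} (h : CConn G S)
    (hp : MinPair G S c C) (hx : x ∈ C) : ∃ v ∈ core G S c C, x ∈ insert v (Dmax G S c v) := by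
  classical
  obtain ⟨w, hw, hmax⟩ := exists_max_image (C.filter (fun w => x ∈ insert w (Dmax G S c w)))
    (fun w => (Dmax G S c w).card) ⟨x, mem_filter.2 ⟨hx, mem_insert_self _ _⟩⟩
  obtain ⟨hwC, hxw⟩ := mem_filter.1 hw
  refine ⟨w, mem_filter.2 ⟨hwC, ?_⟩, hxw⟩
  intro u hu huw hwu
  have hsub := dmax_nest h hp hu hwC hwu
  have h1 := hmax u (mem_filter.2 ⟨hu, mem_insert_of_mem (hsub hxw)⟩)
  have h2 := card_le_card hsub
  rw [card_insert_of_notMem (dmax_sep G S c w).2.1] at h2
  omega

end SQE
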