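import Pool.Agent.Helper4.SQE.Defs
import Pool.Agent.Helper4.SQE.G11
import Pool.Agent.Helper4.SQE.G13
import Pool.Agent.Helper4.SQE.G22
import Pool.Agent.Helper4.SQE.G23

/-!
# edges leaving a decoration (L4)
-/

set_option autoImplicit false
set_option linter.unusedSectionVars false

open Finset

namespace SQE

variable {V : Type*} [Fintype V] [DecidableEq V]

theorem core_out {G : SimpleGraph V} {S C : Finset V} {c v : V} (h : CConn G S)
    (hp : MinPair G S c C) (hv : v ∈ core G S c C) :
    ∀ i ∈ insert v (Dmax G S c v), ∀ j ∈ S, j ∉ insert v (Dmax G S c v) → G.Adj i j →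
      i = v ∧ (j ∈ core G S c C ∨ j = c) := by
  classical
  intro i hi j hj hjD hij
  have hv1 := dmax_sep G S c v
  have hvC := mem_filter.1 hv
  rw [mem_insert, not_or] at hjD
  rcases mem_insert.1 hi with hi | hi
  · subst hi
    refine ⟨rfl, ?_⟩
    by_cases hjc : j = c
    · exact Or.inr hjc
    left
    have hjC : j ∈ C := by
      by_contra hjC
      exact hp.sep.2.2 i hvC.1 j hj hjC hjc hij
    obtain ⟨w, hw, hjw⟩ := core_cover h hp hjC
    have hw1 := dmax_sep G S c w
    have hwC := mem_filter.1 hw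
    rcases mem_insert.1 hjw with h1 | h1
    · exact h1 ▸ hw
    · exfalso
      have hwi : w ≠ i := fun h' => hjD.2 (h' ▸ h1)
      exact hw1.2.2 j h1 i (hp.sep.1 hvC.1) (hvC.2 w hwC.1 hwi) (Ne.symm hwi) hij.symm
  · exact absurd hij (hv1.2.2 i hi j hj hjD.2 hjD.1)

end SQE
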