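import Pool.Agent.Helper4.SQE.Defs
import Pool.Agent.Helper4.SQE.G03
import Pool.Agent.Helper4.SQE.G11
import Pool.Agent.Helper4.SQE.G13
import Pool.Agent.Helper4.SQE.G22
import Pool.Agent.Helper4.SQE.G23
import Pool.Agent.Helper4.SQE.G24

/-!
# the core is connected (L5)
-/

set_option autoImplicit false
set_option linter.unusedSectionVars false

open Finset

namespace SQE

variable {V : Type*} [Fintype V] [DecidableEq V]

/-- the decorations of a part `Z` of the core which has no edges to the rest of the core are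
separated by `c` -/
theorem core_part_sep {G : SimpleGraph V} {S C : Finset V} {c : V} (h : CConn G S)
    (hp : MinPair G S c C) {Z : Finset V} (hZ : Z ⊆ core G S c C)
    (hno : ∀ u ∈ Z, ∀ w ∈ core G S c C, w ∉ Z → ¬ G.Adj u w) :
    Sep G S c (Z.biUnion fun v => insert v (Dmax G S c v)) ∧
      (Z.biUnion fun v => insert v (Dmax G S c v)) ⊆ C := by
  classical
  have hsub : (Z.biUnion fun v => insert v (Dmax G S c v)) ⊆ C := by
    intro x hx
    obtain ⟨v, hv, hxv⟩ := mem_biUnion.1 hx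
    have hvC := (mem_filter.1 (hZ hv)).1
    rcases mem_insert.1 hxv with h1 | h1
    · exact h1 ▸ hvC
    · exact dmax_sub h hp hvC h1
  refine ⟨⟨hsub.trans hp.sep.1, fun hc => hp.sep.2.1 (hsub hc), ?_⟩, hsub⟩
  intro x hx y hy hyX hyc hxy
  obtain ⟨v, hv, hxv⟩ := mem_biUnion.1 hx
  have hyv : y ∉ insert v (Dmax G S c v) := fun h' => hyX (mem_biUnion.2 ⟨v, hv, h'⟩)
  obtain ⟨h1, h2⟩ := core_out h hp (hZ hv) x hxv y hy hyv hxy
  rcases h2 with h2 | h2
  · subst h1
    by_cases hyZ : y ∈ Z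
    · exact hyX (mem_biUnion.2 ⟨y, hyZ, mem_insert_self _ _⟩)
    · exact hno x hv y h2 hyZ hxy
  · exact hyc h2

theorem core_conn {G : SimpleGraph V} {S C : Finset V} {c : V} (h : CConn G S)
    (hp : MinPair G S c C) : ∀ X ⊆ core G S c C, X.Nonempty → X ≠ core G S c C →
      ∃ u ∈ X, ∃ w ∈ core G S c C \ X, G.Adj u w := by
  classical
  intro X hX hXne hXcore
  by_contra hno
  push Not at hno
  obtain ⟨s1, t1⟩ := core_part_sep h hp hX
    (fun u hu w hw hwX => hno u hu w (mem_sdiff.2 ⟨hw, hwX⟩))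
  have hX2 : core G S c C \ X ⊆ core G S c C := sdiff_subset
  obtain ⟨s2, t2⟩ := core_part_sep h hp hX2 (by
    intro u hu w hw hwX huw
    have hwX' : w ∈ X := by
      by_contra h'
      exact hwX (mem_sdiff.2 ⟨hw, h'⟩)
    exact hno w hwX' u hu huw.symm)
  have hX2ne : (core G S c C \ X).Nonempty := by
    rw [nonempty_iff_ne_empty]
    intro h'
    exact hXcore (Subset.antisymm hX (sdiff_eq_empty_iff_subset.1 h'))
  have hdisj : Disjoint (X.biUnion fun v => insert v (Dmax G S c v))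
      ((core G S c C \ X).biUnion fun v => insert v (Dmax G S c v)) := by
    rw [disjoint_left]
    intro x hx hy
    obtain ⟨v, hv, hxv⟩ := mem_biUnion.1 hx
    obtain ⟨w, hw, hxw⟩ := mem_biUnion.1 hy
    obtain ⟨hw1, hw2⟩ := mem_sdiff.1 hw
    have hvw : v ≠ w := fun h' => hw2 (h' ▸ hv)
    exact disjoint_left.1 (core_disj h hp (hX hv) hw1 hvw) hxv hxw
  have hcov : (X.biUnion fun v => insert v (Dmax G S c v)) ∪
      ((core G S c C \ X).biUnion fun v => insert v (Dmax G S c v)) = C := by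
    refine Subset.antisymm (union_subset t1 t2) ?_
    intro x hx
    obtain ⟨v, hv, hxv⟩ := core_cover h hp hx
    by_cases hvX : v ∈ X
    · exact mem_union_left _ (mem_biUnion.2 ⟨v, hvX, hxv⟩)
    · exact mem_union_right _ (mem_biUnion.2 ⟨v, mem_sdiff.2 ⟨hv, hvX⟩, hxv⟩)
  have hne1 : (X.biUnion fun v => insert v (Dmax G S c v)).Nonempty := by
    obtain ⟨v, hv⟩ := hXne
    exact ⟨v, mem_biUnion.2 ⟨v, hv, mem_insert_self _ _⟩⟩
  have hne2 : ((core G S c C \ X).biUnion fun v => insert v (Dmax G S c v)).Nonempty := by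
    obtain ⟨v, hv⟩ := hX2ne
    exact ⟨v, mem_biUnion.2 ⟨v, hv, mem_insert_self _ _⟩⟩
  have hcard := card_union_of_disjoint hdisj
  rw [hcov] at hcard
  have hp1 := card_pos.2 hne1
  have hp2 := card_pos.2 hne2
  have b1 := hp.min c hp.cS _ s1 (by omega)
  have b2 := hp.min c hp.cS _ s2 (by omega)
  have hb := bip_glue b1 b2 hdisj (by
    intro x hx y hy hxy
    have hyX : y ∉ (X.biUnion fun v => insert v (Dmax G S c v)) :=
      fun h' => disjoint_left.1 hdisj h' hy
    exact s1.2.2 x hx y (s2.1 hy) hyX (fun h' => s2.2.1 (h' ▸ hy)) hxy)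
  rw [hcov] at hb
  exact hp.nbip hb

end SQE
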