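import Pool.Agent.Helper4.SQE.Defs
import Pool.Agent.Helper4.SQE.G03
import Pool.Agent.Helper4.SQE.G11
import Pool.Agent.Helper4.SQE.G13
import Pool.Agent.Helper4.SQE.G22
import Pool.Agent.Helper4.SQE.G23
import Pool.Agent.Helper4.SQE.G24
import Pool.Agent.Helper4.SQE.G25

/-!
# every core vertex has two neighbours in core + c (L6)
-/

set_option autoImplicit false
set_option linter.unusedSectionVars false

open Finset

namespace SQE

variable {V : Type*} [Fintype V] [DecidableEq V]

private theorem g26_core_sub {G : SimpleGraph V} {S C : Finset V} {c v : V}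
    (hv : v ∈ core G S c C) : v ∈ C ∧ ∀ w ∈ C, w ≠ v → v ∉ Dmax G S c w := by
  unfold core at hv
  exact Finset.mem_filter.mp hv

theorem core_deg {G : SimpleGraph V} {S C : Finset V} {c : V} (h : CConn G S)
    (hp : MinPair G S c C) : ∀ v ∈ core G S c C, ∃ p q, p ≠ q ∧ G.Adj v p ∧ G.Adj v q ∧
      (p ∈ core G S c C ∨ p = c) ∧ (q ∈ core G S c C ∨ q = c) := by
  intro v hv
  by_contra hcon
  have hvC := (g26_core_sub hv).1
  have hvcore := (g26_core_sub hv).2
  have hvS : v ∈ S := hp.sep.1 hvC
  have hcC : c ∉ C := hp.sep.2.1
  have hcv : c ≠ v := fun h => hcC (h ▸ hvC)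
  have hDS : insert v (Dmax G S c v) ⊆ S := by
    intro x hx
    rcases Finset.mem_insert.mp hx with hx | hx
    · rw [hx]; exact hvS
    · exact (dmax_sep G S c v).1 hx
  have hcD : c ∉ insert v (Dmax G S c v) := by
    intro hx
    rcases Finset.mem_insert.mp hx with hx | hx
    · exact hcv hx
    · exact dmax_not G S c v hx
  have hDne : insert v (Dmax G S c v) ≠ S := by
    intro hh
    have h1 : c ∈ insert v (Dmax G S c v) := by
      rw [hh]; exact hp.cS
    exact hcD h1
  obtain ⟨u, hu, w, hw, hadj⟩ := h.2 _ hDS ⟨v, Finset.mem_insert_self _ _⟩ hDne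
  rw [Finset.mem_sdiff] at hw
  obtain ⟨huv, hwc⟩ := core_out h hp hv u hu w hw.1 hw.2 hadj
  rw [huv] at hadj
  have huniq : ∀ p, G.Adj v p → (p ∈ core G S c C ∨ p = c) → p = w := by
    intro p hp1 hp2
    by_contra hpw
    exact hcon ⟨p, w, hpw, hp1, hadj, hp2, hwc⟩
  rcases hwc with hwcore | hwc
  · -- w in the core
    have hwC := (g26_core_sub hwcore).1
    have hwv : w ≠ v := by
      intro hh
      exact hw.2 (hh ▸ Finset.mem_insert_self _ _)
    have hsep : Sep G S w (insert v (Dmax G S c v)) := by
      refine ⟨hDS, hw.2, ?_⟩
      intro x hx y hy hyn hyw hxy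
      obtain ⟨hxv, hyc⟩ := core_out h hp hv x hx y hy hyn hxy
      rw [hxv] at hxy
      exact hyw (huniq y hxy hyc)
    have hsub := dmax_max hsep hcD
    exact hvcore w hwC hwv (hsub (Finset.mem_insert_self _ _))
  · by_cases hsing : core G S c C = {v}
    · -- C = D v
      have hCD : C = ({v} : Finset V).biUnion (fun _ => insert v (Dmax G S c v)) := by
        rw [Finset.singleton_biUnion]
        refine Finset.Subset.antisymm ?_ ?_
        · intro x hx
          obtain ⟨v', hv', hx'⟩ := core_cover h hp hx
          rw [hsing, Finset.mem_singleton] at hv'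
          rw [hv'] at hx'
          exact hx'
        · intro x hx
          rcases Finset.mem_insert.mp hx with hx | hx
          · rw [hx]; exact hvC
          · exact dmax_sub h hp hvC hx
      have hbip : BipOn G (insert c (({v} : Finset V).biUnion
          (fun _ => insert v (Dmax G S c v)))) := by
        refine bip_decorate ?_ ?_ ?_ ?_ ?_ ?_
        · refine ⟨fun x => decide (x = c), ?_⟩
          intro i hi j hj hij
          simp only [Finset.mem_insert, Finset.mem_singleton] at hi hj
          rcases hi with rfl | rfl
          · rcases hj with rfl | rfl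
            · exact absurd hij (G.irrefl)
            · simp [Ne.symm hcv]
          · rcases hj with rfl | rfl
            · simp [Ne.symm hcv]
            · exact absurd hij (G.irrefl)
        · intro x hx
          rw [Finset.mem_singleton] at hx
          rw [hx]
          exact Finset.mem_insert_self _ _
        · intro x _
          exact hcD
        · intro x _
          exact dmax_bip h hp hvC
        · intro x hx y hy hxy
          rw [Finset.mem_singleton] at hx hy
          exact absurd (hx.trans hy.symm) hxy
        · intro x hx i hi j hj hjn hij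
          rw [Finset.singleton_biUnion] at hj
          rcases Finset.mem_insert.mp hj with hj | hj
          · rw [hj] at hij hjn
            obtain ⟨h1, _⟩ := core_out h hp hv i hi c hp.cS hjn hij
            rw [Finset.mem_singleton] at hx
            exact ⟨h1.trans hx.symm, Or.inr hj⟩
          · exact absurd hj hjn
      rw [← hCD] at hbip
      exact hp.nbip hbip
    · have hvsub : ({v} : Finset V) ⊆ core G S c C := Finset.singleton_subset_iff.mpr hv
      obtain ⟨a, ha, b, hb, hab⟩ := core_conn h hp {v} hvsub (Finset.singleton_nonempty _)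
        (fun hh => hsing hh.symm)
      rw [Finset.mem_singleton] at ha
      rw [ha] at hab
      rw [Finset.mem_sdiff] at hb
      have hbw := huniq b hab (Or.inl hb.1)
      rw [hbw, hwc] at hb
      exact hcC (g26_core_sub hb.1).1

end SQE
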