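import Pool.Agent.Helper4.SQE.Defs
import Pool.Agent.Helper4.SQE.G11
import Pool.Agent.Helper4.SQE.G13
import Pool.Agent.Helper4.SQE.G22
import Pool.Agent.Helper4.SQE.G23
import Pool.Agent.Helper4.SQE.G24

/-!
# c has a neighbour in core - v (L7)
-/

set_option autoImplicit false
set_option linter.unusedSectionVars false

open Finset

namespace SQE

variable {V : Type*} [Fintype V] [DecidableEq V]

theorem core_cadj {G : SimpleGraph V} {S C : Finset V} {c : V} (h : CConn G S)
    (hp : MinPair G S c C) : ∀ v ∈ core G S c C, (∃ w ∈ core G S c C, w ≠ v) →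
      ∃ w ∈ core G S c C, w ≠ v ∧ G.Adj w c := by
  classical
  intro v hv hex
  by_contra hno
  push Not at hno
  obtain ⟨w0, hw0, hw0v⟩ := hex
  have hYC : (((core G S c C).erase v).biUnion fun v => insert v (Dmax G S c v)) ⊆ C := by
    intro x hx
    obtain ⟨w, hw, hxw⟩ := mem_biUnion.1 hx
    have hwC := (mem_filter.1 (mem_erase.1 hw).2).1
    rcases mem_insert.1 hxw with h1 | h1
    · exact h1 ▸ hwC
    · exact dmax_sub h hp hwC h1
  have hsep : Sep G S v (((core G S c C).erase v).biUnion fun v => insert v (Dmax G S c v)) := by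
    refine ⟨hYC.trans hp.sep.1, ?_, ?_⟩
    · intro hvY
      obtain ⟨w, hw, hvw⟩ := mem_biUnion.1 hvY
      obtain ⟨h1, h2⟩ := mem_erase.1 hw
      exact disjoint_left.1 (core_disj h hp hv h2 (Ne.symm h1)) (mem_insert_self _ _) hvw
    · intro x hx y hy hyY hyv hxy
      obtain ⟨w, hw, hxw⟩ := mem_biUnion.1 hx
      obtain ⟨h1, h2⟩ := mem_erase.1 hw
      have hyw : y ∉ insert w (Dmax G S c w) := fun h' => hyY (mem_biUnion.2 ⟨w, hw, h'⟩)
      obtain ⟨h3, h4⟩ := core_out h hp h2 x hxw y hy hyw hxy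
      subst h3
      rcases h4 with h4 | h4
      · exact hyY (mem_biUnion.2 ⟨y, mem_erase.2 ⟨hyv, h4⟩, mem_insert_self _ _⟩)
      · subst h4
        exact hno x h2 h1 hxy
  have hsub := dmax_max hsep (fun hc => hp.sep.2.1 (hYC hc))
  have hw0Y : w0 ∈ (((core G S c C).erase v).biUnion fun v => insert v (Dmax G S c v)) :=
    mem_biUnion.2 ⟨w0, mem_erase.2 ⟨hw0v, hw0⟩, mem_insert_self _ _⟩
  exact (mem_filter.1 hw0).2 v (mem_filter.1 hv).1 (Ne.symm hw0v) (hsub hw0Y)

end SQE
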