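import Pool.Agent.Helper4.SQE.Defs
import Pool.Agent.Helper4.SQE.G03
import Pool.Agent.Helper4.SQE.G11
import Pool.Agent.Helper4.SQE.G13
import Pool.Agent.Helper4.SQE.G22
import Pool.Agent.Helper4.SQE.G23
import Pool.Agent.Helper4.SQE.G24

/-!
# core + c is not bipartite
-/

set_option autoImplicit false
set_option linter.unusedSectionVars false

open Finset

namespace SQE

variable {V : Type*} [Fintype V] [DecidableEq V]

theorem core_nbip {G : SimpleGraph V} {S C : Finset V} {c : V} (h : CConn G S)
    (hp : MinPair G S c C) : ¬ BipOn G (insert c (core G S c C)) := by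
  classical
  intro hb
  have hcov : ((core G S c C).biUnion fun v => insert v (Dmax G S c v)) = C := by
    refine Subset.antisymm ?_ ?_
    · intro x hx
      obtain ⟨v, hv, hxv⟩ := mem_biUnion.1 hx
      have hvC := (mem_filter.1 hv).1
      rcases mem_insert.1 hxv with h1 | h1
      · exact h1 ▸ hvC
      · exact dmax_sub h hp hvC h1
    · intro x hx
      obtain ⟨v, hv, hxv⟩ := core_cover h hp hx
      exact mem_biUnion.2 ⟨v, hv, hxv⟩
  have := bip_decorate (G := G) (M := core G S c C) (D := fun v => insert v (Dmax G S c v))
    (c := c) hb (fun v _ => mem_insert_self _ _) (by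
      intro v hv hc
      rcases mem_insert.1 hc with h1 | h1
      · exact hp.sep.2.1 (h1 ▸ (mem_filter.1 hv).1)
      · exact dmax_not G S c v h1)
    (fun v hv => dmax_bip h hp (mem_filter.1 hv).1)
    (fun v hv w hw hvw => core_disj h hp hv hw hvw) (by
      intro v hv i hi j hj hjv hij
      have hjS : j ∈ S := by
        rcases mem_insert.1 hj with h1 | h1
        · exact h1 ▸ hp.cS
        · rw [hcov] at h1
          exact hp.sep.1 h1
      exact core_out h hp hv i hi j hjS hjv hij)
  rw [hcov] at this
  exact hp.nbip this

end SQE
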