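import Pool.Agent.Helper4.SQE.Defs
import Pool.Agent.Helper4.SQE.G02
import Pool.Agent.Helper4.SQE.G03
import Pool.Agent.Helper4.SQE.G10
import Pool.Agent.Helper4.SQE.G11
import Pool.Agent.Helper4.SQE.G12
import Pool.Agent.Helper4.SQE.G13
import Pool.Agent.Helper4.SQE.G21
import Pool.Agent.Helper4.SQE.G22
import Pool.Agent.Helper4.SQE.G23
import Pool.Agent.Helper4.SQE.G24
import Pool.Agent.Helper4.SQE.G25
import Pool.Agent.Helper4.SQE.G26
import Pool.Agent.Helper4.SQE.G27
import Pool.Agent.Helper4.SQE.G28

/-!
# the structure theorem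
-/

set_option autoImplicit false
set_option linter.unusedSectionVars false

open Finset

namespace SQE

variable {V : Type*} [Fintype V] [DecidableEq V]

theorem exists_dec {G : SimpleGraph V} {S : Finset V} (hc : CConn G S) (hnb : ¬ BipOn G S) :
    ∃ c M D, Dec G S c M D := by
  obtain ⟨c, C, hp⟩ := exists_minpair hc hnb
  have hCS : C ⊆ S := hp.sep.1
  have hcC : c ∉ C := hp.sep.2.1
  have hcore : ∀ v ∈ core G S c C, v ∈ C := by
    intro v hv
    unfold core at hv
    exact (Finset.mem_filter.mp hv).1
  have hne : ∀ v ∈ C, c ≠ v := by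
    rintro v hv rfl
    exact hcC hv
  refine ⟨c, core G S c C, fun v => insert v (Dmax G S c v), ?_⟩
  refine ⟨hp.cS, ?_, ?_, ?_, ?_, ?_, ?_, ?_, ?_, ?_⟩
  · intro v hv
    have hvC := hcore v hv
    refine ⟨Finset.mem_insert_self _ _, ?_, ?_, dmax_bip hc hp hvC, ?_, ?_⟩
    · intro x hx
      rcases Finset.mem_insert.mp hx with rfl | hx
      · exact hCS hvC
      · exact (dmax_sep G S c v).1 hx
    · exact conn_insert hc (hCS hvC) (dmax_sep G S c v)
    · exact dmax_rest hc hp.cS (hCS hvC) (hne v hvC)
    · intro i hi j hj hji hadj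
      exact (core_out hc hp hv i hi j hj hji hadj).1
  · intro v hv hmem
    rcases Finset.mem_insert.mp hmem with h1 | h1
    · exact hne v (hcore v hv) h1
    · exact dmax_not G S c v h1
  · intro v hv w hw hvw
    exact core_disj hc hp hv hw hvw
  · intro v hv
    exact core_out hc hp hv
  · have hCne : C.Nonempty := by
      rw [Finset.nonempty_iff_ne_empty]
      rintro rfl
      apply hp.nbip
      refine ⟨fun _ => true, ?_⟩
      intro i hi j hj hadj
      simp at hi hj
      subst hi
      subst hj
      exact absurd hadj (G.irrefl)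
    obtain ⟨x, hx⟩ := hCne
    obtain ⟨v, hv, -⟩ := core_cover hc hp hx
    exact ⟨v, hv⟩
  · exact core_conn hc hp
  · exact core_deg hc hp
  · exact core_cadj hc hp
  · exact core_nbip hc hp

end SQE
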