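import Pool.Agent.Helper4.SQE.Defs

/-!
# four vertices: star or path
-/

set_option autoImplicit false
set_option linter.unusedSectionVars false

open Finset

namespace SQE

variable {V : Type*} [Fintype V] [DecidableEq V]

private theorem g31_path {G : SimpleGraph V} {M : Finset V}
    (hstar : ¬ ∃ z ∈ M, ∃ a ∈ M, ∃ b ∈ M, ∃ d ∈ M, a ≠ b ∧ a ≠ d ∧ b ≠ d ∧
      G.Adj z a ∧ G.Adj z b ∧ G.Adj z d)
    {u v w z : V} (hu : u ∈ M) (hv : v ∈ M) (hw : w ∈ M) (hz : z ∈ M)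
    (huw : u ≠ w) (hzu : z ≠ u) (hzv : z ≠ v) (hzw : z ≠ w)
    (h1 : G.Adj v u) (h2 : G.Adj v w) (h3 : G.Adj w z) :
    ∃ u ∈ M, ∃ v ∈ M, ∃ w ∈ M, ∃ z ∈ M, u ≠ w ∧ u ≠ z ∧ v ≠ z ∧
      G.Adj u v ∧ G.Adj v w ∧ G.Adj w z ∧ ¬ G.Adj u w ∧ ¬ G.Adj v z := by
  refine ⟨u, hu, v, hv, w, hw, z, hz, huw, hzu.symm, hzv.symm, h1.symm, h2, h3, ?_, ?_⟩
  · intro hadj
    exact hstar ⟨w, hw, v, hv, u, hu, z, hz, h1.ne, hzv.symm, hzu.symm, h2.symm, hadj.symm, h3⟩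
  · intro hadj
    exact hstar ⟨v, hv, u, hu, w, hw, z, hz, huw, hzu.symm, hzw.symm, h1, h2, hadj⟩

private theorem g31_centre {G : SimpleGraph V} {M : Finset V}
    (hM : ∀ X ⊆ M, X.Nonempty → X ≠ M → ∃ u ∈ X, ∃ w ∈ M \ X, G.Adj u w)
    (h4 : 4 ≤ M.card)
    (hstar : ¬ ∃ z ∈ M, ∃ a ∈ M, ∃ b ∈ M, ∃ d ∈ M, a ≠ b ∧ a ≠ d ∧ b ≠ d ∧
      G.Adj z a ∧ G.Adj z b ∧ G.Adj z d)
    {u v w : V} (hu : u ∈ M) (hv : v ∈ M) (hw : w ∈ M) (huw : u ≠ w)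
    (h1 : G.Adj v u) (h2 : G.Adj v w) :
    ∃ u ∈ M, ∃ v ∈ M, ∃ w ∈ M, ∃ z ∈ M, u ≠ w ∧ u ≠ z ∧ v ≠ z ∧
      G.Adj u v ∧ G.Adj v w ∧ G.Adj w z ∧ ¬ G.Adj u w ∧ ¬ G.Adj v z := by
  have hsub : ({u, v, w} : Finset V) ⊆ M := by
    intro x hx
    simp only [Finset.mem_insert, Finset.mem_singleton] at hx
    rcases hx with rfl | rfl | rfl <;> assumption
  have hcard : ({u, v, w} : Finset V).card ≤ 3 := Finset.card_le_three
  have hne : ({u, v, w} : Finset V) ≠ M := by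
    intro h
    rw [h] at hcard
    omega
  obtain ⟨x, hx, z, hz, hadj⟩ := hM _ hsub ⟨u, by simp⟩ hne
  rw [Finset.mem_sdiff] at hz
  obtain ⟨hzM, hzn⟩ := hz
  simp only [Finset.mem_insert, Finset.mem_singleton, not_or] at hzn
  obtain ⟨hzu, hzv, hzw⟩ := hzn
  simp only [Finset.mem_insert, Finset.mem_singleton] at hx
  rcases hx with rfl | rfl | rfl
  · exact g31_path hstar hw hv hu hzM huw.symm hzw hzv hzu h2 h1 hadj
  · exact absurd ⟨x, hv, u, hu, w, hw, z, hzM, huw, Ne.symm hzu, Ne.symm hzw, h1, h2, hadj⟩ hstar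
  · exact g31_path hstar hu hv hw hzM huw hzu hzv hzw h1 h2 hadj

theorem four_vertices {G : SimpleGraph V} {M : Finset V}
    (hM : ∀ X ⊆ M, X.Nonempty → X ≠ M → ∃ u ∈ X, ∃ w ∈ M \ X, G.Adj u w)
    (h4 : 4 ≤ M.card) :
    (∃ z ∈ M, ∃ a ∈ M, ∃ b ∈ M, ∃ d ∈ M, a ≠ b ∧ a ≠ d ∧ b ≠ d ∧
      G.Adj z a ∧ G.Adj z b ∧ G.Adj z d) ∨
    (∃ u ∈ M, ∃ v ∈ M, ∃ w ∈ M, ∃ z ∈ M, u ≠ w ∧ u ≠ z ∧ v ≠ z ∧
      G.Adj u v ∧ G.Adj v w ∧ G.Adj w z ∧ ¬ G.Adj u w ∧ ¬ G.Adj v z) := by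
  by_cases hstar : ∃ z ∈ M, ∃ a ∈ M, ∃ b ∈ M, ∃ d ∈ M, a ≠ b ∧ a ≠ d ∧ b ≠ d ∧
      G.Adj z a ∧ G.Adj z b ∧ G.Adj z d
  · exact Or.inl hstar
  refine Or.inr ?_
  have hne : M.Nonempty := by
    rw [← Finset.card_pos]
    omega
  obtain ⟨v0, hv0⟩ := hne
  have h1 : ({v0} : Finset V) ≠ M := by
    intro h
    have : ({v0} : Finset V).card = M.card := by rw [h]
    rw [Finset.card_singleton] at this
    omega
  obtain ⟨x, hx, v1, hv1, hadj1⟩ := hM {v0} (Finset.singleton_subset_iff.mpr hv0)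
    (Finset.singleton_nonempty _) h1
  rw [Finset.mem_singleton] at hx
  rw [hx] at hadj1
  rw [Finset.mem_sdiff, Finset.mem_singleton] at hv1
  obtain ⟨hv1M, hv1n⟩ := hv1
  have h2sub : ({v0, v1} : Finset V) ⊆ M := by
    intro y hy
    simp only [Finset.mem_insert, Finset.mem_singleton] at hy
    rcases hy with rfl | rfl <;> assumption
  have h2 : ({v0, v1} : Finset V) ≠ M := by
    intro h
    have hc : ({v0, v1} : Finset V).card ≤ 2 := Finset.card_le_two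
    rw [h] at hc
    omega
  obtain ⟨y, hy, v2, hv2, hadj2⟩ := hM _ h2sub ⟨v0, by simp⟩ h2
  rw [Finset.mem_sdiff] at hv2
  obtain ⟨hv2M, hv2n⟩ := hv2
  simp only [Finset.mem_insert, Finset.mem_singleton, not_or] at hv2n
  simp only [Finset.mem_insert, Finset.mem_singleton] at hy
  rcases hy with rfl | rfl
  · exact g31_centre hM h4 hstar hv1M hv0 hv2M (Ne.symm hv2n.2) hadj1 hadj2
  · exact g31_centre hM h4 hstar hv0 hv1M hv2M (Ne.symm hv2n.1) hadj1.symm hadj2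

end SQE
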