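import Pool.Agent.Helper4.SQE.Defs

/-!
# at most three core vertices
-/

set_option autoImplicit false
set_option linter.unusedSectionVars false

open Finset

namespace SQE

variable {V : Type*} [Fintype V] [DecidableEq V]

private theorem three_aux {G : SimpleGraph V} {S : Finset V} {c : V} {M : Finset V}
    {D : V → Finset V} (h : Dec G S c M D) {x y z : V} (hM : M = {x, y, z}) (hxy : x ≠ y)
    (hxz : x ≠ z) (hyz : y ≠ z) (hn : ¬ G.Adj x z) :
    G.Adj x c ∧ G.Adj z c ∧ G.Adj x y ∧ G.Adj z y ∧ G.Adj c y := by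
  have hx : x ∈ M := by rw [hM]; simp
  have hy : y ∈ M := by rw [hM]; simp
  have hz : z ∈ M := by rw [hM]; simp
  have hcM : c ∉ M := fun hc => h.c_not c hc (h.leafy c hc).root
  have hmem : ∀ w, w ∈ M → w = x ∨ w = y ∨ w = z := by
    intro w hw
    rw [hM] at hw
    simpa using hw
  have nb : ∀ u v, u ∈ M → v ∈ M → ¬ G.Adj u v → (∀ w ∈ M, w = u ∨ w = y ∨ w = v) →
      G.Adj u y ∧ G.Adj u c := by
    intro u v hu hv huv hw
    obtain ⟨p, q, hpq, hp, hq, hpM, hqM⟩ := h.deg u hu
    have cases' : ∀ w, G.Adj u w → (w ∈ M ∨ w = c) → w = y ∨ w = c := by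
      intro w hadj hwM
      rcases hwM with hwM | hwM
      · rcases hw w hwM with rfl | rfl | rfl
        · exact absurd hadj (G.loopless.irrefl _)
        · exact Or.inl rfl
        · exact absurd hadj huv
      · exact Or.inr hwM
    rcases cases' p hp hpM with rfl | rfl <;> rcases cases' q hq hqM with rfl | rfl
    · exact absurd rfl hpq
    · exact ⟨hp, hq⟩
    · exact ⟨hq, hp⟩
    · exact absurd rfl hpq
  have h1 := nb x z hx hz hn hmem
  have h2 := nb z x hz hx (fun h => hn h.symm) (by
    intro w hw
    rcases hmem w hw with h | h | h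
    · exact Or.inr (Or.inr h)
    · exact Or.inr (Or.inl h)
    · exact Or.inl h)
  refine ⟨h1.2, h2.2, h1.1, h2.1, ?_⟩
  by_contra hcy
  apply h.nbip
  have hcx : c ≠ x := fun e => hcM (e ▸ hx)
  have hcz : c ≠ z := fun e => hcM (e ▸ hz)
  obtain ⟨σ, sx, sz, sy, sc⟩ : ∃ σ : V → Bool, σ x = true ∧ σ z = true ∧ σ y = false ∧
      σ c = false :=
    ⟨fun i => decide (i = x ∨ i = z), by simp, by simp, by simp [hxy.symm, hyz],
      by simp [hcx, hcz]⟩
  have hmem' : ∀ w, w ∈ insert c M → w = c ∨ w = x ∨ w = y ∨ w = z := by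
    intro w hw
    rcases Finset.mem_insert.mp hw with h | h
    · exact Or.inl h
    · exact Or.inr (hmem w h)
  refine ⟨σ, ?_⟩
  intro i hi j hj hij
  rcases hmem' i hi with rfl | rfl | rfl | rfl <;>
    rcases hmem' j hj with rfl | rfl | rfl | rfl
  · exact absurd hij (G.loopless.irrefl _)
  · rw [sx, sc]; decide
  · exact absurd hij hcy
  · rw [sz, sc]; decide
  · rw [sx, sc]; decide
  · exact absurd hij (G.loopless.irrefl _)
  · rw [sx, sy]; decide
  · exact absurd hij hn
  · exact absurd hij.symm hcy
  · rw [sx, sy]; decide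
  · exact absurd hij (G.loopless.irrefl _)
  · rw [sz, sy]; decide
  · rw [sz, sc]; decide
  · exact absurd hij.symm hn
  · rw [sz, sy]; decide
  · exact absurd hij (G.loopless.irrefl _)

theorem three_vertices {G : SimpleGraph V} {S : Finset V} {c : V} {M : Finset V}
    {D : V → Finset V} (h : Dec G S c M D) (h3 : M.card ≤ 3) :
    (∃ a b, a ≠ b ∧ M = {a, b} ∧ G.Adj a b ∧ G.Adj a c ∧ G.Adj b c) ∨
    (∃ a b d, a ≠ b ∧ a ≠ d ∧ b ≠ d ∧ M = {a, b, d} ∧ G.Adj a c ∧ G.Adj b c ∧
      G.Adj a d ∧ G.Adj b d ∧ (G.Adj a b ∨ G.Adj c d)) := by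
  have hpos : 0 < M.card := Finset.card_pos.mpr h.Mne
  have hcard : M.card = 1 ∨ M.card = 2 ∨ M.card = 3 := by omega
  rcases hcard with h1 | h2 | h3
  · obtain ⟨v, rfl⟩ := Finset.card_eq_one.mp h1
    obtain ⟨p, q, hpq, hp, hq, hpM, hqM⟩ := h.deg v (Finset.mem_singleton_self v)
    exfalso
    have cs : ∀ w, G.Adj v w → (w ∈ ({v} : Finset V) ∨ w = c) → w = c := by
      intro w hadj hw
      rcases hw with hw | hw
      · rw [Finset.mem_singleton] at hw
        subst hw
        exact absurd hadj (G.loopless.irrefl _)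
      · exact hw
    exact hpq ((cs p hp hpM).trans (cs q hq hqM).symm)
  · obtain ⟨a, b, hab, hM⟩ := Finset.card_eq_two.mp h2
    left
    have ha : a ∈ M := by rw [hM]; simp
    have hb : b ∈ M := by rw [hM]; simp
    have nb : ∀ u v, u ∈ M → (∀ w ∈ M, w = u ∨ w = v) → G.Adj u v ∧ G.Adj u c := by
      intro u v hu hw
      obtain ⟨p, q, hpq, hp, hq, hpM, hqM⟩ := h.deg u hu
      have cases' : ∀ w, G.Adj u w → (w ∈ M ∨ w = c) → w = v ∨ w = c := by
        intro w hadj hwM
        rcases hwM with hwM | hwM
        · rcases hw w hwM with rfl | rfl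
          · exact absurd hadj (G.loopless.irrefl _)
          · exact Or.inl rfl
        · exact Or.inr hwM
      rcases cases' p hp hpM with rfl | rfl <;> rcases cases' q hq hqM with rfl | rfl
      · exact absurd rfl hpq
      · exact ⟨hp, hq⟩
      · exact ⟨hq, hp⟩
      · exact absurd rfl hpq
    have h1 := nb a b ha (by intro w hw; rw [hM] at hw; simpa using hw)
    have h2 := nb b a hb (by intro w hw; rw [hM] at hw; simpa [or_comm] using hw)
    exact ⟨a, b, hab, hM, h1.1, h1.2, h2.2⟩
  · right
    obtain ⟨x, y, z, hxy, hxz, hyz, hM⟩ := Finset.card_eq_three.mp h3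
    by_cases c1 : G.Adj x z
    · by_cases c2 : G.Adj x y
      · by_cases c3 : G.Adj y z
        · have tri : ∀ u ∈ M, ∀ v ∈ M, u ≠ v → G.Adj u v := by
            intro u hu v hv huv
            rw [hM] at hu hv
            simp only [Finset.mem_insert, Finset.mem_singleton] at hu hv
            rcases hu with rfl | rfl | rfl <;> rcases hv with rfl | rfl | rfl
            · exact absurd rfl huv
            · exact c2
            · exact c1
            · exact c2.symm
            · exact absurd rfl huv
            · exact c3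
            · exact c1.symm
            · exact c3.symm
            · exact absurd rfl huv
          have hx : x ∈ M := by rw [hM]; simp
          have hy : y ∈ M := by rw [hM]; simp
          obtain ⟨a, ha, hax, hac⟩ := h.cadj x hx ⟨y, hy, hxy.symm⟩
          obtain ⟨b, hb, hba, hbc⟩ := h.cadj a ha ⟨x, hx, hax.symm⟩
          have k1 : (M.erase a).card = 2 := by
            rw [Finset.card_erase_of_mem ha, h3]
          have hb' : b ∈ M.erase a := Finset.mem_erase.mpr ⟨hba, hb⟩
          have k2 : ((M.erase a).erase b).card = 1 := by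
            rw [Finset.card_erase_of_mem hb', k1]
          obtain ⟨d, hd⟩ := Finset.card_eq_one.mp k2
          have hdm : d ∈ (M.erase a).erase b := by rw [hd]; exact Finset.mem_singleton_self d
          have hdb : d ≠ b := (Finset.mem_erase.mp hdm).1
          have hda : d ≠ a := (Finset.mem_erase.mp (Finset.mem_erase.mp hdm).2).1
          have hdM : d ∈ M := (Finset.mem_erase.mp (Finset.mem_erase.mp hdm).2).2
          refine ⟨a, b, d, hba.symm, hda.symm, hdb.symm, ?_, hac, hbc,
            tri a ha d hdM hda.symm, tri b hb d hdM hdb.symm, Or.inl (tri a ha b hb hba.symm)⟩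
          rw [← Finset.insert_erase ha, ← Finset.insert_erase hb', hd]
        · have hM' : M = {y, x, z} := by
            rw [hM]
            ext w
            simp only [Finset.mem_insert, Finset.mem_singleton]
            tauto
          obtain ⟨k1, k2, k3, k4, k5⟩ := three_aux h hM' hxy.symm hyz hxz c3
          refine ⟨y, z, x, hyz, hxy.symm, hxz.symm, ?_, k1, k2, k3, k4, Or.inr k5⟩
          rw [hM]
          ext w
          simp only [Finset.mem_insert, Finset.mem_singleton]
          tauto
      · have hM' : M = {x, z, y} := by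
          rw [hM]
          ext w
          simp only [Finset.mem_insert, Finset.mem_singleton]
          tauto
        obtain ⟨k1, k2, k3, k4, k5⟩ := three_aux h hM' hxz hxy hyz.symm c2
        refine ⟨x, y, z, hxy, hxz, hyz, hM, k1, k2, k3, k4, Or.inr k5⟩
    · obtain ⟨k1, k2, k3, k4, k5⟩ := three_aux h hM hxy hxz hyz c1
      refine ⟨x, z, y, hxz, hxy, hyz.symm, ?_, k1, k2, k3, k4, Or.inr k5⟩
      rw [hM]
      ext w
      simp only [Finset.mem_insert, Finset.mem_singleton]
      tauto

end SQE
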