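import Pool.Agent.Helper4.SQE.Defs

/-!
# a connected graph has at least |S| - 1 edges
-/

set_option autoImplicit false
set_option linter.unusedSectionVars false

open Finset

namespace SQE

variable {V : Type*} [Fintype V] [DecidableEq V]

private lemma G01_step {G : SimpleGraph V} {X : Finset V} {u w : V} (hu : u ∈ X) (hw : w ∉ X)
    (hadj : G.Adj u w) : dE G X + 2 ≤ dE G (insert w X) := by
  classical
  have huw : u ≠ w := fun h => hw (h ▸ hu)
  have hpair : (({(u, w), (w, u)} : Finset (V × V))).card = 2 := by
    rw [Finset.card_pair]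
    intro h
    exact huw (Prod.mk.inj h).1
  have hdisj : Disjoint ((X ×ˢ X).filter (fun p => G.Adj p.1 p.2))
      ({(u, w), (w, u)} : Finset (V × V)) := by
    rw [Finset.disjoint_right]
    intro p hp hmem
    rw [Finset.mem_filter, Finset.mem_product] at hmem
    rw [Finset.mem_insert, Finset.mem_singleton] at hp
    rcases hp with rfl | rfl
    · exact hw hmem.1.2
    · exact hw hmem.1.1
  have hsub : ((X ×ˢ X).filter (fun p => G.Adj p.1 p.2)) ∪
      ({(u, w), (w, u)} : Finset (V × V)) ⊆
      ((insert w X ×ˢ insert w X).filter (fun p => G.Adj p.1 p.2)) := by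
    intro p hp
    rw [Finset.mem_union] at hp
    rw [Finset.mem_filter, Finset.mem_product]
    rcases hp with hp | hp
    · rw [Finset.mem_filter, Finset.mem_product] at hp
      exact ⟨⟨Finset.mem_insert_of_mem hp.1.1, Finset.mem_insert_of_mem hp.1.2⟩, hp.2⟩
    · rw [Finset.mem_insert, Finset.mem_singleton] at hp
      rcases hp with rfl | rfl
      · exact ⟨⟨Finset.mem_insert_of_mem hu, Finset.mem_insert_self _ _⟩, hadj⟩
      · exact ⟨⟨Finset.mem_insert_self _ _, Finset.mem_insert_of_mem hu⟩, hadj.symm⟩
  have hcard := Finset.card_le_card hsub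
  rw [Finset.card_union_of_disjoint hdisj, hpair] at hcard
  unfold dE
  exact hcard

theorem conn_edges {G : SimpleGraph V} {S : Finset V} (h : CConn G S) :
    2 * S.card ≤ dE G S + 2 := by
  classical
  obtain ⟨⟨x0, hx0⟩, hcut⟩ := h
  have key : ∀ k : ℕ, 1 ≤ k → k ≤ S.card →
      ∃ X : Finset V, X ⊆ S ∧ X.card = k ∧ 2 * k ≤ dE G X + 2 := by
    intro k hk
    induction k, hk using Nat.le_induction with
    | base =>
      intro _
      exact ⟨{x0}, Finset.singleton_subset_iff.2 hx0, Finset.card_singleton _, by omega⟩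
    | succ k hk ih =>
      intro hkS
      obtain ⟨X, hXS, hXc, hXe⟩ := ih (by omega)
      have hXne : X.Nonempty := by
        rw [← Finset.card_pos]
        omega
      have hXneS : X ≠ S := by
        intro hXS'
        rw [hXS'] at hXc
        omega
      obtain ⟨u, hu, w, hw, hadj⟩ := hcut X hXS hXne hXneS
      rw [Finset.mem_sdiff] at hw
      refine ⟨insert w X, ?_, ?_, ?_⟩
      · intro y hy
        rw [Finset.mem_insert] at hy
        rcases hy with rfl | hy
        · exact hw.1
        · exact hXS hy
      · rw [Finset.card_insert_of_notMem hw.2, hXc]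
      · have := G01_step hu hw.2 hadj
        omega
  have hpos : 1 ≤ S.card := Finset.card_pos.2 ⟨x0, hx0⟩
  obtain ⟨X, hXS, hXc, hXe⟩ := key S.card hpos le_rfl
  have hXS' : X = S := Finset.eq_of_subset_of_card_le hXS (by omega)
  rw [hXS'] at hXe
  exact hXe

end SQE
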