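import Pool.Agent.Helper4.SQE.Defs

/-!
# The four port lemma: the matrix `wmat`
-/

set_option autoImplicit false
set_option linter.unusedSectionVars false

open Finset

namespace SQE.H20

open SQE

variable {V : Type*} [Fintype V] [DecidableEq V]
variable {G : SimpleGraph V} {S : Finset V} {T : Fin 4 → Finset V} {v : Fin 4 → V}
  {E : Fin 4 → Fin 4 → Prop}

theorem four_irr (F : Four G S T v E) (k : Fin 4) : ¬ E k k := by
  rcases F.shape with h | h
  · rw [h]; revert k; decide
  · rw [h]; revert k; decide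

theorem four_symm (F : Four G S T v E) {k l : Fin 4} (hkl : E k l) : E l k := by
  rcases F.shape with h | h
  · rw [h] at hkl ⊢; revert k l; decide
  · rw [h] at hkl ⊢; revert k l; decide

theorem four_block (F : Four G S T v E) {k l : Fin 4} {x : V} (hx : x ∈ T k) (hx' : x ∈ T l) :
    k = l := by
  by_contra h
  exact Finset.disjoint_left.mp (F.disj k l h) hx hx'

theorem wmat_same (F : Four G S T v E) [DecidableRel G.Adj] {k : Fin 4} {x y : V} (hx : x ∈ T k)
    (hy : y ∈ T k) : wmat G T v E x y = if G.Adj x y then 1 else 0 := by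
  have h2 : ¬ ∃ k l, E k l ∧ x = v k ∧ y = v l := by
    rintro ⟨i, j, hij, rfl, rfl⟩
    have e1 := four_block F hx (F.leafy i).root
    have e2 := four_block F hy (F.leafy j).root
    rw [← e1, ← e2] at hij
    exact four_irr F k hij
  have h3 : ∃ k, x ∈ T k ∧ y ∈ T k := ⟨k, hx, hy⟩
  unfold wmat
  rw [if_neg h2, add_zero]
  by_cases hG : G.Adj x y
  · rw [if_pos ⟨h3, hG⟩, if_pos hG]
  · rw [if_neg (fun h => hG h.2), if_neg hG]

open Classical in
theorem wmat_cross (F : Four G S T v E) {k l : Fin 4} (hkl : k ≠ l) {x y : V} (hx : x ∈ T k)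
    (hy : y ∈ T l) : wmat G T v E x y = if E k l ∧ x = v k ∧ y = v l then 4 / 3 else 0 := by
  have h1 : ¬ ((∃ k, x ∈ T k ∧ y ∈ T k) ∧ G.Adj x y) := by
    rintro ⟨⟨m, hm, hm'⟩, -⟩
    exact hkl ((four_block F hx hm).trans (four_block F hy hm').symm)
  have h2 : (∃ k l, E k l ∧ x = v k ∧ y = v l) ↔ (E k l ∧ x = v k ∧ y = v l) := by
    constructor
    · rintro ⟨i, j, hij, hi, hj⟩
      have e1 : k = i := four_block F hx (hi ▸ (F.leafy i).root)
      have e2 : l = j := four_block F hy (hj ▸ (F.leafy j).root)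
      subst e1; subst e2
      exact ⟨hij, hi, hj⟩
    · intro h
      exact ⟨k, l, h⟩
  unfold wmat
  rw [if_neg h1, zero_add]
  exact if_congr h2 rfl rfl

theorem wmat_out (F : Four G S T v E) {x y : V} (h : (∀ k, x ∉ T k) ∨ ∀ k, y ∉ T k) :
    wmat G T v E x y = 0 := by
  have h1 : ¬ ((∃ k, x ∈ T k ∧ y ∈ T k) ∧ G.Adj x y) := by
    rintro ⟨⟨m, hm, hm'⟩, -⟩
    rcases h with h | h
    · exact h m hm
    · exact h m hm'
  have h2 : ¬ ∃ k l, E k l ∧ x = v k ∧ y = v l := by
    rintro ⟨i, j, -, rfl, rfl⟩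
    rcases h with h | h
    · exact h i (F.leafy i).root
    · exact h j (F.leafy j).root
  unfold wmat
  rw [if_neg h1, if_neg h2, add_zero]

theorem wmat_symm' (F : Four G S T v E) (x y : V) : wmat G T v E x y = wmat G T v E y x := by
  classical
  unfold wmat
  have h1 : ((∃ k, x ∈ T k ∧ y ∈ T k) ∧ G.Adj x y) ↔ ((∃ k, y ∈ T k ∧ x ∈ T k) ∧ G.Adj y x) := by
    rw [G.adj_comm]
    simp only [and_comm]
  have h2 : (∃ k l, E k l ∧ x = v k ∧ y = v l) ↔ (∃ k l, E k l ∧ y = v k ∧ x = v l) := by
    constructor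
    · rintro ⟨i, j, hij, hi, hj⟩
      exact ⟨j, i, four_symm F hij, hj, hi⟩
    · rintro ⟨i, j, hij, hi, hj⟩
      exact ⟨j, i, four_symm F hij, hj, hi⟩
  rw [if_congr h1 rfl rfl, if_congr h2 rfl rfl]

theorem wmat_herm (F : Four G S T v E) : (wmat G T v E).IsHermitian := by
  ext x y
  rw [Matrix.conjTranspose_apply, star_trivial]
  exact wmat_symm' F y x

/-- signs for `wmat`, prescribed at the roots -/
theorem wmat_sgn (F : Four G S T v E) (s : Fin 4 → Bool) (hs : ∀ k l, E k l → s k ≠ s l) :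
    ∃ σ : V → Bool, (∀ x y, wmat G T v E x y ≠ 0 → σ x ≠ σ y) ∧ ∀ k, σ (v k) = s k := by
  classical
  choose σ hσ using fun k => (F.leafy k).bip
  -- normalise at the root
  have h1 : ∀ k, ∃ τ : V → Bool, (∀ i ∈ T k, ∀ j ∈ T k, G.Adj i j → τ i ≠ τ j) ∧ τ (v k) = s k := by
    intro k
    by_cases h : σ k (v k) = s k
    · exact ⟨σ k, hσ k, h⟩
    · refine ⟨fun x => !(σ k x), fun i hi j hj hij h' => hσ k i hi j hj hij ?_, ?_⟩
      · simpa using h'
      · change (!(σ k (v k))) = s k
        revert h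
        cases σ k (v k) <;> cases s k <;> decide
  choose τ hτ hτv using h1
  refine ⟨fun x => if h : ∃ k, x ∈ T k then τ h.choose x else true, ?_, ?_⟩
  · intro x y hxy
    beta_reduce
    by_cases hx : ∃ k, x ∈ T k
    · by_cases hy : ∃ k, y ∈ T k
      · rw [dif_pos hx, dif_pos hy]
        have hx' := hx.choose_spec
        have hy' := hy.choose_spec
        set k := hx.choose
        set l := hy.choose
        by_cases hkl : k = l
        · rw [← hkl] at hy' ⊢
          rw [wmat_same F hx' hy'] at hxy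
          refine hτ k x hx' y hy' ?_
          by_contra hG
          exact hxy (if_neg hG)
        · rw [wmat_cross F hkl hx' hy'] at hxy
          by_cases hc : E k l ∧ x = v k ∧ y = v l
          · obtain ⟨h1, h2, h3⟩ := hc
            rw [h2, h3, hτv, hτv]
            exact hs k l h1
          · exact absurd (if_neg hc) hxy
      · exact absurd (wmat_out F (Or.inr fun k hk => hy ⟨k, hk⟩)) hxy
    · exact absurd (wmat_out F (Or.inl fun k hk => hx ⟨k, hk⟩)) hxy
  · intro k
    have hk : ∃ l, v k ∈ T l := ⟨k, (F.leafy k).root⟩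
    beta_reduce
    rw [dif_pos hk]
    have h2 : hk.choose = k := four_block F hk.choose_spec (F.leafy k).root
    rw [h2]
    exact hτv k

end SQE.H20
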