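import Pool.Agent.Helper4.SQE.Defs
import Pool.Agent.Helper4.SQE.L4mat

/-!
# wmat is bipartite
-/

set_option autoImplicit false
set_option linter.unusedSectionVars false

open Finset

namespace SQE

variable {V : Type*} [Fintype V] [DecidableEq V]

theorem wmat_odd {G : SimpleGraph V} {S : Finset V} {T : Fin 4 → Finset V} {v : Fin 4 → V}
    {E : Fin 4 → Fin 4 → Prop} (F : Four G S T v E) :
    ∃ σ : V → Bool, ∀ x y, wmat G T v E x y ≠ 0 → σ x ≠ σ y := by
  have hs : ∃ s : Fin 4 → Bool, ∀ k l, E k l → s k ≠ s l := by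
    rcases F.shape with h | h
    · refine ⟨fun k => decide (k = 0), fun k l hkl => ?_⟩
      rw [h] at hkl
      revert k l; decide
    · refine ⟨fun k => decide (k.val % 2 = 0), fun k l hkl => ?_⟩
      rw [h] at hkl
      revert k l; decide
  obtain ⟨s, hs⟩ := hs
  obtain ⟨σ, hσ, -⟩ := H20.wmat_sgn F s hs
  exact ⟨σ, hσ⟩

end SQE
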