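import Pool.Agent.Helper4.SQE.L4count
import Pool.Agent.Helper4.SQE.L4mat

/-!
# The four port lemma: cross entries
-/

set_option autoImplicit false
set_option linter.unusedSectionVars false

open Finset

namespace SQE.H20

open SQE

variable {V : Type*} [Fintype V] [DecidableEq V]
variable {G : SimpleGraph V} {S : Finset V} {T : Fin 4 → Finset V} {v : Fin 4 → V}
  {E : Fin 4 → Fin 4 → Prop}

/-- a cross block sum with only one nonzero entry -/
theorem cross_one (F : Four G S T v E) {k l : Fin 4} (g : V → V → ℝ)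
    (hg : ∀ x ∈ T k, ∀ y ∈ T l, ¬ (x = v k ∧ y = v l) → g x y = 0) :
    ∑ x ∈ T k, ∑ y ∈ T l, g x y = g (v k) (v l) := by
  rw [Finset.sum_eq_single (v k) (fun x hx hne => Finset.sum_eq_zero fun y hy =>
    hg x hx y hy fun h => hne h.1) (fun h => absurd (F.leafy k).root h)]
  exact Finset.sum_eq_single (v l) (fun y hy hne => hg _ (F.leafy k).root y hy fun h => hne h.2)
    (fun h => absurd (F.leafy l).root h)

theorem adjR_cross (F : Four G S T v E) {k l : Fin 4} (hkl : k ≠ l) {x y : V} (hx : x ∈ T k)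
    (hy : y ∈ T l) (h : ¬ (x = v k ∧ y = v l)) : adjR G S x y = 0 := by
  unfold adjR
  refine if_neg ?_
  rintro ⟨hxS, hyS, hG⟩
  refine h ⟨(F.leafy k).out x hx y hyS ?_ hG, (F.leafy l).out y hy x hxS ?_ hG.symm⟩
  · exact fun h' => hkl (four_block F h' hy)
  · exact fun h' => hkl (four_block F hx h')

theorem adjR_same (F : Four G S T v E) {k : Fin 4} {x y : V} (hx : x ∈ T k)
    (hy : y ∈ T k) : adjR G S x y = wmat G T v E x y := by
  classical
  rw [wmat_same F hx hy]
  unfold adjR
  refine if_congr ⟨fun h => h.2.2, fun h => ⟨(F.leafy k).sub hx, (F.leafy k).sub hy, h⟩⟩ rfl rfl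

/-- `⟨U, A_G⟩ ≥ ⟨U, A_θ⟩ - 4/3` -/
theorem four_lower (F : Four G S T v E) {U : Matrix V V ℝ}
    (hout : ∀ x y, ((∀ k, x ∉ T k) ∨ ∀ k, y ∉ T k) → U x y = 0)
    (hE : ∀ k l, E k l → U (v k) (v l) = 2 / 3)
    (hch : ∀ k l, k ≠ l → ¬ E k l → G.Adj (v k) (v l) → 0 ≤ U (v k) (v l)) :
    Fr U (wmat G T v E) - 4 / 3 ≤ Fr U (adjR G S) := by
  classical
  have h1 : Fr U (adjR G S) = ∑ k, ∑ l, ∑ x ∈ T k, ∑ y ∈ T l, U x y * adjR G S x y :=
    sum_blocks₂ T F.disj _ fun x y h => by rw [hout x y h, zero_mul]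
  have h2 : Fr U (wmat G T v E) =
      ∑ k, ∑ l, ∑ x ∈ T k, ∑ y ∈ T l, U x y * wmat G T v E x y :=
    sum_blocks₂ T F.disj _ fun x y h => by rw [hout x y h, zero_mul]
  -- the block differences
  have h3 : ∀ k l, (∑ x ∈ T k, ∑ y ∈ T l, U x y * wmat G T v E x y) -
      (if E k l then 2 / 9 else 0) ≤ ∑ x ∈ T k, ∑ y ∈ T l, U x y * adjR G S x y := by
    intro k l
    by_cases hkl : k = l
    · subst hkl
      rw [if_neg (four_irr F k), sub_zero]
      refine le_of_eq (Finset.sum_congr rfl fun x hx => Finset.sum_congr rfl fun y hy => ?_)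
      rw [adjR_same F hx hy]
    · rw [cross_one F (fun x y => U x y * wmat G T v E x y) fun x hx y hy h => by
          rw [wmat_cross F hkl hx hy, if_neg fun h' => h h'.2, mul_zero],
        cross_one F (fun x y => U x y * adjR G S x y) fun x hx y hy h => by
          rw [adjR_cross F hkl hx hy h, mul_zero]]
      rw [wmat_cross F hkl (F.leafy k).root (F.leafy l).root]
      by_cases hE' : E k l
      · rw [if_pos ⟨hE', rfl, rfl⟩, if_pos hE', hE k l hE']
        have h4 : adjR G S (v k) (v l) = 1 :=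
          if_pos ⟨(F.leafy k).sub (F.leafy k).root, (F.leafy l).sub (F.leafy l).root, F.adj k l hE'⟩
        rw [h4]
        norm_num
      · rw [if_neg fun h => hE' h.1, if_neg hE', mul_zero, sub_zero]
        by_cases hG : G.Adj (v k) (v l)
        · refine mul_nonneg (hch k l hkl hE' hG) ?_
          unfold adjR
          split_ifs <;> norm_num
        · have h4 : adjR G S (v k) (v l) = 0 := if_neg fun h => hG h.2.2
          rw [h4, mul_zero]
  have h4 : ∑ k, ∑ l, (if E k l then (2 / 9 : ℝ) else 0) = 4 / 3 := by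
    rcases F.shape with h | h
    · simp only [h, Fin.sum_univ_four, starE]
      norm_num
      simp
      norm_num
    · simp only [h, Fin.sum_univ_four, pathE]
      norm_num
  rw [h1, h2]
  have h5 : ∑ k, ∑ l, ((∑ x ∈ T k, ∑ y ∈ T l, U x y * wmat G T v E x y) -
      (if E k l then (2 / 9 : ℝ) else 0)) ≤
      ∑ k, ∑ l, ∑ x ∈ T k, ∑ y ∈ T l, U x y * adjR G S x y :=
    Finset.sum_le_sum fun k _ => Finset.sum_le_sum fun l _ => h3 k l
  simp only [Finset.sum_sub_distrib] at h5
  rw [h4] at h5
  exact h5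

/-- if all cross entries of `U` except the tree entries vanish, then `U² = U A_θ` is violated -/
theorem four_strict (F : Four G S T v E) {U : Matrix V V ℝ}
    (hout : ∀ x y, ((∀ k, x ∉ T k) ∨ ∀ k, y ∉ T k) → U x y = 0)
    (hE : ∀ k l, E k l → U (v k) (v l) = 2 / 3)
    (hUU : U * U = U * wmat G T v E)
    (hz : ∀ k l, k ≠ l → ∀ x ∈ T k, ∀ y ∈ T l, ¬ (E k l ∧ x = v k ∧ y = v l) → U x y = 0)
    {i m j : Fin 4} (him : E i m) (hmj : E m j) (hij : i ≠ j) (hE' : ¬ E i j)
    (hm : ∀ k, E i k → E k j → k = m) : False := by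
  classical
  have him' : i ≠ m := fun h => four_irr F i (h ▸ him)
  have hmj' : m ≠ j := fun h => four_irr F j (h ▸ hmj)
  -- `U (v i) x` for `x` in another block vanishes unless `x = v k`, `E i k`
  have h1 : (U * U) (v i) (v j) = 4 / 9 := by
    rw [Matrix.mul_apply, Finset.sum_eq_single (v m)]
    · rw [hE i m him, hE m j hmj]; norm_num
    · intro x _ hx
      by_cases hxT : ∃ k, x ∈ T k
      · obtain ⟨k, hk⟩ := hxT
        by_cases hki : k = i
        · subst hki
          rw [hz k j hij x hk (v j) (F.leafy j).root fun h => hE' h.1, mul_zero]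
        · by_cases g1 : E i k ∧ x = v k
          · by_cases hkj : k = j
            · exact absurd (hkj ▸ g1.1) hE'
            · by_cases h2 : E k j
              · exact absurd (g1.2.trans (congrArg v (hm k g1.1 h2))) hx
              · rw [hz k j hkj x hk (v j) (F.leafy j).root fun h => h2 h.1, mul_zero]
          · rw [hz i k (Ne.symm hki) (v i) (F.leafy i).root x hk fun h => g1 ⟨h.1, h.2.2⟩,
              zero_mul]
      · rw [hout (v i) x (Or.inr fun k hk => hxT ⟨k, hk⟩), zero_mul]
    · intro h; exact absurd (Finset.mem_univ _) h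
  have h2 : (U * wmat G T v E) (v i) (v j) = 8 / 9 := by
    rw [Matrix.mul_apply, Finset.sum_eq_single (v m)]
    · rw [hE i m him, wmat_cross F hmj' (F.leafy m).root (F.leafy j).root, if_pos ⟨hmj, rfl, rfl⟩]
      norm_num
    · intro x _ hx
      by_cases hxT : ∃ k, x ∈ T k
      · obtain ⟨k, hk⟩ := hxT
        by_cases hki : k = i
        · subst hki
          rw [wmat_cross F hij hk (F.leafy j).root, if_neg fun h => hE' h.1, mul_zero]
        · by_cases g1 : E i k ∧ x = v k
          · by_cases hkj : k = j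
            · exact absurd (hkj ▸ g1.1) hE'
            · by_cases h2 : E k j
              · exact absurd (g1.2.trans (congrArg v (hm k g1.1 h2))) hx
              · rw [wmat_cross F hkj hk (F.leafy j).root, if_neg fun h => h2 h.1, mul_zero]
          · rw [hz i k (Ne.symm hki) (v i) (F.leafy i).root x hk fun h => g1 ⟨h.1, h.2.2⟩,
              zero_mul]
      · rw [hout (v i) x (Or.inr fun k hk => hxT ⟨k, hk⟩), zero_mul]
    · intro h; exact absurd (Finset.mem_univ _) h
  rw [hUU, h2] at h1
  norm_num at h1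

/-- the cross entries of `U` have square sum `> 8 / 3` -/
theorem four_cross (F : Four G S T v E) {U : Matrix V V ℝ}
    (hout : ∀ x y, ((∀ k, x ∉ T k) ∨ ∀ k, y ∉ T k) → U x y = 0)
    (hE : ∀ k l, E k l → U (v k) (v l) = 2 / 3)
    (hUU : U * U = U * wmat G T v E) :
    8 / 3 < ∑ k, ∑ l, if k ≠ l then ∑ x ∈ T k, ∑ y ∈ T l, U x y ^ 2 else 0 := by
  classical
  -- the tree entries
  have h4 : ∑ k, ∑ l, (if E k l then (4 / 9 : ℝ) else 0) = 8 / 3 := by
    rcases F.shape with h | h
    · simp only [h, Fin.sum_univ_four, starE]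
      norm_num
      simp
      norm_num
    · simp only [h, Fin.sum_univ_four, pathE]
      norm_num
  have h3 : ∀ k l, (if E k l then (4 / 9 : ℝ) else 0) ≤
      (if k ≠ l then ∑ x ∈ T k, ∑ y ∈ T l, U x y ^ 2 else 0) := by
    intro k l
    by_cases hkl : k = l
    · subst hkl
      rw [if_neg (four_irr F k), if_neg (by simp)]
    · rw [if_pos hkl]
      by_cases hE' : E k l
      · rw [if_pos hE']
        have h5 : U (v k) (v l) ^ 2 ≤ ∑ y ∈ T l, U (v k) y ^ 2 :=
          Finset.single_le_sum (f := fun y => U (v k) y ^ 2) (fun y _ => sq_nonneg _)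
            (F.leafy l).root
        have h6 : ∑ y ∈ T l, U (v k) y ^ 2 ≤ ∑ x ∈ T k, ∑ y ∈ T l, U x y ^ 2 :=
          Finset.single_le_sum (f := fun x => ∑ y ∈ T l, U x y ^ 2)
            (fun x _ => Finset.sum_nonneg fun y _ => sq_nonneg _) (F.leafy k).root
        rw [hE k l hE'] at h5
        linarith
      · rw [if_neg hE']
        exact Finset.sum_nonneg fun x _ => Finset.sum_nonneg fun y _ => sq_nonneg _
  by_contra hcon
  push Not at hcon
  -- equality everywhere
  have h5 : ∀ k l, (if E k l then (4 / 9 : ℝ) else 0) =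
      (if k ≠ l then ∑ x ∈ T k, ∑ y ∈ T l, U x y ^ 2 else 0) := by
    have h6 : ∑ q : Fin 4 × Fin 4, (if E q.1 q.2 then (4 / 9 : ℝ) else 0) =
        ∑ q : Fin 4 × Fin 4,
          (if q.1 ≠ q.2 then ∑ x ∈ T q.1, ∑ y ∈ T q.2, U x y ^ 2 else 0) := by
      refine le_antisymm (Finset.sum_le_sum fun q _ => h3 q.1 q.2) ?_
      rw [Fintype.sum_prod_type, Fintype.sum_prod_type]
      rw [h4]
      exact hcon
    intro k l
    exact (Finset.sum_eq_sum_iff_of_le fun q _ => h3 q.1 q.2).mp h6 (k, l) (Finset.mem_univ _)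
  have hz : ∀ k l, k ≠ l → ∀ x ∈ T k, ∀ y ∈ T l, ¬ (E k l ∧ x = v k ∧ y = v l) → U x y = 0 := by
    intro k l hkl x hx y hy hne
    have h6 := h5 k l
    rw [if_pos hkl] at h6
    by_cases hE' : E k l
    · rw [if_pos hE'] at h6
      -- remove the entry `(v k, v l)`
      have h7 : U x y ^ 2 + U (v k) (v l) ^ 2 ≤ ∑ q ∈ T k ×ˢ T l, U q.1 q.2 ^ 2 := by
        have h8 : ((x, y) : V × V) ≠ (v k, v l) := by
          intro h8
          rw [Prod.mk.injEq] at h8
          exact hne ⟨hE', h8.1, h8.2⟩
        have h9 := Finset.sum_le_sum_of_subset_of_nonneg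
          (s := {((x, y) : V × V), (v k, v l)}) (t := T k ×ˢ T l)
          (f := fun q => U q.1 q.2 ^ 2) (by
            intro q hq
            rw [Finset.mem_insert, Finset.mem_singleton] at hq
            rcases hq with rfl | rfl
            · exact Finset.mem_product.mpr ⟨hx, hy⟩
            · exact Finset.mem_product.mpr ⟨(F.leafy k).root, (F.leafy l).root⟩)
          (fun q _ _ => sq_nonneg _)
        rw [Finset.sum_pair h8] at h9
        exact h9
      rw [Finset.sum_product, ← h6, hE k l hE'] at h7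
      have h8 : U x y ^ 2 = 0 := le_antisymm (by linarith) (sq_nonneg _)
      exact pow_eq_zero_iff (two_ne_zero) |>.mp h8
    · rw [if_neg hE'] at h6
      have h7 := (Finset.sum_eq_zero_iff_of_nonneg fun x _ =>
        Finset.sum_nonneg fun y _ => sq_nonneg (U x y)).mp h6.symm x hx
      have h8 := (Finset.sum_eq_zero_iff_of_nonneg fun y _ => sq_nonneg (U x y)).mp h7 y hy
      exact pow_eq_zero_iff (two_ne_zero) |>.mp h8
  rcases F.shape with h | h
  · refine four_strict F hout hE hUU hz (i := 1) (m := 0) (j := 2) ?_ ?_ (by decide) ?_ ?_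
    · rw [h]; decide
    · rw [h]; decide
    · rw [h]; decide
    · intro k h1 h2
      rw [h] at h1 h2
      revert k; decide
  · refine four_strict F hout hE hUU hz (i := 0) (m := 1) (j := 2) ?_ ?_ (by decide) ?_ ?_
    · rw [h]; decide
    · rw [h]; decide
    · rw [h]; decide
    · intro k h1 h2
      rw [h] at h1 h2
      revert k; decide

end SQE.H20
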