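import Pool.Agent.Helper4.SQE.Defs
import Pool.Agent.Helper4.SQE.L4fin

/-!
# basic values of wmat
-/

set_option autoImplicit false
set_option linter.unusedSectionVars false

open Finset

namespace SQE

variable {V : Type*} [Fintype V] [DecidableEq V]

theorem wmat_root {G : SimpleGraph V} {S : Finset V} {T : Fin 4 → Finset V} {v : Fin 4 → V}
    {E : Fin 4 → Fin 4 → Prop} (F : Four G S T v E) {k l : Fin 4} (hkl : E k l) :
    wmat G T v E (v k) (v l) = 4 / 3 := by
  have h : k ≠ l := fun h => H20.four_irr F k (by rw [← h] at hkl; exact hkl)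
  rw [H20.wmat_cross F h (F.leafy k).root (F.leafy l).root, if_pos ⟨hkl, rfl, rfl⟩]

theorem wmat_block {G : SimpleGraph V} {S : Finset V} {T : Fin 4 → Finset V} {v : Fin 4 → V}
    {E : Fin 4 → Fin 4 → Prop} (F : Four G S T v E) {k : Fin 4} {x y : V} (hx : x ∈ T k)
    (hy : y ∈ T k) : wmat G T v E x y = adjR G S x y :=
  (H20.adjR_same F hx hy).symm

theorem wmat_cross {G : SimpleGraph V} {S : Finset V} {T : Fin 4 → Finset V} {v : Fin 4 → V}
    {E : Fin 4 → Fin 4 → Prop} (F : Four G S T v E) {k : Fin 4} {x y : V} (hx : x ∈ T k)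
    (hy : y ∉ T k) (h0 : wmat G T v E x y ≠ 0) : x = v k ∧ ∃ l, E k l ∧ y = v l := by
  classical
  by_cases hyT : ∃ l, y ∈ T l
  · obtain ⟨l, hl⟩ := hyT
    have hkl : k ≠ l := fun h => hy (by rw [h]; exact hl)
    rw [H20.wmat_cross F hkl hx hl] at h0
    by_cases h1 : E k l ∧ x = v k ∧ y = v l
    · exact ⟨h1.2.1, l, h1.1, h1.2.2⟩
    · exact absurd (if_neg h1) h0
  · exact absurd (H20.wmat_out F (Or.inr fun l hl => hyT ⟨l, hl⟩)) h0

theorem wmat_symm {G : SimpleGraph V} {S : Finset V} {T : Fin 4 → Finset V} {v : Fin 4 → V}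
    {E : Fin 4 → Fin 4 → Prop} (F : Four G S T v E) (x y : V) :
    wmat G T v E x y = wmat G T v E y x :=
  H20.wmat_symm' F x y

/-- outside the blocks `wmat` vanishes -/
theorem wmat_outside {G : SimpleGraph V} {S : Finset V} {T : Fin 4 → Finset V} {v : Fin 4 → V}
    {E : Fin 4 → Fin 4 → Prop} (F : Four G S T v E) {x : V} (hx : ∀ k, x ∉ T k) (y : V) :
    wmat G T v E x y = 0 :=
  H20.wmat_out F (Or.inl hx)

end SQE
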