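import Pool.Agent.Helper4.SQE.Defs
import Pool.Agent.Helper4.SQE.L02

/-!
# the norm of wmat
-/

set_option autoImplicit false
set_option linter.unusedSectionVars false

open Finset

namespace SQE

variable {V : Type*} [Fintype V] [DecidableEq V]

private theorem L03_vinj {G : SimpleGraph V} {S : Finset V} {T : Fin 4 → Finset V} {v : Fin 4 → V}
    {E : Fin 4 → Fin 4 → Prop} (F : Four G S T v E) {k l : Fin 4} (h : v k = v l) : k = l := by
  by_contra hne
  have h1 := F.disj k l hne
  have h2 : v k ∈ T k := (F.leafy k).root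
  have h3 : v k ∈ T l := h ▸ (F.leafy l).root
  exact Finset.disjoint_left.mp h1 h2 h3

private theorem L03_irr {G : SimpleGraph V} {S : Finset V} {T : Fin 4 → Finset V} {v : Fin 4 → V}
    {E : Fin 4 → Fin 4 → Prop} (F : Four G S T v E) (k : Fin 4) : ¬ E k k := fun h =>
  (F.adj k k h).ne rfl

open Classical in
private theorem L03_count {G : SimpleGraph V} {S : Finset V} {T : Fin 4 → Finset V}
    {v : Fin 4 → V} {E : Fin 4 → Fin 4 → Prop} (F : Four G S T v E) :
    ∑ k, ∑ l, (if E k l then (16 / 9 : ℝ) else 0) = 32 / 3 := by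
  rcases F.shape with h | h
  · simp only [h]
    have s00 : ¬ starE 0 0 := by decide
    have s01 : starE 0 1 := by decide
    have s02 : starE 0 2 := by decide
    have s03 : starE 0 3 := by decide
    have s10 : starE 1 0 := by decide
    have s11 : ¬ starE 1 1 := by decide
    have s12 : ¬ starE 1 2 := by decide
    have s13 : ¬ starE 1 3 := by decide
    have s20 : starE 2 0 := by decide
    have s21 : ¬ starE 2 1 := by decide
    have s22 : ¬ starE 2 2 := by decide
    have s23 : ¬ starE 2 3 := by decide
    have s30 : starE 3 0 := by decide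
    have s31 : ¬ starE 3 1 := by decide
    have s32 : ¬ starE 3 2 := by decide
    have s33 : ¬ starE 3 3 := by decide
    simp only [Fin.sum_univ_four, s00, s01, s02, s03, s10, s11, s12, s13, s20, s21, s22, s23, s30, s31, s32, s33, if_true, if_false]
    norm_num
  · simp only [h]
    have s00 : ¬ pathE 0 0 := by decide
    have s01 : pathE 0 1 := by decide
    have s02 : ¬ pathE 0 2 := by decide
    have s03 : ¬ pathE 0 3 := by decide
    have s10 : pathE 1 0 := by decide
    have s11 : ¬ pathE 1 1 := by decide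
    have s12 : pathE 1 2 := by decide
    have s13 : ¬ pathE 1 3 := by decide
    have s20 : ¬ pathE 2 0 := by decide
    have s21 : pathE 2 1 := by decide
    have s22 : ¬ pathE 2 2 := by decide
    have s23 : pathE 2 3 := by decide
    have s30 : ¬ pathE 3 0 := by decide
    have s31 : ¬ pathE 3 1 := by decide
    have s32 : pathE 3 2 := by decide
    have s33 : ¬ pathE 3 3 := by decide
    simp only [Fin.sum_univ_four, s00, s01, s02, s03, s10, s11, s12, s13, s20, s21, s22, s23, s30, s31, s32, s33, if_true, if_false]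
    norm_num

open Classical in
private theorem L03_one {T : Fin 4 → Finset V} (hd : ∀ k l, k ≠ l → Disjoint (T k) (T l))
    (Q : Prop) (x y : V) :
    (if (∃ k, x ∈ T k ∧ y ∈ T k) ∧ Q then (1 : ℝ) else 0) =
      ∑ k, (if x ∈ T k ∧ y ∈ T k ∧ Q then (1 : ℝ) else 0) := by
  by_cases h : (∃ k, x ∈ T k ∧ y ∈ T k) ∧ Q
  · obtain ⟨⟨k, hk1, hk2⟩, hQ⟩ := h
    rw [if_pos ⟨⟨k, hk1, hk2⟩, hQ⟩, Finset.sum_eq_single k]
    · rw [if_pos ⟨hk1, hk2, hQ⟩]
    · intro l _ hl
      rw [if_neg]
      rintro ⟨h1, -, -⟩
      exact Finset.disjoint_left.mp (hd l k hl) h1 hk1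
    · intro h; exact absurd (Finset.mem_univ _) h
  · rw [if_neg h]
    symm
    refine Finset.sum_eq_zero fun k _ => if_neg ?_
    rintro ⟨h1, h2, h3⟩
    exact h ⟨⟨k, h1, h2⟩, h3⟩

open Classical in
private theorem L03_two {v : Fin 4 → V} {E : Fin 4 → Fin 4 → Prop}
    (hv : ∀ k l, v k = v l → k = l) (x y : V) :
    (if ∃ k l, E k l ∧ x = v k ∧ y = v l then (16 / 9 : ℝ) else 0) =
      ∑ k, ∑ l, (if x = v k then (if y = v l then (if E k l then (16 / 9 : ℝ) else 0) else 0)
        else 0) := by
  by_cases h : ∃ k l, E k l ∧ x = v k ∧ y = v l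
  · rw [if_pos h]
    obtain ⟨k, l, hE, rfl, rfl⟩ := h
    rw [Finset.sum_eq_single k, Finset.sum_eq_single l]
    · rw [if_pos rfl, if_pos rfl, if_pos hE]
    · intro m _ hm
      rw [if_pos rfl, if_neg fun e => hm (hv _ _ e).symm]
    · intro h; exact absurd (Finset.mem_univ _) h
    · intro m _ hm
      refine Finset.sum_eq_zero fun _ _ => if_neg fun e => hm (hv _ _ e).symm
    · intro h; exact absurd (Finset.mem_univ _) h
  · rw [if_neg h]
    symm
    refine Finset.sum_eq_zero fun k _ => Finset.sum_eq_zero fun l _ => ?_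
    by_cases h1 : x = v k
    · by_cases h2 : y = v l
      · rw [if_pos h1, if_pos h2, if_neg fun hE => h ⟨k, l, hE, h1, h2⟩]
      · rw [if_pos h1, if_neg h2]
    · rw [if_neg h1]

theorem wmat_norm {G : SimpleGraph V} {S : Finset V} {T : Fin 4 → Finset V} {v : Fin 4 → V}
    {E : Fin 4 → Fin 4 → Prop} (F : Four G S T v E) :
    Fr (wmat G T v E) (wmat G T v E) = ∑ k, (dE G (T k) : ℝ) + 32 / 3 := by
  classical
  have hpt : ∀ x y, wmat G T v E x y * wmat G T v E x y =
      (∑ k, (if x ∈ T k ∧ y ∈ T k ∧ G.Adj x y then (1 : ℝ) else 0)) +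
      ∑ k, ∑ l, (if x = v k then (if y = v l then (if E k l then (16 / 9 : ℝ) else 0) else 0)
        else 0) := by
    intro x y
    rw [← L03_one F.disj, ← L03_two fun k l => L03_vinj F]
    unfold wmat
    by_cases h1 : (∃ k, x ∈ T k ∧ y ∈ T k) ∧ G.Adj x y
    · have h2 : ¬ ∃ k l, E k l ∧ x = v k ∧ y = v l := by
        rintro ⟨k, l, hE, rfl, rfl⟩
        obtain ⟨⟨m, hm1, hm2⟩, -⟩ := h1
        have hk : m = k := by
          by_contra hne
          exact Finset.disjoint_left.mp (F.disj m k hne) hm1 (F.leafy k).root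
        have hl : m = l := by
          by_contra hne
          exact Finset.disjoint_left.mp (F.disj m l hne) hm2 (F.leafy l).root
        subst hk
        subst hl
        exact L03_irr F m hE
      rw [if_pos h1, if_neg h2, if_neg h2]
      norm_num
    · rw [if_neg h1]
      by_cases h2 : ∃ k l, E k l ∧ x = v k ∧ y = v l
      · rw [if_pos h2, if_pos h2]
        norm_num
      · rw [if_neg h2, if_neg h2]
        norm_num
  unfold Fr
  rw [Finset.sum_congr rfl fun x _ => Finset.sum_congr rfl fun y _ => hpt x y]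
  simp only [Finset.sum_add_distrib]
  congr 1
  · rw [Finset.sum_congr rfl fun x _ => Finset.sum_comm, Finset.sum_comm]
    refine Finset.sum_congr rfl fun k _ => ?_
    unfold dE
    rw [Finset.card_filter, Finset.sum_product]
    push_cast
    have e1 : ∀ x, ∑ y, (if x ∈ T k ∧ y ∈ T k ∧ G.Adj x y then (1 : ℝ) else 0) =
        if x ∈ T k then ∑ y ∈ T k, (if G.Adj x y then (1 : ℝ) else 0) else 0 := by
      intro x
      by_cases hx : x ∈ T k
      · rw [if_pos hx]
        simp only [hx, true_and]
        rw [← Finset.sum_filter_add_sum_filter_not Finset.univ (fun y => y ∈ T k)]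
        rw [Finset.filter_mem_eq_inter, Finset.univ_inter]
        have e2 : ∑ y ∈ Finset.univ.filter (fun y => y ∉ T k),
            (if y ∈ T k ∧ G.Adj x y then (1 : ℝ) else 0) = 0 := by
          refine Finset.sum_eq_zero fun y hy => if_neg ?_
          rintro ⟨h1, -⟩
          exact (Finset.mem_filter.mp hy).2 h1
        rw [e2, add_zero]
        refine Finset.sum_congr rfl fun y hy => ?_
        simp only [hy, true_and]
      · rw [if_neg hx]
        refine Finset.sum_eq_zero fun y _ => if_neg fun h => hx h.1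
    rw [Finset.sum_congr rfl fun x _ => e1 x, ← Finset.sum_filter, Finset.filter_mem_eq_inter,
      Finset.univ_inter]
  · rw [← L03_count F]
    rw [Finset.sum_congr rfl fun x _ => Finset.sum_comm, Finset.sum_comm]
    refine Finset.sum_congr rfl fun k _ => ?_
    rw [Finset.sum_congr rfl fun x _ => Finset.sum_comm, Finset.sum_comm]
    refine Finset.sum_congr rfl fun l _ => ?_
    rw [Finset.sum_eq_single (v k), Finset.sum_eq_single (v l)]
    · rw [if_pos rfl, if_pos rfl]
    · intro y _ hy
      rw [if_pos rfl, if_neg hy]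
    · intro h; exact absurd (Finset.mem_univ _) h
    · intro x _ hx
      refine Finset.sum_eq_zero fun y _ => if_neg hx
    · intro h; exact absurd (Finset.mem_univ _) h

end SQE
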