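import Pool.Agent.Helper4.SQE.Defs
import Pool.Agent.Helper4.SQE.A07
import Pool.Agent.Helper4.SQE.L01
import Pool.Agent.Helper4.SQE.L02

/-!
# root entries of the positive part
-/

set_option autoImplicit false
set_option linter.unusedSectionVars false

open Finset

namespace SQE

variable {V : Type*} [Fintype V] [DecidableEq V]

private theorem l04_val {G : SimpleGraph V} {S : Finset V} {T : Fin 4 → Finset V}
    {v : Fin 4 → V} {E : Fin 4 → Fin 4 → Prop} (F : Four G S T v E) {k l : Fin 4}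
    (hkl : E k l) : wmat G T v E (v k) (v l) = 4 / 3 := by
  have hne : k ≠ l := by
    rintro rfl
    rcases F.shape with h | h
    · rcases (h k k).1 hkl with ⟨h1, h2⟩ | ⟨h1, h2⟩
      · exact h2 h1
      · exact h2 h1
    · rcases (h k k).1 hkl with h1 | h1 <;> omega
  have hmem : ∀ a m, v a ∈ T m → m = a := by
    intro a m hm
    by_contra hc
    exact (Finset.disjoint_left.1 (F.disj m a hc)) hm (F.leafy a).root
  have h1 : ¬ ((∃ m, v k ∈ T m ∧ v l ∈ T m) ∧ G.Adj (v k) (v l)) := by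
    rintro ⟨⟨m, hm1, hm2⟩, _⟩
    exact hne ((hmem k m hm1).symm.trans (hmem l m hm2))
  have h2 : ∃ a b, E a b ∧ v k = v a ∧ v l = v b := ⟨k, l, hkl, rfl, rfl⟩
  unfold wmat
  rw [if_neg h1, if_pos h2, zero_add]

theorem four_root_entry {G : SimpleGraph V} {S : Finset V} {T : Fin 4 → Finset V}
    {v : Fin 4 → V} {E : Fin 4 → Fin 4 → Prop} (F : Four G S T v E) {U W : Matrix V V ℝ}
    (hU : Split (wmat G T v E) U W) {k l : Fin 4} (hkl : E k l) : U (v k) (v l) = 2 / 3 := by
  obtain ⟨σ, hσ⟩ := wmat_odd F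
  have h1 := l04_val F hkl
  have h2 : σ (v k) ≠ σ (v l) := hσ _ _ (by rw [h1]; norm_num)
  rw [hU.odd_entry hσ h2, h1]
  norm_num

end SQE
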