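import Pool.Agent.Helper4.SQE.Defs
import Pool.Agent.Helper4.SQE.L4fin
import Pool.Agent.Helper4.SQE.A03
import Pool.Agent.Helper4.SQE.A05
import Pool.Agent.Helper4.SQE.L02
import Pool.Agent.Helper4.SQE.L04

/-!
# strictness: the off-diagonal blocks carry more than 8/3
-/

set_option autoImplicit false
set_option linter.unusedSectionVars false

open Finset

namespace SQE

variable {V : Type*} [Fintype V] [DecidableEq V]

theorem four_strict {G : SimpleGraph V} {S : Finset V} {T : Fin 4 → Finset V} {v : Fin 4 → V}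
    {E : Fin 4 → Fin 4 → Prop} (F : Four G S T v E) {U W : Matrix V V ℝ}
    (hU : Split (wmat G T v E) U W) :
    8 / 3 < ∑ k, ∑ l, ∑ x ∈ T k, ∑ y ∈ T l, (if k = l then 0 else (U x y) ^ 2) := by
  have hout : ∀ x y, ((∀ k, x ∉ T k) ∨ ∀ k, y ∉ T k) → U x y = 0 := by
    intro x y h
    rcases h with h | h
    · exact (hU.zero_row (fun j => wmat_outside F h j) y).1
    · exact (hU.zero_row (fun j => wmat_outside F h j) x).2.1
  have hUU : U * U = U * wmat G T v E := by
    rw [hU.eq, Matrix.mul_sub, hU.mul, sub_zero]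
  have h := H20.four_cross F hout (fun k l hkl => four_root_entry F hU hkl) hUU
  refine h.trans_le (le_of_eq ?_)
  refine Finset.sum_congr rfl fun k _ => Finset.sum_congr rfl fun l _ => ?_
  by_cases hkl : k = l
  · rw [if_neg (not_not.mpr hkl)]
    exact (Finset.sum_eq_zero fun x _ => Finset.sum_eq_zero fun y _ => if_pos hkl).symm
  · rw [if_pos hkl]
    exact Finset.sum_congr rfl fun x _ => Finset.sum_congr rfl fun y _ => (if_neg hkl).symm

end SQE
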