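import Pool.Agent.Helper4.SQE.Defs
import Pool.Agent.Helper4.SQE.A04
import Pool.Agent.Helper4.SQE.L4fin
import Pool.Agent.Helper4.SQE.A05
import Pool.Agent.Helper4.SQE.B03
import Pool.Agent.Helper4.SQE.L02

/-!
# the upper estimate
-/

set_option autoImplicit false
set_option linter.unusedSectionVars false

open Finset

namespace SQE

variable {V : Type*} [Fintype V] [DecidableEq V]

theorem four_upper {G : SimpleGraph V} {S : Finset V} {T : Fin 4 → Finset V} {v : Fin 4 → V}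
    {E : Fin 4 → Fin 4 → Prop} (h : MinCex G S) (F : Four G S T v E) {U W P N : Matrix V V ℝ}
    (hU : Split (wmat G T v E) U W) (hP : Split (adjR G S) P N) :
    2 * Fr U P ≤ Fr U U
      - (1 / 2) * ∑ k, ∑ l, ∑ x ∈ T k, ∑ y ∈ T l, (if k = l then 0 else (U x y) ^ 2)
      + ∑ k, ((T k).card : ℝ) := by
  classical
  have hout : ∀ x y, ((∀ k, x ∉ T k) ∨ ∀ k, y ∉ T k) → U x y = 0 := by
    intro x y h
    rcases h with h | h
    · exact (hU.zero_row (fun j => wmat_outside F h j) y).1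
    · exact (hU.zero_row (fun j => wmat_outside F h j) x).2.1
  have hPs : ∀ x y, P x y = P y x := fun x y => by
    have := congrFun (congrFun hP.pos.1 x) y
    rw [Matrix.conjTranspose_apply, star_trivial] at this
    exact this.symm
  have hstar : ∀ k, ∑ x ∈ T k, ∑ y ∈ T k, P x y ^ 2 + 2 * ∑ x ∈ T k, ∑ y ∈ (T k)ᶜ, P x y ^ 2
      ≤ ((T k).card : ℝ) := by
    intro k
    refine (le_of_eq ?_).trans (row_ineq h (F.leafy k) hP)
    have h1 : ∀ x ∈ T k, ∑ y, (if x ∈ T k ∨ y ∈ T k then P x y ^ 2 else 0) =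
        ∑ y ∈ T k, P x y ^ 2 + ∑ y ∈ (T k)ᶜ, P x y ^ 2 := by
      intro x hx
      rw [Finset.sum_add_sum_compl]
      exact Finset.sum_congr rfl fun y _ => if_pos (Or.inl hx)
    have h2 : ∀ x ∈ (T k)ᶜ, ∑ y, (if x ∈ T k ∨ y ∈ T k then P x y ^ 2 else 0) =
        ∑ y ∈ T k, P x y ^ 2 := by
      intro x hx
      rw [← Finset.sum_add_sum_compl (T k)]
      have h3 : ∑ y ∈ (T k)ᶜ, (if x ∈ T k ∨ y ∈ T k then P x y ^ 2 else 0) = 0 :=
        Finset.sum_eq_zero fun y hy => if_neg fun h' =>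
          h'.elim (Finset.mem_compl.mp hx) (Finset.mem_compl.mp hy)
      rw [h3, add_zero]
      exact Finset.sum_congr rfl fun y hy => if_pos (Or.inr hy)
    have h4 : ∑ x ∈ (T k)ᶜ, ∑ y ∈ T k, P x y ^ 2 = ∑ x ∈ T k, ∑ y ∈ (T k)ᶜ, P x y ^ 2 := by
      rw [Finset.sum_comm]
      exact Finset.sum_congr rfl fun x _ => Finset.sum_congr rfl fun y _ => by rw [hPs]
    rw [← Finset.sum_add_sum_compl (T k) (fun x => ∑ y, _), Finset.sum_congr rfl h1,
      Finset.sum_congr rfl h2, h4, Finset.sum_add_distrib]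
    ring
  have h := H20.four_upper (P := P) (U := U) T F.disj hout hstar
  refine h.trans (le_of_eq ?_)
  congr 2
  congr 1
  refine Finset.sum_congr rfl fun k _ => Finset.sum_congr rfl fun l _ => ?_
  by_cases hkl : k = l
  · rw [if_neg (not_not.mpr hkl)]
    exact (Finset.sum_eq_zero fun x _ => Finset.sum_eq_zero fun y _ => if_pos hkl).symm
  · rw [if_pos hkl]
    exact Finset.sum_congr rfl fun x _ => Finset.sum_congr rfl fun y _ => (if_neg hkl).symm

end SQE
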