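import Pool.Agent.Helper4.SQE.Defs
import Pool.Agent.Helper4.SQE.L4fin
import Pool.Agent.Helper4.SQE.A03
import Pool.Agent.Helper4.SQE.A05
import Pool.Agent.Helper4.SQE.L02
import Pool.Agent.Helper4.SQE.L04

/-!
# the lower estimate
-/

set_option autoImplicit false
set_option linter.unusedSectionVars false

open Finset

namespace SQE

variable {V : Type*} [Fintype V] [DecidableEq V]

theorem four_lower {G : SimpleGraph V} {S : Finset V} {T : Fin 4 → Finset V} {v : Fin 4 → V}
    {E : Fin 4 → Fin 4 → Prop} (F : Four G S T v E) {U W : Matrix V V ℝ}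
    (hU : Split (wmat G T v E) U W)
    (hch : ∀ k l, k ≠ l → ¬ E k l → G.Adj (v k) (v l) → 0 ≤ U (v k) (v l)) :
    Fr U U - 4 / 3 ≤ Fr U (adjR G S) := by
  have hout : ∀ x y, ((∀ k, x ∉ T k) ∨ ∀ k, y ∉ T k) → U x y = 0 := by
    intro x y h
    rcases h with h | h
    · exact (hU.zero_row (fun j => wmat_outside F h j) y).1
    · exact (hU.zero_row (fun j => wmat_outside F h j) x).2.1
  have h := H20.four_lower F hout (fun k l hkl => four_root_entry F hU hkl) hch
  rwa [hU.fr_PA] at h

end SQE
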