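import Pool.Agent.Helper4.SQE.Defs
import Pool.Agent.Helper4.SQE.A01
import Pool.Agent.Helper4.SQE.A02
import Pool.Agent.Helper4.SQE.A03
import Pool.Agent.Helper4.SQE.A07
import Pool.Agent.Helper4.SQE.B01
import Pool.Agent.Helper4.SQE.G01
import Pool.Agent.Helper4.SQE.L01
import Pool.Agent.Helper4.SQE.L03
import Pool.Agent.Helper4.SQE.L05
import Pool.Agent.Helper4.SQE.L06
import Pool.Agent.Helper4.SQE.L07

/-!
# the four vertex lemma
-/

set_option autoImplicit false
set_option linter.unusedSectionVars false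

open Finset

namespace SQE

variable {V : Type*} [Fintype V] [DecidableEq V]

theorem l4 {G : SimpleGraph V} {S : Finset V} {T : Fin 4 → Finset V} {v : Fin 4 → V}
    {E : Fin 4 → Fin 4 → Prop} (h : MinCex G S) (F : Four G S T v E) {U W : Matrix V V ℝ}
    (hU : Split (wmat G T v E) U W)
    (hch : ∀ k l, k ≠ l → ¬ E k l → G.Adj (v k) (v l) → 0 ≤ U (v k) (v l)) : False := by
  obtain ⟨P, N, hP, -⟩ := exists_split (adjR G S) (adjR_herm G S)
  have h1 := four_lower F hU hch
  have h2 := four_upper h F hU hP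
  have h3 := four_strict F hU
  obtain ⟨σ, hσ⟩ := wmat_odd F
  have h4 := hU.odd_norm hσ
  rw [wmat_norm F] at h4
  have h5 : Fr U (adjR G S) ≤ Fr U P := by
    rw [hP.eq, fr_sub_right]
    have := fr_nonneg hU.pos hP.neg
    linarith
  have h6 : ∀ k, 2 * ((T k).card : ℝ) ≤ (dE G (T k) : ℝ) + 2 := by
    intro k
    have := conn_edges (F.leafy k).conn
    exact_mod_cast this
  have h7 : 2 * ∑ k, ((T k).card : ℝ) ≤ ∑ k, (dE G (T k) : ℝ) + 8 := by
    rw [Fin.sum_univ_four, Fin.sum_univ_four]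
    have a0 := h6 0
    have a1 := h6 1
    have a2 := h6 2
    have a3 := h6 3
    linarith
  linarith

end SQE
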