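import Pool.Agent.Helper4.SQE.Defs
import Pool.Agent.Helper4.SQE.A10
import Pool.Agent.Helper4.SQE.L02

/-!
# chords of the star
-/

set_option autoImplicit false
set_option linter.unusedSectionVars false

open Finset

namespace SQE

variable {V : Type*} [Fintype V] [DecidableEq V]

private lemma L09_odd {G : SimpleGraph V} {S : Finset V} {T : Fin 4 → Finset V} {v : Fin 4 → V}
    {E : Fin 4 → Fin 4 → Prop} (F : Four G S T v E) (k : Fin 4) : Odd (wmat G T v E) (T k) := by
  obtain ⟨σ, hσ⟩ := (F.leafy k).bip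
  refine ⟨σ, fun i hi j hj h => hσ i hi j hj ?_⟩
  rw [wmat_block F hi hj] at h
  by_contra hn
  apply h
  unfold adjR
  rw [if_neg]
  exact fun h' => hn h'.2.2

private lemma L09_row {G : SimpleGraph V} {S : Finset V} {T : Fin 4 → Finset V} {v : Fin 4 → V}
    (F : Four G S T v starE) {k : Fin 4} (hk : k ≠ 0) {r : V} (hr : r ∉ T k) :
    wmat G T v starE (v k) r = if r = v 0 then 4 / 3 else 0 := by
  have hk0 : starE k 0 := Or.inr ⟨rfl, hk⟩
  by_cases h0 : r = v 0
  · rw [if_pos h0, h0, wmat_root F hk0]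
  · rw [if_neg h0]
    by_contra h
    obtain ⟨-, m, hm, rfl⟩ := wmat_cross F (F.leafy k).root hr h
    rcases hm with ⟨h1, -⟩ | ⟨h1, -⟩
    · exact hk h1
    · exact h0 (by rw [h1])

theorem star_chord {G : SimpleGraph V} {S : Finset V} {T : Fin 4 → Finset V} {v : Fin 4 → V}
    (F : Four G S T v starE) {U W : Matrix V V ℝ} (hU : Split (wmat G T v starE) U W)
    {k l : Fin 4} (hkl : k ≠ l) (hE : ¬ starE k l) : 0 ≤ U (v k) (v l) := by
  have hk : k ≠ 0 := fun h => hE (Or.inl ⟨h, fun h' => hkl (by rw [h, h'])⟩)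
  have hl : l ≠ 0 := fun h => hE (Or.inr ⟨h, hk⟩)
  have hroot : ∀ k, v k ∈ T k := fun k => (F.leafy k).root
  have hdis : ∀ {a b : Fin 4} {x : V}, x ∈ T a → x ∈ T b → a = b := by
    intro a b x ha hb
    by_contra hab
    exact Finset.disjoint_left.mp (F.disj a b hab) ha hb
  have hX : ∀ m : Fin 4, ∀ i ∈ T m, ∀ j, j ∉ T m → i ≠ v m → wmat G T v starE i j = 0 := by
    intro m i hi j hj hne
    by_contra h
    exact hne (wmat_cross F hi hj h).1
  have h0k : v 0 ∉ T k := fun h => hk (hdis (hroot 0) h).symm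
  have h0l : v 0 ∉ T l := fun h => hl (hdis (hroot 0) h).symm
  refine (twin hU (F.disj k l hkl) (hroot k) (hroot l) (hX k) (hX l) ?_ ?_ ?_ (L09_odd F k)
    (L09_odd F l)).le
  · rw [L09_row F hk (fun h => hkl (hdis h (hroot l))), if_neg]
    intro h
    exact hl (hdis (hroot l) (h ▸ hroot 0 : v l ∈ T 0))
  · intro r hrk hrl
    rw [L09_row F hk hrk, L09_row F hl hrl]
  · refine ⟨v 0, h0k, h0l, ?_⟩
    rw [L09_row F hk h0k, if_pos rfl]
    norm_num

end SQE
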