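import Pool.Agent.Helper4.SQE.Defs
import Pool.Agent.Helper4.SQE.A02
import Pool.Agent.Helper4.SQE.L08
import Pool.Agent.Helper4.SQE.L09

/-!
# no star of four removable vertices in a minimal counterexample
-/

set_option autoImplicit false
set_option linter.unusedSectionVars false

open Finset

namespace SQE

variable {V : Type*} [Fintype V] [DecidableEq V]

theorem kill_star {G : SimpleGraph V} {S : Finset V} (h : MinCex G S) {z a b d : V}
    {Tz Ta Tb Td : Finset V} (hz : Leafy G S z Tz) (ha : Leafy G S a Ta) (hb : Leafy G S b Tb)
    (hd : Leafy G S d Td) (d1 : Disjoint Tz Ta) (d2 : Disjoint Tz Tb) (d3 : Disjoint Tz Td)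
    (d4 : Disjoint Ta Tb) (d5 : Disjoint Ta Td) (d6 : Disjoint Tb Td)
    (e1 : G.Adj z a) (e2 : G.Adj z b) (e3 : G.Adj z d) : False := by
  have F : Four G S ![Tz, Ta, Tb, Td] ![z, a, b, d] starE := by
    refine ⟨?_, ?_, ?_, ?_⟩
    · intro k
      fin_cases k
      · exact hz
      · exact ha
      · exact hb
      · exact hd
    · intro k l hkl
      fin_cases k <;> fin_cases l
      · exact absurd rfl hkl
      · exact d1
      · exact d2
      · exact d3
      · exact d1.symm
      · exact absurd rfl hkl
      · exact d4
      · exact d5
      · exact d2.symm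
      · exact d4.symm
      · exact absurd rfl hkl
      · exact d6
      · exact d3.symm
      · exact d5.symm
      · exact d6.symm
      · exact absurd rfl hkl
    · intro k l hE
      rcases hE with ⟨hk, hl⟩ | ⟨hl, hk⟩
      · subst hk
        fin_cases l
        · exact absurd rfl hl
        · exact e1
        · exact e2
        · exact e3
      · subst hl
        fin_cases k
        · exact absurd rfl hk
        · exact e1.symm
        · exact e2.symm
        · exact e3.symm
    · exact Or.inl fun k l => Iff.rfl
  have hA : (wmat G ![Tz, Ta, Tb, Td] ![z, a, b, d] starE).IsHermitian := by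
    refine Matrix.IsHermitian.ext fun i j => ?_
    rw [wmat_symm F j i]
    exact star_trivial _
  obtain ⟨U, W, hU, _⟩ := exists_split _ hA
  exact l4 h F hU fun k l hkl hE _ => star_chord F hU hkl hE

end SQE
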