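import Pool.Agent.Helper4.SQE.Defs
import Pool.Agent.Helper4.SQE.A07
import Pool.Agent.Helper4.SQE.L01
import Pool.Agent.Helper4.SQE.L02

/-!
# chords of the path
-/

set_option autoImplicit false
set_option linter.unusedSectionVars false

open Finset

namespace SQE

variable {V : Type*} [Fintype V] [DecidableEq V]

theorem path_chord {G : SimpleGraph V} {S : Finset V} {T : Fin 4 → Finset V} {v : Fin 4 → V}
    (F : Four G S T v pathE) {U W : Matrix V V ℝ} (hU : Split (wmat G T v pathE) U W) :
    U (v 0) (v 3) = 0 ∧ U (v 3) (v 0) = 0 := by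
  classical
  obtain ⟨σ, hσ⟩ := wmat_odd F
  have hne : ∀ k l : Fin 4, pathE k l → σ (v k) ≠ σ (v l) := by
    intro k l hkl
    apply hσ
    rw [wmat_root F hkl]
    norm_num
  have h01 : σ (v 0) ≠ σ (v 1) := hne 0 1 (by decide)
  have h12 : σ (v 1) ≠ σ (v 2) := hne 1 2 (by decide)
  have h23 : σ (v 2) ≠ σ (v 3) := hne 2 3 (by decide)
  have h03 : σ (v 0) ≠ σ (v 3) := by
    revert h01 h12 h23
    cases σ (v 0) <;> cases σ (v 1) <;> cases σ (v 2) <;> cases σ (v 3) <;> simp
  have hroot : ∀ k l : Fin 4, v k ∈ T l → k = l := by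
    intro k l h
    by_contra hkl
    exact Finset.disjoint_left.1 (F.disj k l hkl) (F.leafy k).root h
  have hw : wmat G T v pathE (v 0) (v 3) = 0 := by
    by_contra h0
    obtain ⟨_, l, hl, hvl⟩ := wmat_cross F (k := 0) (F.leafy 0).root
      (fun h => absurd (hroot 3 0 h) (by decide)) h0
    have h3 : (3 : Fin 4) = l := by
      apply hroot 3 l
      rw [hvl]
      exact (F.leafy l).root
    rw [← h3] at hl
    exact absurd hl (by decide)
  have hw' : wmat G T v pathE (v 3) (v 0) = 0 := by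
    rw [wmat_symm F, hw]
  refine ⟨?_, ?_⟩
  · rw [hU.odd_entry hσ h03, hw, zero_div]
  · rw [hU.odd_entry hσ (Ne.symm h03), hw', zero_div]

end SQE
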