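import Pool.Agent.Helper4.SQE.Defs
import Pool.Agent.Helper4.SQE.A02
import Pool.Agent.Helper4.SQE.L02
import Pool.Agent.Helper4.SQE.L08
import Pool.Agent.Helper4.SQE.L10

/-!
# no path of four removable vertices in a minimal counterexample
-/

set_option autoImplicit false
set_option linter.unusedSectionVars false

open Finset

namespace SQE

variable {V : Type*} [Fintype V] [DecidableEq V]

private lemma k02_four {G : SimpleGraph V} {S : Finset V} {p q r s : V}
    {Tp Tq Tr Ts : Finset V} (hp : Leafy G S p Tp) (hq : Leafy G S q Tq) (hr : Leafy G S r Tr)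
    (hs : Leafy G S s Ts) (d1 : Disjoint Tp Tq) (d2 : Disjoint Tp Tr) (d3 : Disjoint Tp Ts)
    (d4 : Disjoint Tq Tr) (d5 : Disjoint Tq Ts) (d6 : Disjoint Tr Ts)
    (e1 : G.Adj p q) (e2 : G.Adj q r) (e3 : G.Adj r s) :
    Four G S ![Tp, Tq, Tr, Ts] ![p, q, r, s] pathE where
  leafy := by
    intro k
    fin_cases k
    · exact hp
    · exact hq
    · exact hr
    · exact hs
  disj := by
    intro k l hkl
    fin_cases k <;> fin_cases l
    · exact absurd rfl hkl
    · exact d1
    · exact d2
    · exact d3
    · exact d1.symm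
    · exact absurd rfl hkl
    · exact d4
    · exact d5
    · exact d2.symm
    · exact d4.symm
    · exact absurd rfl hkl
    · exact d6
    · exact d3.symm
    · exact d5.symm
    · exact d6.symm
    · exact absurd rfl hkl
  adj := by
    intro k l hkl
    unfold pathE at hkl
    fin_cases k <;> fin_cases l
    · exact absurd hkl (by decide)
    · exact e1
    · exact absurd hkl (by decide)
    · exact absurd hkl (by decide)
    · exact e1.symm
    · exact absurd hkl (by decide)
    · exact e2
    · exact absurd hkl (by decide)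
    · exact absurd hkl (by decide)
    · exact e2.symm
    · exact absurd hkl (by decide)
    · exact e3
    · exact absurd hkl (by decide)
    · exact absurd hkl (by decide)
    · exact e3.symm
    · exact absurd hkl (by decide)
  shape := Or.inr fun _ _ => Iff.rfl

theorem kill_path {G : SimpleGraph V} {S : Finset V} (h : MinCex G S) {p q r s : V}
    {Tp Tq Tr Ts : Finset V} (hp : Leafy G S p Tp) (hq : Leafy G S q Tq) (hr : Leafy G S r Tr)
    (hs : Leafy G S s Ts) (d1 : Disjoint Tp Tq) (d2 : Disjoint Tp Tr) (d3 : Disjoint Tp Ts)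
    (d4 : Disjoint Tq Tr) (d5 : Disjoint Tq Ts) (d6 : Disjoint Tr Ts)
    (e1 : G.Adj p q) (e2 : G.Adj q r) (e3 : G.Adj r s) (n1 : ¬ G.Adj p r) (n2 : ¬ G.Adj q s) :
    False := by
  have F := k02_four hp hq hr hs d1 d2 d3 d4 d5 d6 e1 e2 e3
  have hherm : (wmat G ![Tp, Tq, Tr, Ts] ![p, q, r, s] pathE).IsHermitian := by
    refine Matrix.IsHermitian.ext fun x y => ?_
    rw [star_trivial]
    exact wmat_symm F y x
  obtain ⟨U, W, hU, _⟩ := exists_split _ hherm
  have h03 := path_chord F hU
  refine l4 h F hU fun k l hkl hE hadj => ?_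
  fin_cases k <;> fin_cases l
  · exact absurd rfl hkl
  · exact absurd (show pathE 0 1 by decide) hE
  · exact absurd hadj n1
  · exact h03.1.ge
  · exact absurd (show pathE 1 0 by decide) hE
  · exact absurd rfl hkl
  · exact absurd (show pathE 1 2 by decide) hE
  · exact absurd hadj n2
  · exact absurd hadj.symm n1
  · exact absurd (show pathE 2 1 by decide) hE
  · exact absurd rfl hkl
  · exact absurd (show pathE 2 3 by decide) hE
  · exact h03.2.ge
  · exact absurd hadj.symm n2
  · exact absurd (show pathE 3 2 by decide) hE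
  · exact absurd rfl hkl

end SQE
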