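import Pool.Agent.Helper4.SQE.Defs

/-!
# edge deletion: connectivity and edge count
-/

set_option autoImplicit false
set_option linter.unusedSectionVars false

open Finset

namespace SQE

variable {V : Type*} [Fintype V] [DecidableEq V]

/-- deleting an edge of a triangle keeps the graph connected -/
theorem conn_delete {G : SimpleGraph V} {S : Finset V} (h : CConn G S) {a b c : V}
    (hc : c ∈ S) (hac : G.Adj a c) (hbc : G.Adj b c) :
    CConn (G.deleteEdges {s(a, b)}) S := by
  refine ⟨h.1, fun X hX hXn hXS => ?_⟩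
  obtain ⟨u, hu, w, hw, huw⟩ := h.2 X hX hXn hXS
  have hca : c ≠ a := fun e => hac.ne e.symm
  have hcb : c ≠ b := fun e => hbc.ne e.symm
  have key : ∀ x : V, s(x, c) ≠ s(a, b) := by
    intro x hx
    rw [Sym2.eq_iff] at hx
    rcases hx with ⟨_, h2⟩ | ⟨_, h2⟩
    · exact hcb h2
    · exact hca h2
  by_cases hs : s(u, w) = s(a, b)
  · have hwS := (Finset.mem_sdiff.mp hw).1
    have hwX := (Finset.mem_sdiff.mp hw).2
    have huc : G.Adj u c := by
      rw [Sym2.eq_iff] at hs
      rcases hs with ⟨h1, _⟩ | ⟨h1, _⟩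
      · rw [h1]; exact hac
      · rw [h1]; exact hbc
    have hwc : G.Adj w c := by
      rw [Sym2.eq_iff] at hs
      rcases hs with ⟨_, h2⟩ | ⟨_, h2⟩
      · rw [h2]; exact hbc
      · rw [h2]; exact hac
    by_cases hcX : c ∈ X
    · refine ⟨c, hcX, w, hw, ?_⟩
      rw [SimpleGraph.deleteEdges_adj]
      refine ⟨hwc.symm, ?_⟩
      rw [Set.mem_singleton_iff, Sym2.eq_swap]
      exact key w
    · refine ⟨u, hu, c, Finset.mem_sdiff.mpr ⟨hc, hcX⟩, ?_⟩
      rw [SimpleGraph.deleteEdges_adj]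
      refine ⟨huc, ?_⟩
      rw [Set.mem_singleton_iff]
      exact key u
  · refine ⟨u, hu, w, hw, ?_⟩
    rw [SimpleGraph.deleteEdges_adj]
    exact ⟨huw, by rw [Set.mem_singleton_iff]; exact hs⟩

theorem dE_lt {G H : SimpleGraph V} {S : Finset V} (hHG : H ≤ G) {a b : V} (ha : a ∈ S)
    (hb : b ∈ S) (hab : G.Adj a b) (hn : ¬ H.Adj a b) : dE H S < dE G S := by
  classical
  unfold dE
  apply Finset.card_lt_card
  refine ⟨?_, ?_⟩
  · intro p hp
    rw [Finset.mem_filter] at hp ⊢
    exact ⟨hp.1, hHG hp.2⟩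
  · intro hsub
    have hmem : (a, b) ∈ (S ×ˢ S).filter (fun p => G.Adj p.1 p.2) := by
      rw [Finset.mem_filter, Finset.mem_product]
      exact ⟨⟨ha, hb⟩, hab⟩
    have := hsub hmem
    rw [Finset.mem_filter] at this
    exact hn this.2

end SQE
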