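import Pool.Agent.Helper4.SQE.Defs
import Pool.Agent.Helper4.SQE.A02
import Pool.Agent.Helper4.SQE.B01
import Pool.Agent.Helper4.SQE.B04
import Pool.Agent.Helper4.SQE.B05
import Pool.Agent.Helper4.SQE.K03

/-!
# no adjacent twins in a minimal counterexample
-/

set_option autoImplicit false
set_option linter.unusedSectionVars false

open Finset

namespace SQE

variable {V : Type*} [Fintype V] [DecidableEq V]

theorem kill_twin {G : SimpleGraph V} {S : Finset V} (h : MinCex G S) {a b : V}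
    {Ta Tb : Finset V} (ha : Leafy G S a Ta) (hb : Leafy G S b Tb) (hd : Disjoint Ta Tb)
    (hab : G.Adj a b)
    (htw : ∀ j ∈ S, j ∉ Ta → j ∉ Tb → (G.Adj a j ↔ G.Adj b j))
    (hne : ∃ j ∈ S, j ∉ Ta ∧ j ∉ Tb ∧ G.Adj a j) : False := by
  classical
  obtain ⟨c, hcS, hcTa, hcTb, hac⟩ := hne
  have hbc : G.Adj b c := (htw c hcS hcTa hcTb).1 hac
  have haS : a ∈ S := ha.sub ha.root
  have hbS : b ∈ S := hb.sub hb.root
  have hadj : ∀ x y, (G.deleteEdges {s(a, b)}).Adj x y ↔ G.Adj x y ∧ s(x, y) ≠ s(a, b) := by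
    intro x y
    rw [SimpleGraph.deleteEdges_adj, Set.mem_singleton_iff]
  have hle : G.deleteEdges {s(a, b)} ≤ G := SimpleGraph.deleteEdges_le _
  have hnab : ¬ (G.deleteEdges {s(a, b)}).Adj a b := fun h1 => ((hadj a b).1 h1).2 rfl
  have hconn : CConn (G.deleteEdges {s(a, b)}) S := conn_delete h.conn hcS hac hbc
  obtain ⟨P, N, hG, -⟩ := exists_split (adjR G S) (adjR_herm G S)
  obtain ⟨PH, NH, hH, -⟩ := exists_split (adjR (G.deleteEdges {s(a, b)}) S)
    (adjR_herm (G.deleteEdges {s(a, b)}) S)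
  have hpos : 0 < PH a b := by
    refine twin_graph hd ha.root hb.root ha.sub hb.sub ?_ ?_ ?_ ?_ hnab ?_ ?_ hH
    · obtain ⟨σ, hσ⟩ := ha.bip
      exact ⟨σ, fun i hi j hj hij => hσ i hi j hj (hle hij)⟩
    · obtain ⟨σ, hσ⟩ := hb.bip
      exact ⟨σ, fun i hi j hj hij => hσ i hi j hj (hle hij)⟩
    · exact fun i hi j hj hjT hij => ha.out i hi j hj hjT (hle hij)
    · exact fun i hi j hj hjT hij => hb.out i hi j hj hjT (hle hij)
    · intro j hj hjTa hjTb
      have hja : j ≠ a := fun e => hjTa (e ▸ ha.root)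
      have hjb : j ≠ b := fun e => hjTb (e ▸ hb.root)
      rw [hadj, hadj]
      constructor
      · rintro ⟨h1, -⟩
        refine ⟨(htw j hj hjTa hjTb).1 h1, fun e => ?_⟩
        rcases Sym2.eq_iff.1 e with ⟨-, e2⟩ | ⟨-, e2⟩
        · exact hjb e2
        · exact hja e2
      · rintro ⟨h1, -⟩
        refine ⟨(htw j hj hjTa hjTb).2 h1, fun e => ?_⟩
        rcases Sym2.eq_iff.1 e with ⟨-, e2⟩ | ⟨-, e2⟩
        · exact hjb e2
        · exact hja e2
    · refine ⟨c, hcS, hcTa, hcTb, (hadj a c).2 ⟨hac, fun e => ?_⟩⟩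
      have hca : c ≠ a := fun e => hcTa (e ▸ ha.root)
      have hcb : c ≠ b := fun e => hcTb (e ▸ hb.root)
      rcases Sym2.eq_iff.1 e with ⟨-, e2⟩ | ⟨-, e2⟩
      · exact hcb e2
      · exact hca e2
  have hpos' : 0 < PH b a := by
    have h1 := hH.pos.isHermitian.apply a b
    rw [star_trivial] at h1
    rwa [h1]
  have hgain : Fr PH PH < Fr P P := by
    refine gain hle hG hH ?_ ⟨a, haS, b, hbS, hab, hnab⟩
    intro i _ j _ hij hnij
    have h1 : s(i, j) = s(a, b) := by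
      by_contra h2
      exact hnij ((hadj i j).2 ⟨hij, h2⟩)
    rcases Sym2.eq_iff.1 h1 with ⟨e1, e2⟩ | ⟨e1, e2⟩
    · rw [e1, e2]; exact hpos
    · rw [e1, e2]; exact hpos'
  have h1 := h.small P N hG
  have h2 := h.edge (G.deleteEdges {s(a, b)}) hle (dE_lt hle haS hbS hab hnab) hconn PH NH hH
  linarith

end SQE
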