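import Pool.Agent.Helper4.SQE.Defs
import Pool.Agent.Helper4.SQE.A02
import Pool.Agent.Helper4.SQE.B01
import Pool.Agent.Helper4.SQE.B04
import Pool.Agent.Helper4.SQE.B05
import Pool.Agent.Helper4.SQE.K03

/-!
# no diamond
-/

set_option autoImplicit false
set_option linter.unusedSectionVars false

open Finset

namespace SQE

variable {V : Type*} [Fintype V] [DecidableEq V]

/-- core `{a, b, d}` with `a c, b c, c d, a d, b d` edges and `a b` not an edge -/
theorem kill_diamond {G : SimpleGraph V} {S : Finset V} (h : MinCex G S) {c a b d : V}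
    {D : V → Finset V} (hab : a ≠ b) (had : a ≠ d) (hbd : b ≠ d)
    (hD : Dec G S c {a, b, d} D) (e1 : G.Adj a c) (e2 : G.Adj b c) (e3 : G.Adj a d)
    (e4 : G.Adj b d) (e5 : G.Adj c d) (n1 : ¬ G.Adj a b) : False := by
  have ma : a ∈ ({a, b, d} : Finset V) := by simp
  have mb : b ∈ ({a, b, d} : Finset V) := by simp
  have md : d ∈ ({a, b, d} : Finset V) := by simp
  have La := hD.leafy a ma
  have Lb := hD.leafy b mb
  have Ld := hD.leafy d md
  have aS : a ∈ S := La.sub La.root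
  have bS : b ∈ S := Lb.sub Lb.root
  have dS : d ∈ S := Ld.sub Ld.root
  have hca : c ∉ D a := hD.c_not a ma
  have hcb : c ∉ D b := hD.c_not b mb
  have hcd : c ∉ D d := hD.c_not d md
  have cne_a : c ≠ a := fun e => hca (e ▸ La.root)
  have cne_b : c ≠ b := fun e => hcb (e ▸ Lb.root)
  have cne_d : c ≠ d := fun e => hcd (e ▸ Ld.root)
  obtain ⟨H, hH⟩ : ∃ H : SimpleGraph V,
      H = (G.deleteEdges {s(a, d)}).deleteEdges {s(b, d)} := ⟨_, rfl⟩
  have hadj : ∀ i j, H.Adj i j ↔ G.Adj i j ∧ s(i, j) ≠ s(a, d) ∧ s(i, j) ≠ s(b, d) := by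
    intro i j
    rw [hH, SimpleGraph.deleteEdges_adj, SimpleGraph.deleteEdges_adj]
    simp only [Set.mem_singleton_iff, ne_eq]
    tauto
  have hle : H ≤ G := fun i j hij => ((hadj i j).mp hij).1
  have hconn : CConn H S := by
    rw [hH]
    have h1 : CConn (G.deleteEdges {s(a, d)}) S := conn_delete h.conn hD.c_mem e1 e5.symm
    refine conn_delete h1 hD.c_mem ?_ ?_
    · rw [SimpleGraph.deleteEdges_adj]
      refine ⟨e2, ?_⟩
      rw [Set.mem_singleton_iff, Sym2.eq_iff]
      rintro (⟨x1, x2⟩ | ⟨x1, x2⟩)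
      · exact hab x1.symm
      · exact hbd x1
    · rw [SimpleGraph.deleteEdges_adj]
      refine ⟨e5.symm, ?_⟩
      rw [Set.mem_singleton_iff, Sym2.eq_iff]
      rintro (⟨x1, x2⟩ | ⟨x1, x2⟩)
      · exact had x1.symm
      · exact cne_a x2
  have had' : ¬ H.Adj a d := fun e => ((hadj a d).mp e).2.1 rfl
  have hbd' : ¬ H.Adj b d := fun e => ((hadj b d).mp e).2.2 rfl
  have hab' : ¬ H.Adj a b := fun e => n1 (hle e)
  have hac' : H.Adj a c := by
    rw [hadj]
    refine ⟨e1, ?_, ?_⟩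
    · rw [ne_eq, Sym2.eq_iff]
      rintro (⟨x1, x2⟩ | ⟨x1, x2⟩)
      · exact cne_d x2
      · exact had x1
    · rw [ne_eq, Sym2.eq_iff]
      rintro (⟨x1, x2⟩ | ⟨x1, x2⟩)
      · exact hab x1
      · exact had x1
  have hbc' : H.Adj b c := by
    rw [hadj]
    refine ⟨e2, ?_, ?_⟩
    · rw [ne_eq, Sym2.eq_iff]
      rintro (⟨x1, x2⟩ | ⟨x1, x2⟩)
      · exact hab x1.symm
      · exact hbd x1
    · rw [ne_eq, Sym2.eq_iff]
      rintro (⟨x1, x2⟩ | ⟨x1, x2⟩)
      · exact cne_d x2
      · exact hbd x1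
  have hdc' : H.Adj d c := by
    rw [hadj]
    refine ⟨e5.symm, ?_, ?_⟩
    · rw [ne_eq, Sym2.eq_iff]
      rintro (⟨x1, x2⟩ | ⟨x1, x2⟩)
      · exact had x1.symm
      · exact cne_a x2
    · rw [ne_eq, Sym2.eq_iff]
      rintro (⟨x1, x2⟩ | ⟨x1, x2⟩)
      · exact hbd x1.symm
      · exact cne_b x2
  -- neighbours outside the decorations
  have na : ∀ j ∈ S, j ∉ D a → j ∉ D d → H.Adj a j → j = c := by
    intro j hj h1 h2 h3
    rcases (hD.out a ma a La.root j hj h1 (hle h3)).2 with h4 | h4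
    · simp only [Finset.mem_insert, Finset.mem_singleton] at h4
      rcases h4 with rfl | rfl | rfl
      · exact absurd La.root h1
      · exact absurd h3 hab'
      · exact absurd Ld.root h2
    · exact h4
  have nb : ∀ j ∈ S, j ∉ D b → j ∉ D d → H.Adj b j → j = c := by
    intro j hj h1 h2 h3
    rcases (hD.out b mb b Lb.root j hj h1 (hle h3)).2 with h4 | h4
    · simp only [Finset.mem_insert, Finset.mem_singleton] at h4
      rcases h4 with rfl | rfl | rfl
      · exact absurd h3.symm hab'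
      · exact absurd Lb.root h1
      · exact absurd Ld.root h2
    · exact h4
  have nd : ∀ j ∈ S, j ∉ D d → H.Adj d j → j = c := by
    intro j hj h1 h3
    rcases (hD.out d md d Ld.root j hj h1 (hle h3)).2 with h4 | h4
    · simp only [Finset.mem_insert, Finset.mem_singleton] at h4
      rcases h4 with rfl | rfl | rfl
      · exact absurd h3.symm had'
      · exact absurd h3.symm hbd'
      · exact absurd Ld.root h1
    · exact h4
  have bip : ∀ X, BipOn G X → BipOn H X := by
    rintro X ⟨σ, hσ⟩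
    exact ⟨σ, fun i hi j hj hij => hσ i hi j hj (hle hij)⟩
  obtain ⟨P, N, hP, -⟩ := exists_split (adjR G S) (adjR_herm G S)
  obtain ⟨PH, NH, hPH, -⟩ := exists_split (adjR H S) (adjR_herm H S)
  have pad : 0 < PH a d := by
    refine twin_graph (X := D a) (Y := D d) (hD.disj a ma d md had) La.root Ld.root La.sub Ld.sub
      (bip _ La.bip) (bip _ Ld.bip) (fun i hi j hj h1 h2 => La.out i hi j hj h1 (hle h2))
      (fun i hi j hj h1 h2 => Ld.out i hi j hj h1 (hle h2)) had' ?_ ⟨c, hD.c_mem, hca, hcd, hac'⟩ hPH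
    intro j hj h1 h2
    constructor
    · intro h3
      rw [na j hj h1 h2 h3]
      exact hdc'
    · intro h3
      rw [nd j hj h2 h3]
      exact hac'
  have pbd : 0 < PH b d := by
    refine twin_graph (X := D b) (Y := D d) (hD.disj b mb d md hbd) Lb.root Ld.root Lb.sub Ld.sub
      (bip _ Lb.bip) (bip _ Ld.bip) (fun i hi j hj h1 h2 => Lb.out i hi j hj h1 (hle h2))
      (fun i hi j hj h1 h2 => Ld.out i hi j hj h1 (hle h2)) hbd' ?_ ⟨c, hD.c_mem, hcb, hcd, hbc'⟩ hPH
    intro j hj h1 h2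
    constructor
    · intro h3
      rw [nb j hj h1 h2 h3]
      exact hdc'
    · intro h3
      rw [nd j hj h2 h3]
      exact hbc'
  have sym : ∀ i j, PH i j = PH j i := by
    intro i j
    have h1 := hPH.pos.isHermitian.apply j i
    simpa using h1
  have hlt : Fr PH PH < Fr P P := by
    refine gain hle hP hPH ?_ ⟨a, aS, d, dS, e3, had'⟩
    intro i _ j _ h1 h2
    have h3 : s(i, j) = s(a, d) ∨ s(i, j) = s(b, d) := by
      by_contra hn
      push Not at hn
      exact h2 ((hadj i j).mpr ⟨h1, hn.1, hn.2⟩)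
    rcases h3 with h3 | h3
    · rw [Sym2.eq_iff] at h3
      rcases h3 with ⟨rfl, rfl⟩ | ⟨rfl, rfl⟩
      · exact pad
      · rw [sym]; exact pad
    · rw [Sym2.eq_iff] at h3
      rcases h3 with ⟨rfl, rfl⟩ | ⟨rfl, rfl⟩
      · exact pbd
      · rw [sym]; exact pbd
  have h5 := h.edge H hle (dE_lt hle aS dS e3 had') hconn PH NH hPH
  have h6 := h.small P N hP
  linarith

end SQE
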