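import Pool.Agent.Helper4.SQE.Defs
import Pool.Agent.Helper4.SQE.G30
import Pool.Agent.Helper4.SQE.G31
import Pool.Agent.Helper4.SQE.G32
import Pool.Agent.Helper4.SQE.K01
import Pool.Agent.Helper4.SQE.K02
import Pool.Agent.Helper4.SQE.K04
import Pool.Agent.Helper4.SQE.K05

/-!
# there is no minimal counterexample
-/

set_option autoImplicit false
set_option linter.unusedSectionVars false

open Finset

namespace SQE

variable {V : Type*} [Fintype V] [DecidableEq V]

theorem no_mincex {G : SimpleGraph V} {S : Finset V} (h : MinCex G S) : False := by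
  obtain ⟨c, M, D, hD⟩ := exists_dec h.conn h.nbip
  by_cases h4 : 4 ≤ M.card
  · rcases four_vertices hD.Mconn h4 with
      ⟨z, hz, a, ha, b, hb, d, hd, hab, had, hbd, e1, e2, e3⟩ |
      ⟨p, hp, q, hq, r, hr, s, hs, hpr, hps, hqs, e1, e2, e3, n1, n2⟩
    · exact kill_star h (hD.leafy z hz) (hD.leafy a ha) (hD.leafy b hb) (hD.leafy d hd)
        (hD.disj z hz a ha e1.ne) (hD.disj z hz b hb e2.ne) (hD.disj z hz d hd e3.ne)
        (hD.disj a ha b hb hab) (hD.disj a ha d hd had) (hD.disj b hb d hd hbd) e1 e2 e3
    · exact kill_path h (hD.leafy p hp) (hD.leafy q hq) (hD.leafy r hr) (hD.leafy s hs)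
        (hD.disj p hp q hq e1.ne) (hD.disj p hp r hr hpr) (hD.disj p hp s hs hps)
        (hD.disj q hq r hr e2.ne) (hD.disj q hq s hs hqs) (hD.disj r hr s hs e3.ne)
        e1 e2 e3 n1 n2
  · have h3 : M.card ≤ 3 := by omega
    rcases three_vertices hD h3 with ⟨a, b, hab, hM, e1, e2, e3⟩ |
      ⟨a, b, d, hab, had, hbd, hM, e1, e2, e3, e4, e5⟩
    · have ha : a ∈ M := by rw [hM]; simp
      have hb : b ∈ M := by rw [hM]; simp
      have key : ∀ x ∈ M, ∀ j ∈ S, j ∉ D a → j ∉ D b → j ∉ D x → G.Adj x j → j = c := by
        intro x hx j hj ja jb jx hadj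
        rcases (hD.out x hx x (hD.leafy x hx).root j hj jx hadj).2 with h1 | h1
        · rw [hM] at h1
          simp only [Finset.mem_insert, Finset.mem_singleton] at h1
          rcases h1 with rfl | rfl
          · exact absurd (hD.leafy j ha).root ja
          · exact absurd (hD.leafy j hb).root jb
        · exact h1
      refine kill_twin h (hD.leafy a ha) (hD.leafy b hb) (hD.disj a ha b hb hab) e1 ?_ ?_
      · intro j hj ja jb
        constructor
        · intro hadj
          rw [key a ha j hj ja jb ja hadj]
          exact e3
        · intro hadj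
          rw [key b hb j hj ja jb jb hadj]
          exact e2
      · exact ⟨c, hD.c_mem, hD.c_not a ha, hD.c_not b hb, e2⟩
    · subst hM
      have ha : a ∈ ({a, b, d} : Finset V) := by simp
      have hb : b ∈ ({a, b, d} : Finset V) := by simp
      have hd : d ∈ ({a, b, d} : Finset V) := by simp
      by_cases nab : G.Adj a b
      · have key : ∀ x ∈ ({a, b, d} : Finset V), ∀ j ∈ S, j ∉ D a → j ∉ D b → j ∉ D x →
            G.Adj x j → j = c ∨ j = d := by
          intro x hx j hj ja jb jx hadj
          rcases (hD.out x hx x (hD.leafy x hx).root j hj jx hadj).2 with h1 | h1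
          · simp only [Finset.mem_insert, Finset.mem_singleton] at h1
            rcases h1 with rfl | rfl | rfl
            · exact absurd (hD.leafy j ha).root ja
            · exact absurd (hD.leafy j hb).root jb
            · exact Or.inr rfl
          · exact Or.inl h1
        refine kill_twin h (hD.leafy a ha) (hD.leafy b hb) (hD.disj a ha b hb hab) nab ?_ ?_
        · intro j hj ja jb
          constructor
          · intro hadj
            rcases key a ha j hj ja jb ja hadj with h1 | h1
            · rw [h1]; exact e2
            · rw [h1]; exact e4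
          · intro hadj
            rcases key b hb j hj ja jb jb hadj with h1 | h1
            · rw [h1]; exact e1
            · rw [h1]; exact e3
        · exact ⟨c, hD.c_mem, hD.c_not a ha, hD.c_not b hb, e1⟩
      · have e6 : G.Adj c d := by
          rcases e5 with h1 | h1
          · exact absurd h1 nab
          · exact h1
        exact kill_diamond h hab had hbd hD e1 e2 e3 e4 e6 nab

end SQE
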