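import Pool.Agent.Helper4.SQE.Defs
import Pool.Agent.Helper4.SQE.A04
import Pool.Agent.Helper4.SQE.B01
import Pool.Agent.Helper4.SQE.B02
import Pool.Agent.Helper4.SQE.G01
import Pool.Agent.Helper4.SQE.F01

/-!
# the main inequality
-/

set_option autoImplicit false
set_option linter.unusedSectionVars false

open Finset

namespace SQE

variable {V : Type*} [Fintype V] [DecidableEq V]

/-- connected bipartite: the energy is the number of edges, at least `|S| - 1` -/
theorem bip_lower {G : SimpleGraph V} {S : Finset V} (hc : CConn G S) (hb : BipOn G S)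
    {P N : Matrix V V ℝ} (h : Split (adjR G S) P N) : (S.card : ℝ) - 1 ≤ Fr P P := by
  rw [bip_energy hb h]
  have h1 : (2 * S.card : ℝ) ≤ (dE G S : ℝ) + 2 := by exact_mod_cast conn_edges hc
  linarith

theorem main_aux (n : ℕ) : ∀ (G : SimpleGraph V) (S : Finset V), S.card + dE G S = n →
    CConn G S → ¬ BipOn G S → ∀ P N : Matrix V V ℝ, Split (adjR G S) P N →
    (S.card : ℝ) - 1 < Fr P P := by
  induction n using Nat.strong_induction_on with
  | _ n ih =>
    intro G S hn hc hnb P N hP
    by_contra hcon
    have hcon' : Fr P P ≤ (S.card : ℝ) - 1 := not_lt.mp hcon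
    refine no_mincex (G := G) (S := S) ⟨hc, hnb, ?_, ?_, ?_⟩
    · intro P' N' hP'
      rw [(hP'.uniq hP).1]
      exact hcon'
    · intro T hTS hne hcT P' N' hP'
      by_cases hb : BipOn G T
      · exact bip_lower hcT hb hP'
      · refine (ih (T.card + dE G T) ?_ G T rfl hcT hb P' N' hP').le
        have h1 : T.card < S.card := Finset.card_lt_card (Finset.ssubset_iff_subset_ne.mpr ⟨hTS, hne⟩)
        have h2 : dE G T ≤ dE G S := by
          classical
          unfold dE
          apply Finset.card_le_card
          intro p hp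
          simp only [Finset.mem_filter, Finset.mem_product] at hp ⊢
          exact ⟨⟨hTS hp.1.1, hTS hp.1.2⟩, hp.2⟩
        omega
    · intro H hHG hlt hcH P' N' hP'
      by_cases hb : BipOn H S
      · exact bip_lower hcH hb hP'
      · refine (ih (S.card + dE H S) ?_ H S rfl hcH hb P' N' hP').le
        omega

theorem main {G : SimpleGraph V} {S : Finset V} (hc : CConn G S) (hnb : ¬ BipOn G S)
    {P N : Matrix V V ℝ} (h : Split (adjR G S) P N) : (S.card : ℝ) - 1 < Fr P P :=
  main_aux _ G S rfl hc hnb P N h

end SQE
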