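import Pool.Agent.Helper4.SQE.Defs

/-!
# translation to Mathlib notions
-/

set_option autoImplicit false
set_option linter.unusedSectionVars false

open Finset

namespace SQE

variable {V : Type*} [Fintype V] [DecidableEq V]

theorem cconn_of_connected {G : SimpleGraph V} (h : G.Connected) : CConn G univ := by
  have hne : Nonempty V := h.nonempty
  refine ⟨Finset.univ_nonempty, fun X _ hX hXu => ?_⟩
  obtain ⟨u, hu⟩ := hX
  obtain ⟨w, hw⟩ : ∃ w, w ∉ X := by
    by_contra hcon
    push Not at hcon
    exact hXu (Finset.eq_univ_iff_forall.2 hcon)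
  obtain ⟨p⟩ := h.preconnected u w
  obtain ⟨d, -, h1, h2⟩ := p.exists_boundary_dart (X : Set V) (Finset.mem_coe.2 hu)
    (fun hc => hw (Finset.mem_coe.1 hc))
  refine ⟨d.fst, Finset.mem_coe.1 h1, d.snd, ?_, d.adj⟩
  exact Finset.mem_sdiff.2 ⟨Finset.mem_univ _, fun hc => h2 (Finset.mem_coe.2 hc)⟩

theorem bipOn_of_isTree {G : SimpleGraph V} (h : G.IsTree) : BipOn G univ := by
  refine ⟨fun v => decide (h.coloringTwo v = 0), fun i _ j _ hij => ?_⟩
  have h1 := h.coloringTwo.valid hij
  intro hc
  apply h1
  have h2 : h.coloringTwo i = 0 ↔ h.coloringTwo j = 0 := by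
    constructor
    · intro h3
      have h4 : decide (h.coloringTwo i = 0) = true := decide_eq_true h3
      exact of_decide_eq_true (hc.symm.trans h4)
    · intro h3
      have h4 : decide (h.coloringTwo j = 0) = true := decide_eq_true h3
      exact of_decide_eq_true (hc.trans h4)
  have h5 := (h.coloringTwo i).isLt
  have h6 := (h.coloringTwo j).isLt
  rw [Fin.ext_iff, Fin.ext_iff] at h2
  apply Fin.ext
  have h7 : ((0 : Fin 2) : ℕ) = 0 := rfl
  rw [h7] at h2
  omega

theorem isTree_iff_dE {G : SimpleGraph V} (h : G.Connected) :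
    G.IsTree ↔ dE G univ + 2 = 2 * Fintype.card V := by
  classical
  rw [SimpleGraph.isTree_iff_connected_and_card]
  have h1 : dE G univ = 2 * Nat.card G.edgeSet := by
    unfold dE
    rw [Nat.card_eq_fintype_card, ← SimpleGraph.edgeFinset_card,
      SimpleGraph.two_mul_card_edgeFinset, Finset.univ_product_univ]
  rw [h1, Nat.card_eq_fintype_card (α := V)]
  constructor
  · rintro ⟨-, h2⟩
    omega
  · intro h2
    exact ⟨h, by omega⟩

end SQE
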