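import Pool.Agent.Helper4.SQE.Defs
import Pool.Agent.Helper4.SQE.A02
import Pool.Agent.Helper4.SQE.A04
import Pool.Agent.Helper4.SQE.B01
import Pool.Agent.Helper4.SQE.B02
import Pool.Agent.Helper4.SQE.F02
import Pool.Agent.Helper4.SQE.F03
import Pool.Agent.Helper4.SQE.G01

/-!
# final theorem
-/

set_option autoImplicit false
set_option linter.unusedSectionVars false

open Finset

namespace SQE

variable {V : Type*} [Fintype V] [DecidableEq V]

theorem final (G : SimpleGraph V) [DecidableRel G.Adj] (hA : (G.adjMatrix ℝ).IsHermitian)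
    (hG : G.Connected) :
    (Fintype.card V : ℝ) - 1 ≤ posSq (G.adjMatrix ℝ) hA ∧
    (posSq (G.adjMatrix ℝ) hA = (Fintype.card V : ℝ) - 1 ↔ G.IsTree) := by
  obtain ⟨P, N, hP, hpos⟩ := exists_split (G.adjMatrix ℝ) hA
  have hP' : Split (adjR G univ) P N := by rw [adjR_univ]; exact hP
  have hc : CConn G univ := cconn_of_connected hG
  rw [← hpos]
  by_cases hb : BipOn G univ
  · have h1 := bip_energy hb hP'
    have h2 := bip_lower hc hb hP'
    rw [Finset.card_univ] at h2
    refine ⟨h2, ?_⟩
    rw [isTree_iff_dE hG, h1]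
    constructor
    · intro h3
      have h4 : (dE G univ : ℝ) + 2 = 2 * (Fintype.card V : ℝ) := by linarith
      exact_mod_cast h4
    · intro h3
      have h4 : (dE G univ : ℝ) + 2 = 2 * (Fintype.card V : ℝ) := by exact_mod_cast h3
      linarith
  · have h1 := main hc hb hP'
    rw [Finset.card_univ] at h1
    refine ⟨h1.le, ?_⟩
    constructor
    · intro h3
      rw [h3] at h1
      exact absurd h1 (lt_irrefl _)
    · intro h3
      exact absurd (bipOn_of_isTree h3) hb

end SQE
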