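import Pool.Agent.Helper4.SQE.Defs

/-!
# The four port lemma: the blockwise Cauchy inequality
-/

set_option autoImplicit false

open Finset

namespace SQE.H20

open SQE

variable {V : Type*} [Fintype V] [DecidableEq V]

/-- a sum over `V` of a function which vanishes outside four disjoint blocks -/
theorem sum_blocks (T : Fin 4 → Finset V) (hd : ∀ k l, k ≠ l → Disjoint (T k) (T l)) (g : V → ℝ)
    (hg : ∀ x, (∀ k, x ∉ T k) → g x = 0) : ∑ x, g x = ∑ k, ∑ x ∈ T k, g x := by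
  classical
  rw [← Finset.sum_biUnion (fun k _ l _ h => hd k l h)]
  refine (Finset.sum_subset (Finset.subset_univ _) fun x _ hx => hg x fun k hk => hx ?_).symm
  exact Finset.mem_biUnion.mpr ⟨k, Finset.mem_univ k, hk⟩

/-- the same for a double sum -/
theorem sum_blocks₂ (T : Fin 4 → Finset V) (hd : ∀ k l, k ≠ l → Disjoint (T k) (T l))
    (g : V → V → ℝ) (hg : ∀ x y, ((∀ k, x ∉ T k) ∨ ∀ k, y ∉ T k) → g x y = 0) :
    ∑ x, ∑ y, g x y = ∑ k, ∑ l, ∑ x ∈ T k, ∑ y ∈ T l, g x y := by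
  rw [sum_blocks T hd _ fun x hx => Finset.sum_eq_zero fun y _ => hg x y (Or.inl hx)]
  refine Finset.sum_congr rfl fun k _ => ?_
  have h1 : ∀ x ∈ T k, ∑ y, g x y = ∑ l, ∑ y ∈ T l, g x y := fun x _ =>
    sum_blocks T hd _ fun y hy => hg x y (Or.inr hy)
  rw [Finset.sum_congr rfl h1, Finset.sum_comm]

/-- `2 ⟨U, P⟩ ≤ ‖U‖² - (1/2) ∑_(different blocks) U² + ∑ |T k|` -/
theorem four_upper {P U : Matrix V V ℝ} (T : Fin 4 → Finset V)
    (hd : ∀ k l, k ≠ l → Disjoint (T k) (T l))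
    (hU : ∀ x y, ((∀ k, x ∉ T k) ∨ ∀ k, y ∉ T k) → U x y = 0)
    (hstar : ∀ k, ∑ x ∈ T k, ∑ y ∈ T k, P x y ^ 2 + 2 * ∑ x ∈ T k, ∑ y ∈ (T k)ᶜ, P x y ^ 2
      ≤ ((T k).card : ℝ)) :
    2 * Fr U P ≤ Fr U U
      - (1 / 2) * (∑ k, ∑ l, if k ≠ l then ∑ x ∈ T k, ∑ y ∈ T l, U x y ^ 2 else 0)
      + ∑ k, ((T k).card : ℝ) := by
  classical
  have h1 : Fr U P = ∑ k, ∑ l, ∑ x ∈ T k, ∑ y ∈ T l, U x y * P x y :=
    sum_blocks₂ T hd _ fun x y h => by rw [hU x y h, zero_mul]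
  have h2 : Fr U U = ∑ k, ∑ l, ∑ x ∈ T k, ∑ y ∈ T l, U x y ^ 2 := by
    have := sum_blocks₂ T hd (fun x y => U x y * U x y) fun x y h => by rw [hU x y h, zero_mul]
    simp only [Fr, pow_two]
    exact this
  have h3 : ∀ k l, 2 * ∑ x ∈ T k, ∑ y ∈ T l, U x y * P x y ≤
      ∑ x ∈ T k, ∑ y ∈ T l, U x y ^ 2 + ∑ x ∈ T k, ∑ y ∈ T l, P x y ^ 2 := by
    intro k l
    rw [Finset.mul_sum, ← Finset.sum_add_distrib]
    refine Finset.sum_le_sum fun x _ => ?_
    rw [Finset.mul_sum, ← Finset.sum_add_distrib]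
    refine Finset.sum_le_sum fun y _ => ?_
    nlinarith [sq_nonneg (U x y - P x y)]
  have h4 : ∀ k l, 2 * ∑ x ∈ T k, ∑ y ∈ T l, U x y * P x y ≤
      (1 / 2) * ∑ x ∈ T k, ∑ y ∈ T l, U x y ^ 2 + 2 * ∑ x ∈ T k, ∑ y ∈ T l, P x y ^ 2 := by
    intro k l
    rw [Finset.mul_sum, Finset.mul_sum, Finset.mul_sum, ← Finset.sum_add_distrib]
    refine Finset.sum_le_sum fun x _ => ?_
    rw [Finset.mul_sum, Finset.mul_sum, Finset.mul_sum, ← Finset.sum_add_distrib]
    refine Finset.sum_le_sum fun y _ => ?_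
    nlinarith [sq_nonneg (U x y - 2 * P x y)]
  have h5 : ∀ k, ∑ l ∈ Finset.univ.erase k, ∑ x ∈ T k, ∑ y ∈ T l, P x y ^ 2 ≤
      ∑ x ∈ T k, ∑ y ∈ (T k)ᶜ, P x y ^ 2 := by
    intro k
    rw [Finset.sum_comm]
    refine Finset.sum_le_sum fun x _ => ?_
    rw [← Finset.sum_biUnion (fun i _ l _ h => hd i l h)]
    refine Finset.sum_le_sum_of_subset_of_nonneg ?_ fun y _ _ => sq_nonneg _
    intro y hy
    obtain ⟨l, hl, hy⟩ := Finset.mem_biUnion.mp hy
    exact Finset.mem_compl.mpr fun h' =>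
      (Finset.disjoint_left.mp (hd l k (Finset.ne_of_mem_erase hl)) hy) h'
  have e0 : (Finset.univ.erase (0 : Fin 4)) = {1, 2, 3} := by decide
  have e1 : (Finset.univ.erase (1 : Fin 4)) = {0, 2, 3} := by decide
  have e2 : (Finset.univ.erase (2 : Fin 4)) = {0, 1, 3} := by decide
  have e3 : (Finset.univ.erase (3 : Fin 4)) = {0, 1, 2} := by decide
  have g0 := h5 0
  have g1 := h5 1
  have g2 := h5 2
  have g3 := h5 3
  rw [e0, Finset.sum_insert (by decide), Finset.sum_insert (by decide),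
    Finset.sum_singleton] at g0
  rw [e1, Finset.sum_insert (by decide), Finset.sum_insert (by decide),
    Finset.sum_singleton] at g1
  rw [e2, Finset.sum_insert (by decide), Finset.sum_insert (by decide),
    Finset.sum_singleton] at g2
  rw [e3, Finset.sum_insert (by decide), Finset.sum_insert (by decide),
    Finset.sum_singleton] at g3
  rw [h1, h2]
  simp only [Fin.sum_univ_four]
  rw [if_neg (by decide), if_pos (by decide), if_pos (by decide), if_pos (by decide),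
    if_pos (by decide), if_neg (by decide), if_pos (by decide), if_pos (by decide),
    if_pos (by decide), if_pos (by decide), if_neg (by decide), if_pos (by decide),
    if_pos (by decide), if_pos (by decide), if_pos (by decide), if_neg (by decide)]
  linarith [h3 0 0, h3 1 1, h3 2 2, h3 3 3, h4 0 1, h4 0 2, h4 0 3, h4 1 0, h4 1 2, h4 1 3,
    h4 2 0, h4 2 1, h4 2 3, h4 3 0, h4 3 1, h4 3 2, hstar 0, hstar 1, hstar 2, hstar 3]

end SQE.H20
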